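import Pool.Agent.Lib.MP_4b09b1_nt.Defs

set_option autoImplicit false

open Finset

namespace Pool.Agent.Lib.MP_4b09b1_nt

namespace LSaux

/-- the product of different primes dividing `d` is at most `|d|` -/
lemma sum_log_le (P : Finset ℕ) (hP : ∀ p ∈ P, p.Prime) (d : ℤ) (hd : d ≠ 0) :
    ∑ p ∈ P.filter (fun p : ℕ => (p : ℤ) ∣ d), Real.log p ≤ Real.log |(d : ℝ)| := by
  have h1 : ∏ p ∈ P.filter (fun p : ℕ => (p : ℤ) ∣ d), p ∣ d.natAbs := by
    apply Finset.prod_primes_dvd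
    · intro p hp
      exact (hP p (Finset.mem_filter.mp hp).1).prime
    · intro p hp
      exact Int.natCast_dvd.mp (Finset.mem_filter.mp hp).2
  have h2 := Nat.le_of_dvd (Int.natAbs_pos.mpr hd) h1
  have h3 : ∑ p ∈ P.filter (fun p : ℕ => (p : ℤ) ∣ d), Real.log p
      = Real.log ((∏ p ∈ P.filter (fun p : ℕ => (p : ℤ) ∣ d), p : ℕ) : ℝ) := by
    push_cast
    rw [Real.log_prod]
    intro p hp
    exact_mod_cast (hP p (Finset.mem_filter.mp hp).1).ne_zero
  rw [h3]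
  have h4 : (0 : ℝ) < ((∏ p ∈ P.filter (fun p : ℕ => (p : ℤ) ∣ d), p : ℕ) : ℝ) := by
    have : 0 < ∏ p ∈ P.filter (fun p : ℕ => (p : ℤ) ∣ d), p := by
      apply Finset.prod_pos
      intro p hp
      exact (hP p (Finset.mem_filter.mp hp).1).pos
    exact_mod_cast this
  apply Real.log_le_log h4
  have h5 : ((d.natAbs : ℕ) : ℝ) = |(d : ℝ)| := by
    rw [Nat.cast_natAbs]
    push_cast
    rfl
  rw [← h5]
  exact_mod_cast h2

end LSaux

theorem larger_sieve (X : Finset ℤ) (P : Finset ℕ) (hP : ∀ p ∈ P, p.Prime) (D : ℝ) (hD : 1 ≤ D)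
    (hX : ∀ x ∈ X, ∀ x' ∈ X, |(x : ℝ) - x'| ≤ D) :
    ∑ p ∈ P, Real.log p * pairs X p ≤
      X.card * ∑ p ∈ P, Real.log p + (X.card : ℝ) ^ 2 * Real.log D := by
  classical
  have hlogD : 0 ≤ Real.log D := Real.log_nonneg hD
  have hlog : ∀ p ∈ P, 0 ≤ Real.log (p : ℝ) := fun p hp =>
    Real.log_nonneg (by exact_mod_cast (hP p hp).one_lt.le)
  have h1 : ∑ p ∈ P, Real.log p * pairs X p
      = ∑ t ∈ X ×ˢ X, ∑ p ∈ P.filter (fun p : ℕ => (p : ℤ) ∣ t.1 - t.2), Real.log p := by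
    have h2 : ∀ p ∈ P, Real.log p * pairs X p
        = ∑ t ∈ X ×ˢ X, if (p : ℤ) ∣ t.1 - t.2 then Real.log p else 0 := by
      intro p _
      unfold pairs
      rw [← Finset.sum_filter, Finset.sum_const, nsmul_eq_mul, mul_comm]
    rw [Finset.sum_congr rfl h2, Finset.sum_comm]
    apply Finset.sum_congr rfl
    intro t _
    rw [Finset.sum_filter]
  rw [h1]
  have h2 : ∀ t ∈ X ×ˢ X, ∑ p ∈ P.filter (fun p : ℕ => (p : ℤ) ∣ t.1 - t.2), Real.log p
      ≤ (if t.1 = t.2 then ∑ p ∈ P, Real.log p else 0) + Real.log D := by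
    intro t ht
    obtain ⟨h3, h4⟩ := Finset.mem_product.mp ht
    by_cases h : t.1 = t.2
    · rw [if_pos h]
      have h5 : ∑ p ∈ P.filter (fun p : ℕ => (p : ℤ) ∣ t.1 - t.2), Real.log p
          ≤ ∑ p ∈ P, Real.log p :=
        Finset.sum_le_sum_of_subset_of_nonneg (Finset.filter_subset _ _)
          (fun p hp _ => hlog p hp)
      linarith
    · rw [if_neg h, zero_add]
      have h5 := LSaux.sum_log_le P hP (t.1 - t.2) (sub_ne_zero.mpr h)
      refine h5.trans (Real.log_le_log ?_ ?_)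
      · rw [abs_pos]
        exact_mod_cast sub_ne_zero.mpr h
      · push_cast
        exact hX _ h3 _ h4
  refine (Finset.sum_le_sum h2).trans ?_
  rw [Finset.sum_add_distrib, Finset.sum_const, nsmul_eq_mul, Finset.card_product]
  have h3 : ∑ t ∈ X ×ˢ X, (if t.1 = t.2 then ∑ p ∈ P, Real.log (p : ℝ) else 0)
      = X.card * ∑ p ∈ P, Real.log (p : ℝ) := by
    rw [Finset.sum_product]
    have h4 : ∀ x ∈ X, ∑ y ∈ X, (if x = y then ∑ p ∈ P, Real.log (p : ℝ) else 0)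
        = ∑ p ∈ P, Real.log (p : ℝ) := by
      intro x hx
      rw [Finset.sum_ite_eq, if_pos hx]
    rw [Finset.sum_congr rfl h4, Finset.sum_const, nsmul_eq_mul]
  rw [h3]
  push_cast
  rw [sq]

end Pool.Agent.Lib.MP_4b09b1_nt
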