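import Pool.Agent.Lib.MP_4b09b1_nt.Defs
import Pool.Agent.Lib.GapSieve.Mertens4

/-!
# MP_4b09b1_nt, module MT: Mertens and Chebyshev
-/

set_option autoImplicit false

open Finset

namespace Pool.Agent.Lib.MP_4b09b1_nt

namespace MTaux

theorem pr_eq (y : ℕ) : pr y = (Ioc 0 y).filter Nat.Prime := by
  ext p
  simp only [pr, mem_filter, mem_range, mem_Ioc]
  constructor
  · rintro ⟨h1, h2⟩
    exact ⟨⟨h2.pos, by omega⟩, h2⟩
  · rintro ⟨⟨h1, h2⟩, h3⟩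
    exact ⟨by omega, h3⟩

theorem upper (y : ℕ) (hy : 1 ≤ y) : ∑ p ∈ pr y, Real.log p / p ≤ Real.log y + 6 := by
  rw [pr_eq]
  exact Pool.Agent.GapSieve.mertens_primes_upper y hy

theorem lower : ∃ C : ℝ, 0 ≤ C ∧ ∀ y : ℕ, 1 ≤ y →
    Real.log y - C ≤ ∑ p ∈ pr y, Real.log p / p := by
  obtain ⟨C, hC0, hC⟩ := Pool.Agent.GapSieve.nonprime_bound
  refine ⟨1 + C, by linarith, fun y hy => ?_⟩
  have h1 := Pool.Agent.DigitChanges.mertens_lower y hy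
  have h2 := hC y
  have h3 : ∑ d ∈ Ioc 0 y, ArithmeticFunction.vonMangoldt d / (d : ℝ)
      = ∑ d ∈ Ioc 0 y with d.Prime, ArithmeticFunction.vonMangoldt d / (d : ℝ)
        + ∑ d ∈ Ioc 0 y with ¬ d.Prime, ArithmeticFunction.vonMangoldt d / (d : ℝ) :=
    (sum_filter_add_sum_filter_not _ _ _).symm
  have h4 : ∑ d ∈ Ioc 0 y with d.Prime, ArithmeticFunction.vonMangoldt d / (d : ℝ)
      = ∑ p ∈ pr y, Real.log p / p := by
    rw [pr_eq]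
    refine sum_congr rfl fun p hp => ?_
    rw [ArithmeticFunction.vonMangoldt_apply_prime (mem_filter.mp hp).2]
  linarith

theorem cheb (y : ℕ) : ∑ p ∈ pr y, Real.log p ≤ Real.log 4 * y := by
  have h := Chebyshev.theta_le_log4_mul_x (x := (y : ℝ)) (Nat.cast_nonneg y)
  refine le_trans (le_of_eq ?_) h
  rw [Chebyshev.theta, Nat.floor_natCast, pr_eq]

theorem sq : ∃ C : ℝ, 0 ≤ C ∧ ∀ y : ℕ, ∑ p ∈ pr y, Real.log p / p ^ 2 ≤ C := by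
  have hs : Summable (fun n : ℕ => 2 * (1 / (n : ℝ) ^ (3 / 2 : ℝ))) :=
    (Real.summable_one_div_nat_rpow.mpr (by norm_num)).mul_left 2
  have hnn : ∀ n : ℕ, 0 ≤ 2 * (1 / (n : ℝ) ^ (3 / 2 : ℝ)) := fun n => by positivity
  refine ⟨∑' n : ℕ, 2 * (1 / (n : ℝ) ^ (3 / 2 : ℝ)), tsum_nonneg hnn, fun y => ?_⟩
  refine le_trans ?_ (hs.sum_le_tsum (pr y) fun n _ => hnn n)
  refine sum_le_sum fun p hp => ?_
  have hp' : p.Prime := (mem_filter.mp hp).2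
  have hp0 : (0 : ℝ) < p := by exact_mod_cast hp'.pos
  have h1 : Real.log p ≤ (p : ℝ) ^ (1 / 2 : ℝ) / (1 / 2) :=
    Real.log_le_rpow_div hp0.le (by norm_num)
  have h2 : (p : ℝ) ^ (3 / 2 : ℝ) * (p : ℝ) ^ (1 / 2 : ℝ) = (p : ℝ) ^ 2 := by
    rw [← Real.rpow_add hp0, ← Real.rpow_natCast]
    norm_num
  rw [div_le_iff₀ (by positivity), ← h2]
  have h3 : 0 < (p : ℝ) ^ (3 / 2 : ℝ) := Real.rpow_pos_of_pos hp0 _
  have h4 : 2 * (1 / (p : ℝ) ^ (3 / 2 : ℝ)) * ((p : ℝ) ^ (3 / 2 : ℝ) * (p : ℝ) ^ (1 / 2 : ℝ))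
      = 2 * (p : ℝ) ^ (1 / 2 : ℝ) := by
    field_simp
  rw [h4]
  linarith

end MTaux

theorem mertens_all : ∃ C : ℝ, 0 ≤ C ∧ ∀ y : ℕ, 1 ≤ y →
    |∑ p ∈ pr y, Real.log p / p - Real.log y| ≤ C ∧ ∑ p ∈ pr y, Real.log p ≤ C * y ∧
    ∑ p ∈ pr y, Real.log p / p ^ 2 ≤ C := by
  obtain ⟨C1, hC1, h1⟩ := MTaux.lower
  obtain ⟨C2, hC2, h2⟩ := MTaux.sq
  have hl4 : 0 ≤ Real.log 4 := Real.log_nonneg (by norm_num)
  refine ⟨6 + C1 + C2 + Real.log 4, by linarith, fun y hy => ⟨?_, ?_, ?_⟩⟩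
  · have h3 := h1 y hy
    have h4 := MTaux.upper y hy
    rw [abs_le]
    constructor <;> linarith
  · refine (MTaux.cheb y).trans ?_
    exact mul_le_mul_of_nonneg_right (by linarith) (Nat.cast_nonneg y)
  · refine (h2 y).trans ?_
    linarith

end Pool.Agent.Lib.MP_4b09b1_nt
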