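import Pool.Agent.Lib.MP_4b09b1_nt.Defs

/-! # CRT: sums of products of periodic functions -/

set_option autoImplicit false

open Finset

namespace Pool.Agent.Lib.MP_4b09b1_nt

/-- an interval of length `n` is a complete residue system modulo `n` -/
theorem CRT_interval (n : ℕ) [NeZero n] (A : ℤ) (h : ZMod n → ℝ) :
    ∑ z ∈ Finset.Ico A (A + (n : ℤ)), h (z : ZMod n) = ∑ x : ZMod n, h x := by
  classical
  have hinj : Set.InjOn (fun z : ℤ => (z : ZMod n)) (Finset.Ico A (A + (n : ℤ)) : Finset ℤ) := by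
    intro x hx y hy hxy
    rw [Finset.mem_coe, Finset.mem_Ico] at hx hy
    have h1 : (n : ℤ) ∣ y - x := (ZMod.intCast_eq_intCast_iff_dvd_sub x y n).1 hxy
    obtain ⟨k, hk⟩ := h1
    have hn : (0 : ℤ) < n := by exact_mod_cast Nat.pos_of_ne_zero (NeZero.ne n)
    have h2 : k = 0 := by
      by_contra hne
      rcases lt_or_gt_of_ne hne with h | h
      · have : (n : ℤ) * k ≤ -n := by nlinarith
        omega
      · have : (n : ℤ) ≤ n * k := by nlinarith
        omega
    rw [h2] at hk
    omega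
  have himg : (Finset.Ico A (A + (n : ℤ))).image (fun z : ℤ => (z : ZMod n)) = Finset.univ := by
    apply Finset.eq_univ_of_card
    rw [Finset.card_image_of_injOn hinj, Int.card_Ico, ZMod.card]
    simp
  rw [← himg, Finset.sum_image hinj]

theorem CRT_range (n : ℕ) [NeZero n] (h : ZMod n → ℝ) :
    ∑ j ∈ Finset.range n, h (j : ZMod n) = ∑ x : ZMod n, h x := by
  rw [← CRT_interval n 0 h, zero_add]
  symm
  refine Finset.sum_nbij' (fun z => z.toNat) (fun j => (j : ℤ)) ?_ ?_ ?_ ?_ ?_
  · intro z hz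
    rw [Finset.mem_Ico] at hz
    rw [Finset.mem_range]
    omega
  · intro j hj
    rw [Finset.mem_range] at hj
    rw [Finset.mem_Ico]
    omega
  · intro z hz
    rw [Finset.mem_Ico] at hz
    show ((z.toNat : ℕ) : ℤ) = z
    omega
  · intro j _
    show ((j : ℤ)).toNat = j
    omega
  · intro z hz
    rw [Finset.mem_Ico] at hz
    show h (z : ZMod n) = h ((z.toNat : ℕ) : ZMod n)
    have h1 : ((z.toNat : ℕ) : ℤ) = z := by omega
    rw [← Int.cast_natCast, h1]

/-! ## CRT: sums of products of periodic functions -/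

theorem sum_prod_period (S : Finset ℕ) (hS : ∀ p ∈ S, p.Prime) (F : ∀ p : ℕ, ZMod p → ℝ) (A : ℤ) :
    ∑ z ∈ Finset.Ico A (A + ∏ p ∈ S, (p : ℤ)), ∏ p ∈ S, F p (z : ZMod p) =
      ∏ p ∈ S, ∑ j ∈ Finset.range p, F p (j : ZMod p) := by
  classical
  induction S using Finset.induction_on generalizing A with
  | empty =>
    rw [Finset.prod_empty, Finset.prod_empty]
    have h1 : Finset.Ico A (A + 1) = {A} := by
      ext z
      rw [Finset.mem_Ico, Finset.mem_singleton]
      omega
    rw [h1, Finset.sum_singleton, Finset.prod_empty]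
  | insert p S hp ih =>
    have hS' : ∀ q ∈ S, q.Prime := fun q hq => hS q (Finset.mem_insert_of_mem hq)
    have hpp : p.Prime := hS p (Finset.mem_insert_self _ _)
    obtain ⟨M, hM⟩ : ∃ M : ℕ, M = ∏ q ∈ S, q := ⟨_, rfl⟩
    have hMz : ∏ q ∈ S, (q : ℤ) = (M : ℤ) := by rw [hM, Nat.cast_prod]
    have hM0 : M ≠ 0 := by
      rw [hM]
      exact Finset.prod_ne_zero_iff.2 fun q hq => (hS' q hq).ne_zero
    haveI : NeZero M := ⟨hM0⟩
    haveI : NeZero p := ⟨hpp.ne_zero⟩
    haveI : NeZero (p * M) := ⟨Nat.mul_ne_zero hpp.ne_zero hM0⟩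
    have hcop : Nat.Coprime p M := by
      rw [hM]
      refine Nat.Coprime.prod_right fun q hq => ?_
      exact (Nat.coprime_primes hpp (hS' q hq)).2 (fun h => hp (h ▸ hq))
    -- the product over `S` as a function on `ZMod M`
    obtain ⟨G, hG⟩ : ∃ G : ZMod M → ℝ, G = fun y => ∏ q ∈ S, F q ((y.val : ℤ) : ZMod q) :=
      ⟨_, rfl⟩
    have hGz : ∀ z : ℤ, G (z : ZMod M) = ∏ q ∈ S, F q (z : ZMod q) := by
      intro z
      rw [hG]
      refine Finset.prod_congr rfl fun q hq => ?_
      have h1 : (((z : ZMod M).val : ℤ) : ZMod q) = (z : ZMod q) := by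
        have h2 : (q : ℤ) ∣ M := by
          rw [hM]
          exact_mod_cast Finset.dvd_prod_of_mem _ hq
        have h3 : ((((z : ZMod M).val : ℤ)) : ZMod M) = (z : ZMod M) := by
          rw [Int.cast_natCast, ZMod.natCast_zmod_val]
        have h4 := (ZMod.intCast_eq_intCast_iff_dvd_sub _ _ M).1 h3
        exact (ZMod.intCast_eq_intCast_iff_dvd_sub _ _ q).2 (h2.trans h4)
      rw [h1]
    have e := ZMod.chineseRemainder hcop
    rw [Finset.prod_insert hp, hMz]
    have hstep : ∀ z ∈ Finset.Ico A (A + (p : ℤ) * M),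
        ∏ q ∈ insert p S, F q (z : ZMod q)
          = (fun x : ZMod (p * M) => F p (e x).1 * G (e x).2) (z : ZMod (p * M)) := by
      intro z _
      have h1 : e (z : ZMod (p * M)) = (((z : ZMod p)), ((z : ZMod M))) := by
        rw [map_intCast]
        rfl
      simp only [h1, hGz, Finset.prod_insert hp]
    rw [Finset.sum_congr rfl hstep]
    have h5 := CRT_interval (p * M) A (fun x : ZMod (p * M) => F p (e x).1 * G (e x).2)
    rw [Nat.cast_mul] at h5
    rw [h5]
    have h6 : ∑ x : ZMod (p * M), F p (e x).1 * G (e x).2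
        = ∑ t : ZMod p × ZMod M, F p t.1 * G t.2 :=
      Equiv.sum_comp e.toEquiv (fun t : ZMod p × ZMod M => F p t.1 * G t.2)
    rw [h6, Fintype.sum_prod_type, ← Finset.sum_mul_sum, Finset.prod_insert hp, CRT_range]
    congr 1
    rw [← ih hS' A, hMz, ← CRT_interval M A G]
    exact Finset.sum_congr rfl fun z _ => hGz z

end Pool.Agent.Lib.MP_4b09b1_nt
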