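import Pool.Agent.Lib.MP_4b09b1_nt.Defs

/-! # CNT: integers composed of few primes -/

set_option autoImplicit false

open Finset

namespace Pool.Agent.Lib.MP_4b09b1_nt

/-! ## CNT: integers composed of few primes -/

theorem count_le (P : ℕ → Prop) (Q K R : ℕ)
    (hK : ∀ U : Finset ℕ, (∀ q ∈ U, Adm P Q q) → U.card ≤ K) (hR : Q < (R + 1) ^ 8)
    (E : Finset ℕ) (hE : ∀ n ∈ E, 1 ≤ n ∧ n ≤ Q ∧ ∀ p : ℕ, p.Prime → p ∣ n → P p) :
    E.card ≤ K ^ 3 * R := by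
  classical
  obtain ⟨U, hU⟩ : ∃ U : Finset ℕ, U = (Finset.range (Q + 1)).filter (fun q => Adm P Q q) :=
    ⟨_, rfl⟩
  have hUK : U.card ≤ K := hK U (fun q hq => by
    rw [hU, Finset.mem_filter] at hq
    exact hq.2)
  have hmem : ∀ q, Adm P Q q → q ∈ U := by
    intro q hq
    rw [hU, Finset.mem_filter, Finset.mem_range]
    exact ⟨Nat.lt_succ_of_le hq.2.1, hq⟩
  have hsub : E ⊆ (U ×ˢ U ×ˢ U ×ˢ Finset.Icc 1 R).image
      (fun t : ℕ × ℕ × ℕ × ℕ => (((t.2.2.2 ^ 2 * t.2.2.1) ^ 2 * t.2.1) ^ 2 * t.1)) := by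
    intro n hn
    obtain ⟨h1, h2, h3⟩ := hE n hn
    obtain ⟨q0, b, hb, hq0⟩ := Nat.sq_mul_squarefree n
    obtain ⟨q1, c, hc, hq1⟩ := Nat.sq_mul_squarefree b
    obtain ⟨q2, m, hm, hq2⟩ := Nat.sq_mul_squarefree c
    have hd0 : q0 ∣ n := ⟨b ^ 2, by rw [← hb]; ring⟩
    have hdb : b ∣ n := ⟨b * q0, by rw [← hb]; ring⟩
    have hd1 : q1 ∣ n := (Dvd.intro_left (c ^ 2) hc).trans hdb
    have hdc : c ∣ b := ⟨c * q1, by rw [← hc]; ring⟩
    have hd2 : q2 ∣ n := ((Dvd.intro_left (m ^ 2) hm).trans hdc).trans hdb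
    have hadm : ∀ q, q ∣ n → Squarefree q → Adm P Q q := by
      intro q hq hsq
      exact ⟨hsq, (Nat.le_of_dvd h1 hq).trans h2, fun p hp hpq => h3 p hp (hpq.trans hq)⟩
    have hn' : ((m ^ 2 * q2) ^ 2 * q1) ^ 2 * q0 = n := by rw [hm, hc, hb]
    have hm1 : 1 ≤ m := by
      rcases Nat.eq_zero_or_pos m with h | h
      · rw [h] at hn'
        simp at hn'
        omega
      · exact h
    have hmR : m ≤ R := by
      by_contra hcon
      have h4 : (R + 1) ^ 8 ≤ m ^ 8 := Nat.pow_le_pow_left (by omega) 8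
      have h5 : m ^ 8 ∣ n := ⟨q2 ^ 4 * q1 ^ 2 * q0, by rw [← hn']; ring⟩
      have h6 := Nat.le_of_dvd h1 h5
      omega
    rw [Finset.mem_image]
    refine ⟨(q0, q1, q2, m), ?_, hn'⟩
    simp only [Finset.mem_product, Finset.mem_Icc]
    exact ⟨hmem _ (hadm _ hd0 hq0), hmem _ (hadm _ hd1 hq1), hmem _ (hadm _ hd2 hq2), hm1, hmR⟩
  calc E.card ≤ (U ×ˢ U ×ˢ U ×ˢ Finset.Icc 1 R).card :=
        (Finset.card_le_card hsub).trans Finset.card_image_le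
    _ = U.card * (U.card * (U.card * R)) := by
        rw [Finset.card_product, Finset.card_product, Finset.card_product, Nat.card_Icc]
        rfl
    _ ≤ K * (K * (K * R)) :=
        Nat.mul_le_mul hUK (Nat.mul_le_mul hUK (Nat.mul_le_mul_right R hUK))
    _ = K ^ 3 * R := by ring

end Pool.Agent.Lib.MP_4b09b1_nt
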