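import Mathlib

/-!
# MP_4b09b1_nt: definitions for the theorem on sumsets with a set rich in values of a quadratic
polynomial
-/

set_option autoImplicit false

open Finset

namespace Pool.Agent.Lib.MP_4b09b1_nt

/-- the residue classes modulo `p` occupied by `X` -/
noncomputable def res (X : Finset ℤ) (p : ℕ) : Finset (ZMod p) :=
  open Classical in X.image (fun x => (x : ZMod p))

/-- the number of ordered pairs of elements of `X` which are congruent modulo `p` -/
noncomputable def pairs (X : Finset ℤ) (p : ℕ) : ℕ :=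
  open Classical in ((X ×ˢ X).filter (fun t => (p : ℤ) ∣ t.1 - t.2)).card

/-- the primes up to `y` -/
def pr (y : ℕ) : Finset ℕ := (Finset.range (y + 1)).filter Nat.Prime

/-- the primes up to `y` not dividing `2 α` -/
def prA (α : ℤ) (y : ℕ) : Finset ℕ := (pr y).filter (fun p => ¬ (p : ℤ) ∣ 2 * α)

/-- `n_b = 4 α b - Δ` with `Δ = β² - 4 α γ`; so `4 α (α x² + β x + γ + b) = (2 α x + β)² + n_b` -/
def nb (α β γ b : ℤ) : ℤ := 4 * α * b - (β ^ 2 - 4 * α * γ)

/-- the residue classes `h` modulo `p` such that `- n_h` is a nonzero square -/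
noncomputable def plusCl (α β γ : ℤ) (p : ℕ) : Set (ZMod p) :=
  {h | ∃ r : ZMod p, r ≠ 0 ∧
    r ^ 2 = -(4 * (α : ZMod p) * h - ((β : ZMod p) ^ 2 - 4 * (α : ZMod p) * (γ : ZMod p)))}

/-- the number of elements `b` of `B` for which `- n_b` is a nonzero square modulo `p` -/
noncomputable def plusB (α β γ : ℤ) (B : Finset ℤ) (p : ℕ) : ℕ :=
  open Classical in (B.filter (fun b => jacobiSym (-(nb α β γ b)) p = 1)).card

/-- `p` does not divide `2 α s` and `s` is a nonzero square modulo `p` -/
def IsSplit (α s : ℤ) (p : ℕ) : Prop := ¬ (p : ℤ) ∣ 2 * α * s ∧ jacobiSym s p = 1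

/-- a squarefree number up to `Q` all of whose prime factors satisfy `P` -/
def Adm (P : ℕ → Prop) (Q q : ℕ) : Prop :=
  Squarefree q ∧ q ≤ Q ∧ ∀ p : ℕ, p.Prime → p ∣ q → P p

end Pool.Agent.Lib.MP_4b09b1_nt
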