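import Pool.Agent.Lib.MP_4b09b1_nt.Defs
import Pool.Agent.Lib.MP_4b09b1_nt.CRT

set_option autoImplicit false

open Finset

namespace Pool.Agent.Lib.MP_4b09b1_nt

namespace ELSaux

open Classical in
/-- the balanced function of the occupied classes -/
noncomputable def G (X : Finset ℤ) (p : ℕ) (h : ZMod p) : ℝ :=
  if h ∈ res X p then Real.sqrt (((p : ℝ) - (res X p).card) / (res X p).card)
  else - Real.sqrt ((res X p).card / ((p : ℝ) - (res X p).card))

/-- the product of the balanced functions -/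
noncomputable def g (X : Finset ℤ) (q : ℕ) (z : ℤ) : ℝ :=
  ∏ p ∈ q.primeFactors, G X p (z : ZMod p)

/-- the value on `X` -/
noncomputable def H (X : Finset ℤ) (q : ℕ) : ℝ :=
  ∏ p ∈ q.primeFactors, Real.sqrt (((p : ℝ) - (res X p).card) / (res X p).card)

theorem sum_range_zmod {p : ℕ} [NeZero p] (F : ZMod p → ℝ) :
    ∑ j ∈ Finset.range p, F (j : ZMod p) = ∑ h : ZMod p, F h := by
  refine Finset.sum_bij (fun j _ => (j : ZMod p)) (fun _ _ => Finset.mem_univ _) ?_ ?_
    (fun _ _ => rfl)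
  · intro a ha b hb hab
    have ha' := Finset.mem_range.mp ha
    have hb' := Finset.mem_range.mp hb
    have h := congrArg ZMod.val hab
    rwa [ZMod.val_cast_of_lt ha', ZMod.val_cast_of_lt hb'] at h
  · intro b _
    exact ⟨b.val, Finset.mem_range.mpr (ZMod.val_lt b), by simp⟩

theorem mem_res {X : Finset ℤ} {x : ℤ} (hx : x ∈ X) (p : ℕ) : (x : ZMod p) ∈ res X p := by
  classical
  unfold res
  simp only [Finset.image_id', Finset.bind_def, Finset.pure_def, Finset.mem_sup,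
    Finset.mem_singleton]
  exact ⟨x, hx, rfl⟩

theorem res_pos {X : Finset ℤ} (hne : X.Nonempty) (p : ℕ) : 0 < (res X p).card := by
  obtain ⟨x, hx⟩ := hne
  exact Finset.card_pos.mpr ⟨(x : ZMod p), mem_res hx p⟩

theorem sum_two {p : ℕ} [NeZero p] (R : Finset (ZMod p)) [DecidablePred (· ∈ R)] (α β : ℝ) :
    ∑ h : ZMod p, (if h ∈ R then α else β) = R.card * α + ((p : ℝ) - R.card) * β := by
  rw [Finset.sum_ite]
  simp only [Finset.sum_const, nsmul_eq_mul]
  have h1 : (Finset.univ.filter (fun h => h ∈ R)) = R := by ext; simp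
  have h2 : (Finset.univ.filter (fun h => h ∉ R)).card = p - R.card := by
    have h3 : (Finset.univ.filter (fun h => h ∉ R)) = Finset.univ \ R := by ext; simp
    rw [h3, Finset.card_sdiff_of_subset (Finset.subset_univ _), Finset.card_univ, ZMod.card]
  have h4 : R.card ≤ p := by
    calc R.card ≤ (Finset.univ : Finset (ZMod p)).card := Finset.card_le_univ _
      _ = p := by rw [Finset.card_univ, ZMod.card]
  rw [h1, h2, Nat.cast_sub h4]

theorem G_sum {X : Finset ℤ} (hne : X.Nonempty) {p : ℕ} (hp : p.Prime)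
    (hmiss : (res X p).card < p) :
    ∑ j ∈ Finset.range p, G X p (j : ZMod p) = 0 := by
  classical
  have : NeZero p := ⟨hp.ne_zero⟩
  rw [sum_range_zmod]
  have h1 : (0 : ℝ) < (res X p).card := by exact_mod_cast res_pos hne p
  have h2 : (0 : ℝ) < (p : ℝ) - (res X p).card := by
    have : ((res X p).card : ℝ) < p := by exact_mod_cast hmiss
    linarith
  unfold G
  rw [sum_two]
  set ν : ℝ := ((res X p).card : ℝ)
  set μ : ℝ := (p : ℝ) - ν
  have e1 : ν * Real.sqrt (μ / ν) = Real.sqrt (ν * μ) := by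
    have : ν * μ = ν ^ 2 * (μ / ν) := by field_simp
    rw [this, Real.sqrt_mul (by positivity), Real.sqrt_sq h1.le]
  have e2 : μ * Real.sqrt (ν / μ) = Real.sqrt (ν * μ) := by
    have : ν * μ = μ ^ 2 * (ν / μ) := by field_simp
    rw [this, Real.sqrt_mul (by positivity), Real.sqrt_sq h2.le]
  rw [mul_neg, e1, e2]
  ring

theorem G_sq {X : Finset ℤ} (hne : X.Nonempty) {p : ℕ} (hp : p.Prime)
    (hmiss : (res X p).card < p) :
    ∑ j ∈ Finset.range p, G X p (j : ZMod p) ^ 2 = p := by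
  classical
  have : NeZero p := ⟨hp.ne_zero⟩
  have h0 := sum_range_zmod (p := p) (fun h => G X p h ^ 2)
  rw [h0]
  have h1 : (0 : ℝ) < (res X p).card := by exact_mod_cast res_pos hne p
  have h2 : (0 : ℝ) < (p : ℝ) - (res X p).card := by
    have : ((res X p).card : ℝ) < p := by exact_mod_cast hmiss
    linarith
  have h3 : ∀ h : ZMod p, G X p h ^ 2 = if h ∈ res X p then
      (((p : ℝ) - (res X p).card) / (res X p).card) else
      ((res X p).card / ((p : ℝ) - (res X p).card)) := by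
    intro h
    unfold G
    split_ifs
    · exact Real.sq_sqrt (by positivity)
    · rw [neg_sq]; exact Real.sq_sqrt (by positivity)
  rw [Finset.sum_congr rfl (fun h _ => h3 h), sum_two]
  field_simp
  ring

theorem G_mem {X : Finset ℤ} {x : ℤ} (hx : x ∈ X) (p : ℕ) :
    G X p (x : ZMod p) = Real.sqrt (((p : ℝ) - (res X p).card) / (res X p).card) := by
  unfold G
  rw [if_pos (mem_res hx p)]

theorem g_mem {X : Finset ℤ} {x : ℤ} (hx : x ∈ X) (q : ℕ) : g X q x = H X q := by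
  unfold g H
  exact Finset.prod_congr rfl (fun p _ => G_mem hx p)

/-- sums over `k` periods -/
theorem sum_periods (f : ℤ → ℝ) (L : ℤ) (hL : 0 ≤ L) (σ : ℝ)
    (h : ∀ A, ∑ z ∈ Finset.Ico A (A + L), f z = σ) (k : ℕ) (A : ℤ) :
    ∑ z ∈ Finset.Ico A (A + k * L), f z = k * σ := by
  induction k with
  | zero => simp
  | succ k ih =>
    have h1 : Finset.Ico A (A + ((k + 1 : ℕ) : ℤ) * L) =
        Finset.Ico A (A + k * L) ∪ Finset.Ico (A + k * L) (A + k * L + L) := by
      rw [Finset.Ico_union_Ico_eq_Ico (by nlinarith) (by linarith)]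
      congr 1
      push_cast; ring
    rw [h1, Finset.sum_union, ih, h]
    · push_cast; ring
    · exact Finset.Ico_disjoint_Ico_consecutive _ _ _

theorem prod_pf {q : ℕ} (hq : Squarefree q) : ∏ p ∈ q.primeFactors, p = q :=
  Nat.prod_primeFactors_of_squarefree hq

/-- the product over a larger set -/
theorem g_eq (X : Finset ℤ) (q : ℕ) (T : Finset ℕ) (hT : q.primeFactors ⊆ T) (z : ℤ) :
    g X q z = ∏ p ∈ T, (if p ∈ q.primeFactors then G X p (z : ZMod p) else 1) := by
  unfold g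
  rw [Finset.prod_ite_mem, Finset.inter_eq_right.mpr hT]

theorem sq_period {X : Finset ℤ} (hne : X.Nonempty) (q : ℕ)
    (hmiss : ∀ p ∈ q.primeFactors, (res X p).card < p) (T : Finset ℕ)
    (hTp : ∀ p ∈ T, p.Prime) (hT : q.primeFactors ⊆ T) (A : ℤ) :
    ∑ z ∈ Finset.Ico A (A + ∏ p ∈ T, (p : ℤ)), g X q z ^ 2 = ∏ p ∈ T, (p : ℝ) := by
  have h1 : ∀ z : ℤ, g X q z ^ 2 = ∏ p ∈ T,
      (fun (p : ℕ) (h : ZMod p) => (if p ∈ q.primeFactors then G X p h ^ 2 else (1 : ℝ))) p
        (z : ZMod p) := by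
    intro z
    rw [g_eq X q T hT, ← Finset.prod_pow]
    refine Finset.prod_congr rfl (fun p _ => ?_)
    dsimp only
    split_ifs <;> simp
  rw [Finset.sum_congr rfl (fun z _ => h1 z)]
  have h2 := sum_prod_period T hTp (fun (p : ℕ) (h : ZMod p) =>
    (if p ∈ q.primeFactors then G X p h ^ 2 else (1 : ℝ))) A
  refine h2.trans ?_
  refine Finset.prod_congr rfl (fun p hp => ?_)
  by_cases h : p ∈ q.primeFactors
  · simp only [if_pos h]
    exact G_sq hne (hTp p hp) (hmiss p h)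
  · simp only [if_neg h]
    simp

theorem cross_period {X : Finset ℤ} (hne : X.Nonempty) (q q' : ℕ)
    (hq : Squarefree q) (hq' : Squarefree q') (hqq : q ≠ q')
    (hmiss : ∀ p ∈ q.primeFactors, (res X p).card < p)
    (hmiss' : ∀ p ∈ q'.primeFactors, (res X p).card < p) (A : ℤ) :
    ∑ z ∈ Finset.Ico A (A + ∏ p ∈ q.primeFactors ∪ q'.primeFactors, (p : ℤ)),
      g X q z * g X q' z = 0 := by
  set T := q.primeFactors ∪ q'.primeFactors with hTd
  have hTp : ∀ p ∈ T, p.Prime := by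
    intro p hp
    rcases Finset.mem_union.mp hp with h | h
    · exact Nat.prime_of_mem_primeFactors h
    · exact Nat.prime_of_mem_primeFactors h
  have h1 : ∀ z : ℤ, g X q z * g X q' z = ∏ p ∈ T,
      (fun (p : ℕ) (h : ZMod p) => (if p ∈ q.primeFactors then G X p h else (1 : ℝ)) *
        (if p ∈ q'.primeFactors then G X p h else (1 : ℝ))) p (z : ZMod p) := by
    intro z
    rw [g_eq X q T Finset.subset_union_left, g_eq X q' T Finset.subset_union_right,
      ← Finset.prod_mul_distrib]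
  rw [Finset.sum_congr rfl (fun z _ => h1 z)]
  have h2 := sum_prod_period T hTp (fun (p : ℕ) (h : ZMod p) =>
    (if p ∈ q.primeFactors then G X p h else (1 : ℝ)) *
        (if p ∈ q'.primeFactors then G X p h else (1 : ℝ))) A
  refine h2.trans ?_
  have hne2 : q.primeFactors ≠ q'.primeFactors := by
    intro h
    apply hqq
    rw [← prod_pf hq, ← prod_pf hq', h]
  have : ∃ p ∈ T, (p ∈ q.primeFactors ∧ p ∉ q'.primeFactors) ∨
      (p ∉ q.primeFactors ∧ p ∈ q'.primeFactors) := by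
    by_contra hcon
    push Not at hcon
    apply hne2
    ext p
    constructor
    · intro h
      exact (hcon p (Finset.mem_union_left _ h)).1 h
    · intro h
      by_contra h2
      exact (hcon p (Finset.mem_union_right _ h)).2 h2 h
  obtain ⟨p, hp, h⟩ := this
  refine Finset.prod_eq_zero hp ?_
  rcases h with ⟨h1, h2⟩ | ⟨h1, h2⟩
  · simp only [if_pos h1, if_neg h2, mul_one]
    exact G_sum hne (hTp p hp) (hmiss p h1)
  · simp only [if_pos h2, if_neg h1, one_mul]
    exact G_sum hne (hTp p hp) (hmiss' p h2)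

theorem diag {X : Finset ℤ} (hne : X.Nonempty) (q : ℕ) (hq : Squarefree q)
    (hmiss : ∀ p ∈ q.primeFactors, (res X p).card < p) (A : ℤ) (M : ℕ) :
    ∑ z ∈ Finset.Ico A (A + M), g X q z ^ 2 ≤ M + q := by
  have hq0 : 0 < q := Nat.pos_of_ne_zero hq.ne_zero
  have hL : (∏ p ∈ q.primeFactors, (p : ℤ)) = (q : ℤ) := by
    rw [← Nat.cast_prod, prod_pf hq]
  have hLr : (∏ p ∈ q.primeFactors, (p : ℝ)) = (q : ℝ) := by
    rw [← Nat.cast_prod, prod_pf hq]
  have hper : ∀ A : ℤ, ∑ z ∈ Finset.Ico A (A + (q : ℤ)), g X q z ^ 2 = (q : ℝ) := by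
    intro A
    have := sq_period hne q hmiss q.primeFactors
      (fun p hp => Nat.prime_of_mem_primeFactors hp) (Finset.Subset.refl _) A
    rwa [hL, hLr] at this
  have h1 := sum_periods _ (q : ℤ) (by positivity) _ hper (M / q + 1) A
  have h2 : ∑ z ∈ Finset.Ico A (A + M), g X q z ^ 2 ≤
      ∑ z ∈ Finset.Ico A (A + ((M / q + 1 : ℕ) : ℤ) * q), g X q z ^ 2 := by
    refine Finset.sum_le_sum_of_subset_of_nonneg ?_ (fun _ _ _ => by positivity)
    apply Finset.Ico_subset_Ico le_rfl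
    have : (M : ℤ) ≤ ((M / q + 1 : ℕ) : ℤ) * q := by
      have h3 : M ≤ (M / q + 1) * q := by
        have := Nat.div_add_mod M q
        have h4 := Nat.mod_lt M hq0
        nlinarith
      exact_mod_cast h3
    linarith
  rw [h1] at h2
  refine h2.trans ?_
  have h3 : ((M / q : ℕ) : ℝ) * q ≤ M := by
    exact_mod_cast Nat.div_mul_le_self M q
  push_cast
  linarith

theorem offdiag {X : Finset ℤ} (hne : X.Nonempty) (q q' : ℕ) (Q : ℕ)
    (hq : Squarefree q) (hq' : Squarefree q') (hqQ : q ≤ Q) (hqQ' : q' ≤ Q) (hqq : q ≠ q')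
    (hmiss : ∀ p ∈ q.primeFactors, (res X p).card < p)
    (hmiss' : ∀ p ∈ q'.primeFactors, (res X p).card < p) (A : ℤ) (M : ℕ) :
    ∑ z ∈ Finset.Ico A (A + M), g X q z * g X q' z ≤ (Q : ℝ) ^ 2 := by
  set T := q.primeFactors ∪ q'.primeFactors with hTd
  have hTp : ∀ p ∈ T, p.Prime := by
    intro p hp
    rcases Finset.mem_union.mp hp with h | h
    · exact Nat.prime_of_mem_primeFactors h
    · exact Nat.prime_of_mem_primeFactors h
  set L : ℕ := ∏ p ∈ T, p with hLd
  have hLpos : 0 < L := Finset.prod_pos (fun p hp => (hTp p hp).pos)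
  have hLi : (∏ p ∈ T, (p : ℤ)) = (L : ℤ) := by rw [hLd]; push_cast; rfl
  have hLr : (∏ p ∈ T, (p : ℝ)) = (L : ℝ) := by rw [hLd]; push_cast; rfl
  have hLle : (L : ℝ) ≤ (Q : ℝ) ^ 2 := by
    have h1 : L ≤ q * q' := by
      have h2 : L ∣ q * q' := by
        have h3 : L * ∏ p ∈ q.primeFactors ∩ q'.primeFactors, p = q * q' := by
          rw [hLd, Finset.prod_union_inter, prod_pf hq, prod_pf hq']
        exact ⟨_, h3.symm⟩
      exact Nat.le_of_dvd (Nat.mul_pos (Nat.pos_of_ne_zero hq.ne_zero)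
        (Nat.pos_of_ne_zero hq'.ne_zero)) h2
    have h2 : q * q' ≤ Q * Q := Nat.mul_le_mul hqQ hqQ'
    have h3 : (L : ℝ) ≤ ((Q * Q : ℕ) : ℝ) := by exact_mod_cast h1.trans h2
    rw [sq]; push_cast at h3; exact h3
  have hper : ∀ A : ℤ, ∑ z ∈ Finset.Ico A (A + (L : ℤ)), g X q z * g X q' z = 0 := by
    intro A
    have := cross_period hne q q' hq hq' hqq hmiss hmiss' A
    rwa [← hTd, hLi] at this
  have h1 := sum_periods _ (L : ℤ) (by positivity) _ hper (M / L) A
  set A' : ℤ := A + ((M / L : ℕ) : ℤ) * L with hA'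
  have hdm := Nat.div_add_mod M L
  have hml := Nat.mod_lt M hLpos
  have hA1 : A ≤ A' := by rw [hA']; have : (0 : ℤ) ≤ ((M / L : ℕ) : ℤ) * L := by positivity
                          linarith
  have hdm' : (L : ℤ) * ((M / L : ℕ) : ℤ) + ((M % L : ℕ) : ℤ) = M := by exact_mod_cast hdm
  have hml' : ((M % L : ℕ) : ℤ) < L := by exact_mod_cast hml
  have hml0 : (0 : ℤ) ≤ ((M % L : ℕ) : ℤ) := by positivity
  have hA2 : A' ≤ A + M := by rw [hA']; linarith [mul_comm (L : ℤ) ((M / L : ℕ) : ℤ)]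
  have hA3 : A + M ≤ A' + L := by rw [hA']; linarith [mul_comm (L : ℤ) ((M / L : ℕ) : ℤ)]
  have h2 : ∑ z ∈ Finset.Ico A (A + M), g X q z * g X q' z =
      ∑ z ∈ Finset.Ico A A', g X q z * g X q' z +
      ∑ z ∈ Finset.Ico A' (A + M), g X q z * g X q' z := by
    rw [← Finset.Ico_union_Ico_eq_Ico hA1 hA2, Finset.sum_union]
    exact Finset.Ico_disjoint_Ico_consecutive _ _ _
  rw [h2, h1, mul_zero, zero_add]
  have h3 : ∑ z ∈ Finset.Ico A' (A + M), g X q z * g X q' z ≤
      ∑ z ∈ Finset.Ico A' (A + M), (g X q z ^ 2 + g X q' z ^ 2) / 2 := by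
    refine Finset.sum_le_sum (fun z _ => ?_)
    nlinarith [sq_nonneg (g X q z - g X q' z)]
  have h4 : ∑ z ∈ Finset.Ico A' (A + M), (g X q z ^ 2 + g X q' z ^ 2) / 2 ≤
      ∑ z ∈ Finset.Ico A' (A' + L), (g X q z ^ 2 + g X q' z ^ 2) / 2 := by
    refine Finset.sum_le_sum_of_subset_of_nonneg ?_ (fun _ _ _ => by positivity)
    exact Finset.Ico_subset_Ico le_rfl hA3
  have h5 : ∑ z ∈ Finset.Ico A' (A' + L), (g X q z ^ 2 + g X q' z ^ 2) / 2 = (L : ℝ) := by
    rw [← Finset.sum_div, Finset.sum_add_distrib]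
    have e1 := sq_period hne q hmiss T hTp Finset.subset_union_left A'
    have e2 := sq_period hne q' hmiss' T hTp Finset.subset_union_right A'
    rw [hLi, hLr] at e1 e2
    rw [e1, e2]
    ring
  linarith

end ELSaux

open ELSaux in
theorem els (X : Finset ℤ) (A : ℤ) (M : ℕ) (hX : ∀ x ∈ X, A ≤ x ∧ x < A + M) (hne : X.Nonempty)
    (Q : ℕ) (U : Finset ℕ) (hU : ∀ q ∈ U, Squarefree q ∧ q ≤ Q)
    (hmiss : ∀ q ∈ U, ∀ p ∈ q.primeFactors, (res X p).card < p) :
    (X.card : ℝ) * ∑ q ∈ U, ∏ p ∈ q.primeFactors,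
      (((p : ℝ) - (res X p).card) / (res X p).card) ≤ M + Q + U.card * (Q : ℝ) ^ 2 := by
  have hH0 : ∀ q, 0 ≤ H X q := fun q => Finset.prod_nonneg (fun p _ => Real.sqrt_nonneg _)
  have hHsq : ∀ q ∈ U, H X q ^ 2 = ∏ p ∈ q.primeFactors,
      (((p : ℝ) - (res X p).card) / (res X p).card) := by
    intro q hq
    unfold H
    rw [← Finset.prod_pow]
    refine Finset.prod_congr rfl (fun p hp => ?_)
    have h1 : (0 : ℝ) < (res X p).card := by exact_mod_cast res_pos hne p
    have h2 : (0 : ℝ) < (p : ℝ) - (res X p).card := by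
      have : ((res X p).card : ℝ) < p := by exact_mod_cast hmiss q hq p hp
      linarith
    exact Real.sq_sqrt (by positivity)
  rw [← Finset.sum_congr rfl hHsq]
  set S : ℝ := ∑ q ∈ U, H X q ^ 2 with hS
  have hS0 : 0 ≤ S := Finset.sum_nonneg (fun q _ => by positivity)
  -- lower bound
  have hlow : (X.card : ℝ) * S ^ 2 ≤
      ∑ z ∈ Finset.Ico A (A + M), (∑ q ∈ U, H X q * g X q z) ^ 2 := by
    have h1 : ∑ x ∈ X, (∑ q ∈ U, H X q * g X q x) ^ 2 ≤
        ∑ z ∈ Finset.Ico A (A + M), (∑ q ∈ U, H X q * g X q z) ^ 2 := by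
      refine Finset.sum_le_sum_of_subset_of_nonneg ?_ (fun _ _ _ => by positivity)
      intro x hx
      exact Finset.mem_Ico.mpr (hX x hx)
    have h2 : ∑ x ∈ X, (∑ q ∈ U, H X q * g X q x) ^ 2 = (X.card : ℝ) * S ^ 2 := by
      rw [Finset.sum_congr rfl (fun x hx => ?_), Finset.sum_const, nsmul_eq_mul]
      rw [Finset.sum_congr rfl (fun q _ => by rw [g_mem hx q, ← sq])]
    linarith
  -- expansion
  have hexp : ∑ z ∈ Finset.Ico A (A + M), (∑ q ∈ U, H X q * g X q z) ^ 2 =
      ∑ q ∈ U, ∑ q' ∈ U, H X q * H X q' *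
        ∑ z ∈ Finset.Ico A (A + M), g X q z * g X q' z := by
    calc ∑ z ∈ Finset.Ico A (A + M), (∑ q ∈ U, H X q * g X q z) ^ 2
        = ∑ z ∈ Finset.Ico A (A + M), ∑ q ∈ U, ∑ q' ∈ U,
            H X q * H X q' * (g X q z * g X q' z) := by
          refine Finset.sum_congr rfl (fun z _ => ?_)
          rw [sq, Finset.sum_mul_sum]
          refine Finset.sum_congr rfl (fun q _ => Finset.sum_congr rfl (fun q' _ => ?_))
          ring
      _ = ∑ q ∈ U, ∑ q' ∈ U, ∑ z ∈ Finset.Ico A (A + M),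
            H X q * H X q' * (g X q z * g X q' z) := by
          rw [Finset.sum_comm]
          refine Finset.sum_congr rfl (fun q _ => ?_)
          rw [Finset.sum_comm]
      _ = _ := by
          refine Finset.sum_congr rfl (fun q _ => Finset.sum_congr rfl (fun q' _ => ?_))
          rw [Finset.mul_sum]
  have hup : ∑ q ∈ U, ∑ q' ∈ U, H X q * H X q' *
        ∑ z ∈ Finset.Ico A (A + M), g X q z * g X q' z ≤
      ∑ q ∈ U, ∑ q' ∈ U, (H X q * H X q' * (Q : ℝ) ^ 2 +
        if q = q' then H X q ^ 2 * (M + Q) else 0) := by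
    refine Finset.sum_le_sum (fun q hq => Finset.sum_le_sum (fun q' hq' => ?_))
    by_cases h : q = q'
    · subst h
      rw [if_pos rfl]
      have h1 := diag hne q (hU q hq).1 (hmiss q hq) A M
      have h2 : (q : ℝ) ≤ Q := by exact_mod_cast (hU q hq).2
      have h3 : ∑ z ∈ Finset.Ico A (A + M), g X q z * g X q z =
          ∑ z ∈ Finset.Ico A (A + M), g X q z ^ 2 :=
        Finset.sum_congr rfl (fun z _ => by ring)
      rw [h3]
      have h4 : H X q * H X q * ∑ z ∈ Finset.Ico A (A + M), g X q z ^ 2 ≤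
          H X q * H X q * (M + Q) :=
        mul_le_mul_of_nonneg_left (by linarith) (mul_nonneg (hH0 q) (hH0 q))
      have h5 : 0 ≤ H X q * H X q * (Q : ℝ) ^ 2 :=
        mul_nonneg (mul_nonneg (hH0 q) (hH0 q)) (by positivity)
      nlinarith
    · rw [if_neg h, add_zero]
      exact mul_le_mul_of_nonneg_left
        (offdiag hne q q' Q (hU q hq).1 (hU q' hq').1 (hU q hq).2 (hU q' hq').2 h
          (hmiss q hq) (hmiss q' hq') A M) (mul_nonneg (hH0 q) (hH0 q'))
  have hcomp : ∑ q ∈ U, ∑ q' ∈ U, (H X q * H X q' * (Q : ℝ) ^ 2 +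
        if q = q' then H X q ^ 2 * (M + Q) else 0) =
      (∑ q ∈ U, H X q) ^ 2 * (Q : ℝ) ^ 2 + S * (M + Q) := by
    have e1 : ∀ q ∈ U, ∑ q' ∈ U, (H X q * H X q' * (Q : ℝ) ^ 2 +
        if q = q' then H X q ^ 2 * (M + Q) else 0) =
        H X q * ((∑ q' ∈ U, H X q') * (Q : ℝ) ^ 2) + H X q ^ 2 * (M + Q) := by
      intro q hq
      rw [Finset.sum_add_distrib, Finset.sum_ite_eq, if_pos hq, Finset.sum_mul, Finset.mul_sum]
      congr 1
      exact Finset.sum_congr rfl (fun q' _ => by ring)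
    rw [Finset.sum_congr rfl e1, Finset.sum_add_distrib, ← Finset.sum_mul, ← Finset.sum_mul]
    ring
  have hcs : (∑ q ∈ U, H X q) ^ 2 ≤ U.card * S := by
    have h := Finset.sum_mul_sq_le_sq_mul_sq U (fun _ => (1 : ℝ)) (fun q => H X q)
    simpa using h
  have hfin : (X.card : ℝ) * S ^ 2 ≤ (M + Q + U.card * (Q : ℝ) ^ 2) * S := by
    have h1 : (X.card : ℝ) * S ^ 2 ≤ (∑ q ∈ U, H X q) ^ 2 * (Q : ℝ) ^ 2 + S * (M + Q) := by
      calc (X.card : ℝ) * S ^ 2 ≤ _ := hlow
        _ = _ := hexp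
        _ ≤ _ := hup
        _ = _ := hcomp
    have h2 : (∑ q ∈ U, H X q) ^ 2 * (Q : ℝ) ^ 2 ≤ U.card * S * (Q : ℝ) ^ 2 :=
      mul_le_mul_of_nonneg_right hcs (by positivity)
    nlinarith
  rcases hS0.lt_or_eq with h | h
  · have h1 : (X.card : ℝ) * S * S ≤ (M + Q + U.card * (Q : ℝ) ^ 2) * S := by
      calc (X.card : ℝ) * S * S = (X.card : ℝ) * S ^ 2 := by ring
        _ ≤ _ := hfin
    exact le_of_mul_le_mul_right h1 h
  · rw [← h, mul_zero]
    positivity

end Pool.Agent.Lib.MP_4b09b1_nt
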