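import Pool.Agent.Lib.MP_4b09b1_nt.Cnt

/-!
# MP_4b09b1_nt: module EV (helper1)
-/

set_option autoImplicit false

open Finset

namespace Pool.Agent.Lib.MP_4b09b1_nt

namespace EVaux

theorem isSplit_of_dvd (α s : ℤ) (v : ℤ) (p : ℕ) (hp : p.Prime)
    (h : (p : ℤ) ∣ 4 * α ^ 2 * s * v ^ 2 - 1) : IsSplit α s p := by
  have : Fact p.Prime := ⟨hp⟩
  have hnd : ¬ (p : ℤ) ∣ 2 * α * s := by
    intro h1
    have h2 : (p : ℤ) ∣ 4 * α ^ 2 * s * v ^ 2 := by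
      have : 4 * α ^ 2 * s * v ^ 2 = (2 * α * s) * (2 * α * v ^ 2) := by ring
      rw [this]
      exact Dvd.dvd.mul_right h1 _
    have h3 : (p : ℤ) ∣ 1 := by
      have := dvd_sub h2 h
      simpa using this
    have h4 : (p : ℤ).natAbs ∣ 1 := by simpa using Int.natAbs_dvd_natAbs.2 h3
    simp at h4
    exact hp.one_lt.ne' h4
  refine ⟨hnd, ?_⟩
  have e1 : ((4 * α ^ 2 * s * v ^ 2 - 1 : ℤ) : ZMod p) = 0 := (ZMod.intCast_zmod_eq_zero_iff_dvd _ p).2 h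
  push_cast at e1
  have e2 : (s : ZMod p) * (2 * (α : ZMod p) * v) ^ 2 = 1 := by
    have : (s : ZMod p) * (2 * (α : ZMod p) * v) ^ 2 = 4 * (α : ZMod p) ^ 2 * s * v ^ 2 := by ring
    rw [this]
    exact sub_eq_zero.1 e1
  have hs0 : (s : ZMod p) ≠ 0 := by
    intro h1
    rw [h1, zero_mul] at e2
    exact zero_ne_one e2
  have hw0 : (2 * (α : ZMod p) * v) ≠ 0 := by
    intro h1
    rw [h1] at e2
    simp at e2
  rw [← jacobiSym.legendreSym.to_jacobiSym]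
  rw [legendreSym.eq_one_iff p hs0]
  refine ⟨(s : ZMod p) * (2 * (α : ZMod p) * v), ?_⟩
  linear_combination (-(s : ZMod p)) * e2

theorem natAbs_inj (α s : ℤ) (hα : α ≠ 0) (hs : s ≠ 0) (v v' : ℕ)
    (h : (4 * α ^ 2 * s * (v : ℤ) ^ 2 - 1).natAbs = (4 * α ^ 2 * s * (v' : ℤ) ^ 2 - 1).natAbs) :
    v = v' := by
  rcases Int.natAbs_eq_natAbs_iff.1 h with h1 | h1
  · have h2 : (4 * α ^ 2 * s) * (v : ℤ) ^ 2 = (4 * α ^ 2 * s) * (v' : ℤ) ^ 2 := by linarith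
    have h3 : (4 * α ^ 2 * s) ≠ 0 := by positivity
    have h4 := mul_left_cancel₀ h3 h2
    have h5 : (v : ℤ) = v' := by
      have := (sq_eq_sq₀ (Int.natCast_nonneg v) (Int.natCast_nonneg v')).1 h4
      exact this
    exact_mod_cast h5
  · exfalso
    have h2 : 4 * (α ^ 2 * s * ((v : ℤ) ^ 2 + (v' : ℤ) ^ 2)) = 2 := by linarith
    omega

end EVaux

theorem ev_count (α s : ℤ) (hα : α ≠ 0) (hs : s ≠ 0) (Q K R V : ℕ)
    (hK : ∀ U : Finset ℕ, (∀ q ∈ U, Adm (IsSplit α s) Q q) → U.card ≤ K) (hR : Q < (R + 1) ^ 8)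
    (hV : 4 * α ^ 2 * |s| * (V : ℤ) ^ 2 + 1 ≤ Q) : V ≤ K ^ 3 * R := by
  classical
  let E : Finset ℕ := (Finset.Icc 1 V).image fun v : ℕ =>
    (4 * α ^ 2 * s * (v : ℤ) ^ 2 - 1).natAbs
  have hEcard : E.card = V := by
    rw [Finset.card_image_of_injOn]
    · simp
    · intro v _ v' _ h
      exact EVaux.natAbs_inj α s hα hs v v' h
  have hE : E.card ≤ K ^ 3 * R := by
    refine count_le (IsSplit α s) Q K R hK hR E ?_
    intro n hn
    obtain ⟨v, hv, rfl⟩ := Finset.mem_image.1 hn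
    obtain ⟨hv1, hv2⟩ := Finset.mem_Icc.1 hv
    refine ⟨?_, ?_, ?_⟩
    · have h1 : 4 * α ^ 2 * s * (v : ℤ) ^ 2 - 1 ≠ 0 := by
        intro h
        have h2 : 4 * (α ^ 2 * s * (v : ℤ) ^ 2) = 1 := by linarith
        omega
      have := Int.natAbs_pos.2 h1
      omega
    · have h1 : ((4 * α ^ 2 * s * (v : ℤ) ^ 2 - 1).natAbs : ℤ) ≤
          4 * α ^ 2 * |s| * (V : ℤ) ^ 2 + 1 := by
        rw [Int.natCast_natAbs]
        have h2 : |4 * α ^ 2 * s * (v : ℤ) ^ 2| = 4 * α ^ 2 * |s| * (v : ℤ) ^ 2 := by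
          rw [abs_mul, abs_mul, abs_of_nonneg (by positivity : (0 : ℤ) ≤ 4 * α ^ 2),
            abs_of_nonneg (by positivity : (0 : ℤ) ≤ (v : ℤ) ^ 2)]
        have h3 : (v : ℤ) ^ 2 ≤ (V : ℤ) ^ 2 := by
          apply pow_le_pow_left₀ (Int.natCast_nonneg v)
          exact_mod_cast hv2
        calc |4 * α ^ 2 * s * (v : ℤ) ^ 2 - 1| ≤ |4 * α ^ 2 * s * (v : ℤ) ^ 2| + |1| := abs_sub _ _
          _ = 4 * α ^ 2 * |s| * (v : ℤ) ^ 2 + 1 := by rw [h2]; rfl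
          _ ≤ 4 * α ^ 2 * |s| * (V : ℤ) ^ 2 + 1 := by
            have := mul_le_mul_of_nonneg_left h3 (by positivity : (0 : ℤ) ≤ 4 * α ^ 2 * |s|)
            linarith
      exact_mod_cast h1.trans hV
    · intro p hp hpn
      apply EVaux.isSplit_of_dvd α s v p hp
      exact Int.natCast_dvd.2 hpn
  omega

end Pool.Agent.Lib.MP_4b09b1_nt
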