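import Pool.Agent.Lib.MP_4b09b1_nt.Defs

/-!
# MP_4b09b1_nt: module Geo (helper1)
-/

set_option autoImplicit false

open Finset

namespace Pool.Agent.Lib.MP_4b09b1_nt

theorem geo (α β γ : ℤ) (hα : α ≠ 0) (N : ℕ) (X : Finset ℤ) (k : ℕ) (hk : 1 ≤ k)
    (hX : k + 1 ≤ X.card)
    (h0 : ∀ x ∈ X, 0 ≤ 2 * α * x + β)
    (h1 : ∀ x ∈ X, 1 ≤ α * x ^ 2 + β * x + γ ∧ α * x ^ 2 + β * x + γ ≤ N) :
    (∀ x ∈ X, ∀ x' ∈ X, |α| * (x - x') ^ 2 ≤ N) ∧ |α| * (k : ℤ) ^ 2 ≤ N ∧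
    ∀ b : ℤ, 1 ≤ b → b ≤ N → |nb α β γ b| * (k : ℤ) ^ 2 ≤ 24 * (N : ℤ) ^ 2 := by
  -- the basic identity
  have hid : ∀ x x' : ℤ, 2 * ((α * x ^ 2 + β * x + γ) - (α * x' ^ 2 + β * x' + γ)) =
      (x - x') * ((2 * α * x + β) + (2 * α * x' + β)) := by
    intro x x'
    ring
  have hz : ∀ x ∈ X, ∀ x' ∈ X, 2 * |α| * |x - x'| ≤ (2 * α * x + β) + (2 * α * x' + β) := by
    intro x hx x' hx'
    have e1 : 2 * |α| * |x - x'| = |(2 * α * x + β) - (2 * α * x' + β)| := by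
      have : (2 * α * x + β) - (2 * α * x' + β) = 2 * α * (x - x') := by ring
      rw [this, abs_mul, abs_mul]
      norm_num
    rw [e1]
    have e2 := h0 x hx
    have e3 := h0 x' hx'
    rw [abs_le]
    constructor <;> linarith
  have hdiff : ∀ x ∈ X, ∀ x' ∈ X,
      |x - x'| * ((2 * α * x + β) + (2 * α * x' + β)) ≤ 2 * N := by
    intro x hx x' hx'
    have e1 : |x - x'| * ((2 * α * x + β) + (2 * α * x' + β)) =
        |(x - x') * ((2 * α * x + β) + (2 * α * x' + β))| := by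
      rw [abs_mul]
      congr 1
      exact (abs_of_nonneg (add_nonneg (h0 x hx) (h0 x' hx'))).symm
    rw [e1, ← hid]
    have e2 := h1 x hx
    have e3 := h1 x' hx'
    rw [abs_le]
    constructor <;> linarith [e2.1, e2.2, e3.1, e3.2]
  have hA : ∀ x ∈ X, ∀ x' ∈ X, |α| * (x - x') ^ 2 ≤ N := by
    intro x hx x' hx'
    have e1 := hz x hx x' hx'
    have e2 := hdiff x hx x' hx'
    have e3 : 2 * (|α| * (x - x') ^ 2) = |x - x'| * (2 * |α| * |x - x'|) := by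
      rw [← sq_abs (x - x')]
      ring
    have e4 := mul_le_mul_of_nonneg_left e1 (abs_nonneg (x - x'))
    linarith
  -- two elements at distance at least `k`
  have hne : X.Nonempty := Finset.card_pos.1 (by omega)
  have hsub : X ⊆ Finset.Icc (X.min' hne) (X.max' hne) := by
    intro x hx
    exact Finset.mem_Icc.2 ⟨X.min'_le x hx, X.le_max' x hx⟩
  have hcard := Finset.card_le_card hsub
  rw [Int.card_Icc] at hcard
  set x₀ := X.min' hne with hx₀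
  set x₁ := X.max' hne with hx₁
  have hm0 : x₀ ∈ X := X.min'_mem hne
  have hm1 : x₁ ∈ X := X.max'_mem hne
  have hk1 : (k : ℤ) ≤ x₁ - x₀ := by omega
  have hk0 : (1 : ℤ) ≤ k := by exact_mod_cast hk
  have hN0 : (0 : ℤ) ≤ N := Int.natCast_nonneg N
  have hB : |α| * (k : ℤ) ^ 2 ≤ N := by
    have e1 := hA x₁ hm1 x₀ hm0
    have e2 : (k : ℤ) ^ 2 ≤ (x₁ - x₀) ^ 2 := by nlinarith
    exact le_trans (mul_le_mul_of_nonneg_left e2 (abs_nonneg α)) e1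
  refine ⟨hA, hB, ?_⟩
  intro b hb1 hbN
  set z := 2 * α * x₁ + β with hzdef
  have hz0 : 0 ≤ z := h0 x₁ hm1
  have hz1 : 0 ≤ 2 * α * x₀ + β := h0 x₀ hm0
  have hkz : (k : ℤ) * z ≤ 2 * N := by
    have e1 := hdiff x₁ hm1 x₀ hm0
    rw [abs_of_nonneg (by linarith : (0 : ℤ) ≤ x₁ - x₀)] at e1
    have e2 : (k : ℤ) * z ≤ (x₁ - x₀) * (z + (2 * α * x₀ + β)) := by
      apply mul_le_mul hk1 (by linarith) hz0 (by linarith)
    linarith
  have hkz0 : 0 ≤ (k : ℤ) * z := mul_nonneg (by linarith) hz0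
  obtain ⟨ht1, ht2⟩ := h1 x₁ hm1
  set t := α * x₁ ^ 2 + β * x₁ + γ with htdef
  have hnb : nb α β γ b = 4 * α * (t + b) - z ^ 2 := by
    unfold nb
    rw [htdef, hzdef]
    ring
  have e1 : |nb α β γ b| ≤ 4 * |α| * (2 * N) + z ^ 2 := by
    rw [hnb]
    have e2 : |4 * α * (t + b)| ≤ 4 * |α| * (2 * N) := by
      rw [abs_mul, abs_mul]
      have e3 : |(4 : ℤ)| = 4 := rfl
      rw [e3]
      apply mul_le_mul_of_nonneg_left _ (by positivity)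
      rw [abs_le]
      constructor <;> linarith
    have e4 : |z ^ 2| = z ^ 2 := abs_of_nonneg (sq_nonneg z)
    calc |4 * α * (t + b) - z ^ 2| ≤ |4 * α * (t + b)| + |z ^ 2| := abs_sub _ _
      _ ≤ _ := by rw [e4]; linarith
  have e5 : |nb α β γ b| * (k : ℤ) ^ 2 ≤ (4 * |α| * (2 * N) + z ^ 2) * (k : ℤ) ^ 2 :=
    mul_le_mul_of_nonneg_right e1 (sq_nonneg _)
  have e6 : (4 * |α| * (2 * N) + z ^ 2) * (k : ℤ) ^ 2 =
      8 * N * (|α| * (k : ℤ) ^ 2) + ((k : ℤ) * z) ^ 2 := by ring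
  have e7 : 8 * (N : ℤ) * (|α| * (k : ℤ) ^ 2) ≤ 8 * N * N :=
    mul_le_mul_of_nonneg_left hB (by linarith)
  have e8 : ((k : ℤ) * z) ^ 2 ≤ (2 * N) ^ 2 := by
    apply pow_le_pow_left₀ hkz0 hkz
  nlinarith

end Pool.Agent.Lib.MP_4b09b1_nt
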