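import Pool.Agent.Lib.MP_4b09b1_nt.Defs

/-! # HALF: half of the elements of B -/

set_option autoImplicit false

open Finset

namespace Pool.Agent.Lib.MP_4b09b1_nt

private theorem Half_logsum (S : Finset ℕ) (hS : ∀ p ∈ S, p.Prime) (n : ℤ) (hn : n ≠ 0)
    (hd : ∀ p ∈ S, (p : ℤ) ∣ n) : ∑ p ∈ S, Real.log p ≤ Real.log |(n : ℝ)| := by
  have h1 : ∏ p ∈ S, p ∣ n.natAbs := by
    apply Finset.prod_primes_dvd
    · intro p hp
      exact (hS p hp).prime
    · intro p hp
      exact Int.natCast_dvd.1 (hd p hp)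
  have h2 : ∏ p ∈ S, p ≤ n.natAbs := Nat.le_of_dvd (Int.natAbs_pos.2 hn) h1
  have h3 : Real.log (∏ p ∈ S, (p : ℝ)) = ∑ p ∈ S, Real.log p :=
    Real.log_prod fun p hp => by exact_mod_cast (hS p hp).ne_zero
  rw [← h3]
  apply Real.log_le_log
  · exact Finset.prod_pos fun p hp => by exact_mod_cast (hS p hp).pos
  · have h4 : ((∏ p ∈ S, p : ℕ) : ℝ) ≤ (n.natAbs : ℝ) := by exact_mod_cast h2
    rw [Nat.cast_prod, Nat.cast_natAbs, Int.cast_abs] at h4
    exact h4

/-! ## HALF: half of the elements of B -/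

theorem half (α β γ : ℤ) (hα : α ≠ 0) (B : Finset ℤ) (hB : B.Nonempty) (W : Finset ℕ) (P1 : ℕ) (hP1 : 2 ≤ P1)
    (hW : ∀ p ∈ W, p.Prime ∧ P1 < p) (T : ℝ) (hT : ∀ b ∈ B, |(nb α β γ b : ℝ)| ≤ T)
    (τ : ℝ) (hτ : ∑ p ∈ W, Real.log p / p * (plusB α β γ B p / B.card) ≤ τ) :
    ∃ B' ⊆ B, B.card ≤ 2 * B'.card + 2 ∧ ∀ b ∈ B', nb α β γ b ≠ 0 ∧
      ∑ p ∈ W, Real.log p / p * (jacobiSym (-(nb α β γ b)) p : ℝ) ≤
        4 * τ - ∑ p ∈ W, Real.log p / p + Real.log T / P1 := by
  classical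
  have hw0 : ∀ p ∈ W, 0 ≤ Real.log p / p := by
    intro p hp
    have h1 : (1 : ℝ) ≤ p := by exact_mod_cast (hW p hp).1.one_lt.le
    exact div_nonneg (Real.log_nonneg h1) (by linarith)
  have hBc : (0 : ℝ) < B.card := by exact_mod_cast Finset.card_pos.2 hB
  -- the sum over the primes with symbol `1`
  obtain ⟨Pp, hPp⟩ : ∃ Pp : ℤ → ℝ, Pp = fun b =>
      ∑ p ∈ W.filter (fun p => jacobiSym (-(nb α β γ b)) p = 1), Real.log p / p := ⟨_, rfl⟩
  have hPp0 : ∀ b, 0 ≤ Pp b := by
    intro b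
    rw [hPp]
    exact Finset.sum_nonneg fun p hp => hw0 p (Finset.mem_filter.1 hp).1
  have hτ0 : 0 ≤ τ := by
    refine le_trans ?_ hτ
    exact Finset.sum_nonneg fun p hp => mul_nonneg (hw0 p hp) (by positivity)
  have hsum : ∑ b ∈ B, Pp b ≤ τ * B.card := by
    have h1 : ∑ b ∈ B, Pp b = ∑ p ∈ W, Real.log p / p * (plusB α β γ B p : ℝ) := by
      rw [hPp]
      simp only [Finset.sum_filter]
      rw [Finset.sum_comm]
      refine Finset.sum_congr rfl fun p _ => ?_
      rw [← Finset.sum_filter, Finset.sum_const, nsmul_eq_mul, mul_comm]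
      unfold plusB
      congr 3
    rw [h1]
    have h2 : ∑ p ∈ W, Real.log p / p * (plusB α β γ B p : ℝ)
        = (∑ p ∈ W, Real.log p / p * (plusB α β γ B p / B.card)) * B.card := by
      rw [Finset.sum_mul]
      refine Finset.sum_congr rfl fun p _ => ?_
      field_simp
    rw [h2]
    exact mul_le_mul_of_nonneg_right hτ hBc.le
  -- the exceptional elements
  obtain ⟨E1, hE1⟩ : ∃ E1, E1 = B.filter (fun b => 2 * τ < Pp b) := ⟨_, rfl⟩
  obtain ⟨E2, hE2⟩ : ∃ E2, E2 = B.filter (fun b => nb α β γ b = 0) := ⟨_, rfl⟩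
  have hE1c : 2 * E1.card ≤ B.card := by
    by_contra hcon
    have h1 : (B.card : ℝ) < 2 * E1.card := by exact_mod_cast not_le.1 hcon
    have hne : E1.Nonempty := by
      rw [← Finset.card_pos]
      by_contra h
      have h2 : E1.card = 0 := by omega
      rw [h2] at h1
      norm_num at h1
      linarith
    have h2 : ∑ b ∈ E1, (2 * τ) < ∑ b ∈ E1, Pp b := by
      apply Finset.sum_lt_sum_of_nonempty hne
      intro b hb
      rw [hE1, Finset.mem_filter] at hb
      exact hb.2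
    have h3 : ∑ b ∈ E1, Pp b ≤ ∑ b ∈ B, Pp b := by
      apply Finset.sum_le_sum_of_subset_of_nonneg
      · rw [hE1]
        exact Finset.filter_subset _ _
      · intro b _ _
        exact hPp0 b
    rw [Finset.sum_const, nsmul_eq_mul] at h2
    nlinarith
  have hE2c : E2.card ≤ 1 := by
    rw [Finset.card_le_one]
    intro a ha b hb
    rw [hE2, Finset.mem_filter] at ha hb
    have h1 : nb α β γ a = nb α β γ b := by rw [ha.2, hb.2]
    unfold nb at h1
    have h2 : 4 * α * a = 4 * α * b := by linarith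
    exact mul_left_cancel₀ (mul_ne_zero (by norm_num) hα) h2
  refine ⟨B \ (E1 ∪ E2), Finset.sdiff_subset, ?_, ?_⟩
  · have h1 : B.card ≤ (B \ (E1 ∪ E2)).card + (E1 ∪ E2).card := by
      have := Finset.card_le_card (show B ⊆ (B \ (E1 ∪ E2)) ∪ (E1 ∪ E2) by
        intro x hx
        by_cases h : x ∈ E1 ∪ E2
        · exact Finset.mem_union_right _ h
        · exact Finset.mem_union_left _ (Finset.mem_sdiff.2 ⟨hx, h⟩))
      exact this.trans (Finset.card_union_le _ _)
    have h2 := Finset.card_union_le E1 E2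
    omega
  · intro b hb
    rw [Finset.mem_sdiff, Finset.mem_union, not_or] at hb
    obtain ⟨hbB, hb1, hb2⟩ := hb
    have hb1' : Pp b ≤ 2 * τ := by
      by_contra h
      exact hb1 (by rw [hE1, Finset.mem_filter]; exact ⟨hbB, not_le.1 h⟩)
    have hb2' : nb α β γ b ≠ 0 := by
      intro h
      exact hb2 (by rw [hE2, Finset.mem_filter]; exact ⟨hbB, h⟩)
    refine ⟨hb2', ?_⟩
    -- the primes with symbol `0`
    obtain ⟨S0, hS0⟩ : ∃ S0, S0 = W.filter (fun p => jacobiSym (-(nb α β γ b)) p = 0) := ⟨_, rfl⟩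
    have hP0 : ∑ p ∈ S0, Real.log p / p ≤ Real.log T / P1 := by
      have hP1' : (0 : ℝ) < P1 := by exact_mod_cast (by omega : 0 < P1)
      have hS0p : ∀ p ∈ S0, p ∈ W ∧ (p : ℤ) ∣ nb α β γ b := by
        intro p hp
        rw [hS0, Finset.mem_filter] at hp
        refine ⟨hp.1, ?_⟩
        have hpp := (hW p hp.1).1
        haveI : NeZero p := ⟨hpp.ne_zero⟩
        have h1 := jacobiSym.eq_zero_iff_not_coprime.1 hp.2
        by_contra hnd
        apply h1
        rw [Int.gcd_comm, ← Int.isCoprime_iff_gcd_eq_one]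
        refine (Nat.prime_iff_prime_int.1 hpp).coprime_iff_not_dvd.2 ?_
        rw [Int.dvd_neg]
        exact hnd
      have h2 : ∑ p ∈ S0, Real.log p / p ≤ ∑ p ∈ S0, Real.log p / P1 := by
        refine Finset.sum_le_sum fun p hp => ?_
        have hpW := (hS0p p hp).1
        have h3 : (P1 : ℝ) ≤ p := by exact_mod_cast (hW p hpW).2.le
        have h4 : (1 : ℝ) ≤ p := by exact_mod_cast (hW p hpW).1.one_lt.le
        exact div_le_div_of_nonneg_left (Real.log_nonneg h4) hP1' h3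
      refine h2.trans ?_
      rw [← Finset.sum_div]
      apply div_le_div_of_nonneg_right _ hP1'.le
      refine (Half_logsum S0 (fun p hp => (hW p (hS0p p hp).1).1) _ hb2'
        fun p hp => (hS0p p hp).2).trans ?_
      exact Real.log_le_log (abs_pos.2 (by exact_mod_cast hb2')) (hT b hbB)
    have hkey : ∑ p ∈ W, Real.log p / p * (jacobiSym (-(nb α β γ b)) p : ℝ)
        = 2 * Pp b - ∑ p ∈ W, Real.log p / p + ∑ p ∈ S0, Real.log p / p := by
      rw [hPp, hS0]
      simp only [Finset.sum_filter]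
      rw [Finset.mul_sum, ← Finset.sum_sub_distrib, ← Finset.sum_add_distrib]
      refine Finset.sum_congr rfl fun p _ => ?_
      rcases jacobiSym.trichotomy (-(nb α β γ b)) p with h | h | h
      · rw [h]
        norm_num
      · rw [h]
        norm_num
        ring
      · rw [h]
        norm_num
    rw [hkey]
    linarith

end Pool.Agent.Lib.MP_4b09b1_nt
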