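import Pool.Agent.Lib.MP_4b09b1_nt.Jac

set_option autoImplicit false

open Finset

namespace Pool.Agent.Lib.MP_4b09b1_nt

namespace MVaux

lemma jac_prod (a : ℤ) {ι : Type*} (s : Finset ι) (t : ι → ℕ) (ht : ∀ i ∈ s, t i ≠ 0) :
    jacobiSym a (∏ i ∈ s, t i) = ∏ i ∈ s, jacobiSym a (t i) := by
  classical
  induction s using Finset.induction_on with
  | empty => simp
  | insert i s hi ih =>
    rw [Finset.prod_insert hi, Finset.prod_insert hi,
      jacobiSym.mul_right' a (ht i (Finset.mem_insert_self _ _)), ih]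
    · intro j hj
      exact ht j (Finset.mem_insert_of_mem hj)
    · rw [Finset.prod_ne_zero_iff]
      intro j hj
      exact ht j (Finset.mem_insert_of_mem hj)

/-- every number is the product of at most `k!` tuples of primes -/
lemma fiber_le (W : Finset ℕ) (hW : ∀ p ∈ W, p.Prime) (k q : ℕ) :
    ((Fintype.piFinset (fun _ : Fin k => W)).filter (fun t => ∏ i, t i = q)).card
      ≤ k.factorial := by
  classical
  rcases ((Fintype.piFinset (fun _ : Fin k => W)).filter (fun t => ∏ i, t i = q)).eq_empty_or_nonempty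
    with h | ⟨t0, ht0⟩
  · rw [h]
    simp
  have hperm : ∀ t ∈ (Fintype.piFinset (fun _ : Fin k => W)).filter (fun t => ∏ i, t i = q),
      (List.ofFn t).Perm (Nat.primeFactorsList q) := by
    intro t ht
    obtain ⟨h1, h2⟩ := Finset.mem_filter.mp ht
    rw [Fintype.mem_piFinset] at h1
    apply Nat.primeFactorsList_unique
    · rw [List.prod_ofFn]
      exact h2
    · intro p hp
      rw [List.mem_ofFn] at hp
      obtain ⟨i, rfl⟩ := hp
      exact hW _ (h1 i)
  have hlen : (Nat.primeFactorsList q).length = k := by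
    have := (hperm t0 ht0).length_eq
    rw [List.length_ofFn] at this
    exact this.symm
  have h1 : ((Fintype.piFinset (fun _ : Fin k => W)).filter (fun t => ∏ i, t i = q)).card
      ≤ ((Nat.primeFactorsList q).permutations.toFinset).card := by
    apply Finset.card_le_card_of_injOn (fun t => List.ofFn t)
    · intro t ht
      rw [Finset.mem_coe, List.mem_toFinset, List.mem_permutations]
      exact hperm t ht
    · intro t _ t' _ h
      exact List.ofFn_injective h
  have h2 := List.toFinset_card_le (Nat.primeFactorsList q).permutations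
  rw [List.length_permutations, hlen] at h2
  exact h1.trans h2

lemma harm (a b : ℕ) : ∑ q ∈ Finset.Ioc a b, (1 : ℝ) / q ≤ 1 + Real.log b := by
  have h1 := harmonic_le_one_add_log b
  have h2 : ((harmonic b : ℚ) : ℝ) = ∑ q ∈ Finset.Ioc 0 b, (1 : ℝ) / q := by
    unfold harmonic
    push_cast
    rw [Finset.sum_bij (fun i _ => i + 1)]
    · intro i hi
      rw [Finset.mem_Ioc]
      have := Finset.mem_range.1 hi
      omega
    · intro i _ j _ h
      omega
    · intro q hq
      rw [Finset.mem_Ioc] at hq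
      exact ⟨q - 1, by rw [Finset.mem_range]; omega, by omega⟩
    · intro i _
      push_cast
      rw [one_div]
  rw [h2] at h1
  refine le_trans (Finset.sum_le_sum_of_subset_of_nonneg ?_ ?_) h1
  · exact Finset.Ioc_subset_Ioc (Nat.zero_le _) le_rfl
  · intro q _ _
    positivity

end MVaux

open MVaux in
theorem char_count (S : Finset ℤ) (hS0 : ∀ n ∈ S, n ≠ 0)
    (hns : ∀ n ∈ S, ∀ n' ∈ S, n ≠ n' → ¬ IsSquare (n * n')) (T : ℝ)
    (hT : ∀ n ∈ S, |(n : ℝ)| ≤ T) (W : Finset ℕ) (P1 P2 : ℕ) (hP1 : 2 ≤ P1)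
    (hW : ∀ p ∈ W, p.Prime ∧ P1 < p ∧ p ≤ P2) (k : ℕ) (hk : 1 ≤ k) (L : ℝ) (hL : 0 < L)
    (hL2 : Real.log P2 ≤ L) (c : ℝ) (hc : 0 < c)
    (hSc : ∀ n ∈ S, ∑ p ∈ W, Real.log p / p * (jacobiSym n p : ℝ) ≤ -(c * L)) :
    c ^ (2 * k) * (S.card : ℝ) ^ 2 ≤ (k.factorial : ℝ) * ((∑ p ∈ W, Real.log p / p) / L) ^ k *
      (S.card * (1 + k * Real.log P2) + (S.card : ℝ) ^ 2 * (8 * T ^ 2 / P1 ^ k)) := by
  classical
  obtain ⟨w, hw⟩ : ∃ w : ℕ → ℝ, w = fun p : ℕ => Real.log p / p / L := ⟨_, rfl⟩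
  have hw0 : ∀ p ∈ W, 0 ≤ w p := by
    intro p hp
    rw [hw]
    have h1 := (hW p hp).1.one_lt
    have h2 : 0 ≤ Real.log p := Real.log_nonneg (by exact_mod_cast h1.le)
    positivity
  have hw1 : ∀ p ∈ W, w p ≤ 1 / p := by
    intro p hp
    rw [hw]
    obtain ⟨h1, h2, h3⟩ := hW p hp
    have hp0 : (0 : ℝ) < p := by exact_mod_cast h1.pos
    have h4 : Real.log p ≤ L := (Real.log_le_log hp0 (by exact_mod_cast h3)).trans hL2
    dsimp only
    rw [div_div, div_le_div_iff₀ (mul_pos hp0 hL) hp0]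
    nlinarith
  have hsumw : ∑ p ∈ W, w p = (∑ p ∈ W, Real.log p / p) / L := by
    rw [Finset.sum_div, hw]
  -- the tuples
  obtain ⟨P, hP⟩ : ∃ P, P = Fintype.piFinset (fun _ : Fin k => W) := ⟨_, rfl⟩
  have hPm : ∀ t ∈ P, ∀ i, t i ∈ W := by
    intro t ht i
    rw [hP, Fintype.mem_piFinset] at ht
    exact ht i
  obtain ⟨wt, hwt⟩ : ∃ wt : (Fin k → ℕ) → ℝ, wt = fun t => ∏ i, w (t i) := ⟨_, rfl⟩
  obtain ⟨J, hJ⟩ : ∃ J : ℕ → ℝ, J = fun q => ∑ n ∈ S, (jacobiSym n q : ℝ) := ⟨_, rfl⟩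
  have hwt0 : ∀ t ∈ P, 0 ≤ wt t := by
    intro t ht
    rw [hwt]
    exact Finset.prod_nonneg fun i _ => hw0 _ (hPm t ht i)
  have hwtq : ∀ t ∈ P, wt t ≤ 1 / ((∏ i, t i : ℕ) : ℝ) := by
    intro t ht
    rw [hwt]
    push_cast
    rw [one_div, ← Finset.prod_inv_distrib]
    apply Finset.prod_le_prod
    · intro i _
      exact hw0 _ (hPm t ht i)
    · intro i _
      rw [← one_div]
      exact hw1 _ (hPm t ht i)
  have hwts : ∑ t ∈ P, wt t = ((∑ p ∈ W, Real.log p / p) / L) ^ k := by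
    rw [← hsumw, hP, hwt]
    have := Finset.prod_univ_sum (fun _ : Fin k => W) (fun _ p => w p)
    rw [← this, Finset.prod_const, Finset.card_univ, Fintype.card_fin]
  -- expansion of the power
  have hexp : ∀ n ∈ S, (∑ p ∈ W, w p * (jacobiSym n p : ℝ)) ^ k
      = ∑ t ∈ P, wt t * (jacobiSym n (∏ i, t i) : ℝ) := by
    intro n _
    have := Finset.prod_univ_sum (fun _ : Fin k => W) (fun _ p => w p * (jacobiSym n p : ℝ))
    rw [Finset.prod_const, Finset.card_univ, Fintype.card_fin] at this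
    rw [this, ← hP]
    apply Finset.sum_congr rfl
    intro t ht
    rw [Finset.prod_mul_distrib, hwt, jac_prod n Finset.univ t (fun i _ =>
      (hW _ (hPm t ht i)).1.ne_zero)]
    push_cast
    rfl
  have hsum : ∑ n ∈ S, (∑ p ∈ W, w p * (jacobiSym n p : ℝ)) ^ k
      = ∑ t ∈ P, wt t * J (∏ i, t i) := by
    rw [Finset.sum_congr rfl hexp, Finset.sum_comm]
    apply Finset.sum_congr rfl
    intro t _
    rw [hJ, Finset.mul_sum]
  -- the lower bound
  have hlow : (S.card : ℝ) * c ^ k ≤ |∑ n ∈ S, (∑ p ∈ W, w p * (jacobiSym n p : ℝ)) ^ k| := by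
    have h1 : ∀ n ∈ S, c ^ k ≤ (-1) ^ k * (∑ p ∈ W, w p * (jacobiSym n p : ℝ)) ^ k := by
      intro n hn
      rw [← mul_pow]
      apply pow_le_pow_left₀ hc.le
      have h2 := hSc n hn
      have h3 : ∑ p ∈ W, w p * (jacobiSym n p : ℝ)
          = (∑ p ∈ W, Real.log p / p * (jacobiSym n p : ℝ)) / L := by
        rw [Finset.sum_div, hw]
        apply Finset.sum_congr rfl
        intro p _
        ring
      rw [h3]
      have h4 : (∑ p ∈ W, Real.log p / p * (jacobiSym n p : ℝ)) / L ≤ -c := by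
        rw [div_le_iff₀ hL]
        linarith
      linarith
    have h2 := Finset.card_nsmul_le_sum S _ _ h1
    rw [nsmul_eq_mul, ← Finset.mul_sum] at h2
    refine h2.trans ((le_abs_self _).trans ?_)
    rw [abs_mul, abs_pow, abs_neg, abs_one, one_pow, one_mul]
  -- Cauchy-Schwarz
  have hcs : (∑ t ∈ P, wt t * J (∏ i, t i)) ^ 2
      ≤ (∑ t ∈ P, wt t) * ∑ t ∈ P, wt t * J (∏ i, t i) ^ 2 := by
    apply Finset.sum_sq_le_sum_mul_sum_of_sq_le_mul
    · exact hwt0
    · intro t ht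
      exact mul_nonneg (hwt0 t ht) (sq_nonneg _)
    · intro t _
      apply le_of_eq
      ring
  -- passing to the products
  obtain ⟨R, hR⟩ : ∃ R, R = (Finset.Ioc (P1 ^ k) (P2 ^ k)).filter Odd := ⟨_, rfl⟩
  have hmaps : ∀ t ∈ P, ∏ i, t i ∈ R := by
    intro t ht
    rw [hR, Finset.mem_filter, Finset.mem_Ioc]
    refine ⟨⟨?_, ?_⟩, ?_⟩
    · have h1 : (P1 + 1) ^ k ≤ ∏ i, t i := by
        have := Finset.pow_card_le_prod (s := (Finset.univ : Finset (Fin k))) (f := t) (n := P1 + 1)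
          (fun i _ => (hW _ (hPm t ht i)).2.1)
        rwa [Finset.card_univ, Fintype.card_fin] at this
      have h2 : P1 ^ k < (P1 + 1) ^ k := Nat.pow_lt_pow_left (Nat.lt_succ_self _) (by omega)
      omega
    · have := Finset.prod_le_pow_card (s := (Finset.univ : Finset (Fin k))) (f := t) (n := P2)
          (fun i _ => (hW _ (hPm t ht i)).2.2)
      rwa [Finset.card_univ, Fintype.card_fin] at this
    · rw [← Nat.not_even_iff_odd, even_iff_two_dvd, (Nat.prime_two.prime).dvd_finsetProd_iff]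
      rintro ⟨i, _, h⟩
      obtain ⟨h1, h2, _⟩ := hW _ (hPm t ht i)
      have := (Nat.prime_dvd_prime_iff_eq Nat.prime_two h1).1 h
      omega
  have hpush : ∑ t ∈ P, wt t * J (∏ i, t i) ^ 2
      ≤ (k.factorial : ℝ) * ∑ q ∈ R, J q ^ 2 / q := by
    have h1 : ∑ t ∈ P, wt t * J (∏ i, t i) ^ 2
        ≤ ∑ t ∈ P, J (∏ i, t i) ^ 2 / ((∏ i, t i : ℕ) : ℝ) := by
      apply Finset.sum_le_sum
      intro t ht
      have := mul_le_mul_of_nonneg_right (hwtq t ht) (sq_nonneg (J (∏ i, t i)))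
      rwa [one_div_mul_eq_div] at this
    refine h1.trans ?_
    rw [← Finset.sum_fiberwise_of_maps_to hmaps, Finset.mul_sum]
    apply Finset.sum_le_sum
    intro q _
    have h2 : ∑ t ∈ P with ∏ i, t i = q, J (∏ i, t i) ^ 2 / ((∏ i, t i : ℕ) : ℝ)
        = ∑ t ∈ P with ∏ i, t i = q, J q ^ 2 / (q : ℝ) := by
      apply Finset.sum_congr rfl
      intro t ht
      rw [(Finset.mem_filter.mp ht).2]
    rw [h2, Finset.sum_const, nsmul_eq_mul]
    have h3 := fiber_le W (fun p hp => (hW p hp).1) k q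
    rw [← hP] at h3
    apply mul_le_mul_of_nonneg_right (by exact_mod_cast h3)
    positivity
  -- the mean value
  have hmean : ∑ q ∈ R, J q ^ 2 / q
      ≤ S.card * (1 + k * Real.log P2) + (S.card : ℝ) ^ 2 * (8 * T ^ 2 / P1 ^ k) := by
    have h1 : ∑ q ∈ R, J q ^ 2 / q
        = ∑ n ∈ S, ∑ n' ∈ S, ∑ q ∈ R, (jacobiSym (n * n') q : ℝ) / q := by
      have h2 : ∀ q ∈ R, J q ^ 2 / q = ∑ n ∈ S, ∑ n' ∈ S, (jacobiSym (n * n') q : ℝ) / q := by
        intro q _
        rw [hJ, sq, Finset.sum_mul_sum, Finset.sum_div]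
        apply Finset.sum_congr rfl
        intro n _
        rw [Finset.sum_div]
        apply Finset.sum_congr rfl
        intro n' _
        rw [jacobiSym.mul_left]
        push_cast
        rfl
      rw [Finset.sum_congr rfl h2, Finset.sum_comm]
      apply Finset.sum_congr rfl
      intro n _
      rw [Finset.sum_comm]
    rw [h1]
    have hP1k : (0 : ℝ) < (P1 : ℝ) ^ k := by
      have : (0 : ℝ) < P1 := by exact_mod_cast (by omega : 0 < P1)
      positivity
    have h3 : ∀ n ∈ S, ∑ n' ∈ S, ∑ q ∈ R, (jacobiSym (n * n') q : ℝ) / q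
        ≤ (1 + k * Real.log P2) + S.card * (8 * T ^ 2 / P1 ^ k) := by
      intro n hn
      rw [← Finset.add_sum_erase S _ hn]
      apply add_le_add
      · have h4 : ∑ q ∈ R, (jacobiSym (n * n) q : ℝ) / q ≤ ∑ q ∈ R, (1 : ℝ) / q := by
          apply Finset.sum_le_sum
          intro q _
          apply div_le_div_of_nonneg_right _ (Nat.cast_nonneg q)
          rcases jacobiSym.trichotomy (n * n) q with h | h | h <;> rw [h] <;> norm_num
        have h5 : ∑ q ∈ R, (1 : ℝ) / q ≤ ∑ q ∈ Finset.Ioc (P1 ^ k) (P2 ^ k), (1 : ℝ) / q := by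
          rw [hR]
          apply Finset.sum_le_sum_of_subset_of_nonneg (Finset.filter_subset _ _)
          intro q _ _
          positivity
        have h6 := harm (P1 ^ k) (P2 ^ k)
        push_cast at h6
        rw [Real.log_pow] at h6
        linarith
      · have h4 : ∀ n' ∈ S.erase n, ∑ q ∈ R, (jacobiSym (n * n') q : ℝ) / q
            ≤ 8 * T ^ 2 / P1 ^ k := by
          intro n' hn'
          obtain ⟨hne, hn'S⟩ := Finset.mem_erase.mp hn'
          have h5 := jacobi_sum (n * n') (mul_ne_zero (hS0 n hn) (hS0 n' hn'S))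
            (hns n hn n' hn'S hne.symm) (P1 ^ k) (P2 ^ k) (Nat.one_le_pow _ _ (by omega))
          rw [hR]
          refine (le_abs_self _).trans (h5.trans ?_)
          push_cast
          apply div_le_div_of_nonneg_right _ hP1k.le
          rw [abs_mul]
          have h6 := mul_le_mul (hT n hn) (hT n' hn'S) (abs_nonneg _)
            ((abs_nonneg _).trans (hT n hn))
          nlinarith
        have h5 := Finset.sum_le_card_nsmul (S.erase n) _ _ h4
        rw [nsmul_eq_mul] at h5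
        refine h5.trans ?_
        apply mul_le_mul_of_nonneg_right _ (by positivity)
        exact_mod_cast Finset.card_le_card (Finset.erase_subset n S)
    have h4 := Finset.sum_le_card_nsmul S _ _ h3
    rw [nsmul_eq_mul] at h4
    refine h4.trans (le_of_eq ?_)
    ring
  -- conclusion
  have h1 : ((S.card : ℝ) * c ^ k) ^ 2 ≤ (∑ t ∈ P, wt t * J (∏ i, t i)) ^ 2 := by
    rw [hsum] at hlow
    rw [← sq_abs (∑ t ∈ P, wt t * J (∏ i, t i))]
    exact pow_le_pow_left₀ (by positivity) hlow 2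
  have h2 : 0 ≤ ∑ t ∈ P, wt t := Finset.sum_nonneg hwt0
  calc c ^ (2 * k) * (S.card : ℝ) ^ 2 = ((S.card : ℝ) * c ^ k) ^ 2 := by ring
    _ ≤ _ := h1
    _ ≤ _ := hcs
    _ ≤ (∑ t ∈ P, wt t) * ((k.factorial : ℝ) * ∑ q ∈ R, J q ^ 2 / q) :=
        mul_le_mul_of_nonneg_left hpush h2
    _ ≤ (∑ t ∈ P, wt t) * ((k.factorial : ℝ) *
        (S.card * (1 + k * Real.log P2) + (S.card : ℝ) ^ 2 * (8 * T ^ 2 / P1 ^ k))) :=
        mul_le_mul_of_nonneg_left (mul_le_mul_of_nonneg_left hmean (by positivity)) h2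
    _ = _ := by
        rw [hwts]
        ring

end Pool.Agent.Lib.MP_4b09b1_nt
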