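import Pool.Agent.Lib.MP_4b09b1_nt.Defs

set_option autoImplicit false

open Finset

namespace Pool.Agent.Lib.MP_4b09b1_nt

/-! ## PD: prime divisors -/

theorem prime_div_sum (ε : ℝ) (hε : 0 < ε) : ∃ C : ℝ, 0 ≤ C ∧ ∀ n : ℕ, 1 ≤ n →
    ∑ p ∈ n.primeFactors, Real.log p / p ≤ ε * Real.log n + C := by
  classical
  obtain ⟨y, hy⟩ := exists_nat_gt (1 / ε)
  have hy0 : (0 : ℝ) < y := (one_div_pos.2 hε).trans hy
  have hnn : ∀ p : ℕ, 0 ≤ Real.log p / p := fun p =>
    div_nonneg (Real.log_natCast_nonneg p) (Nat.cast_nonneg p)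
  refine ⟨∑ p ∈ Finset.range (y + 1), Real.log p / p, Finset.sum_nonneg fun p _ => hnn p, ?_⟩
  intro n hn
  have hlog : ∑ p ∈ n.primeFactors, Real.log p ≤ Real.log n := by
    have h1 : (∏ p ∈ n.primeFactors, p) ≤ n := Nat.le_of_dvd hn (Nat.prod_primeFactors_dvd n)
    have h2 : ∑ p ∈ n.primeFactors, Real.log p = Real.log ((∏ p ∈ n.primeFactors, p : ℕ) : ℝ) := by
      rw [Nat.cast_prod, Real.log_prod]
      intro p hp
      exact Nat.cast_ne_zero.2 (Nat.prime_of_mem_primeFactors hp).ne_zero
    rw [h2]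
    refine Real.log_le_log ?_ (Nat.cast_le.2 h1)
    refine Nat.cast_pos.2 (Finset.prod_pos fun p hp => (Nat.prime_of_mem_primeFactors hp).pos)
  rw [← Finset.sum_filter_add_sum_filter_not n.primeFactors (fun p => p ≤ y)]
  have hA : ∑ p ∈ n.primeFactors.filter (fun p => p ≤ y), Real.log p / p ≤
      ∑ p ∈ Finset.range (y + 1), Real.log p / p := by
    refine Finset.sum_le_sum_of_subset_of_nonneg ?_ fun p _ _ => hnn p
    intro p hp
    rw [Finset.mem_range]
    exact Nat.lt_succ_of_le (Finset.mem_filter.1 hp).2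
  have hB : ∑ p ∈ n.primeFactors.filter (fun p => ¬ p ≤ y), Real.log p / p ≤ ε * Real.log n := by
    calc ∑ p ∈ n.primeFactors.filter (fun p => ¬ p ≤ y), Real.log p / p
        ≤ ∑ p ∈ n.primeFactors.filter (fun p => ¬ p ≤ y), ε * Real.log p := by
          refine Finset.sum_le_sum fun p hp => ?_
          have h1 : y < p := not_le.1 (Finset.mem_filter.1 hp).2
          have h2 : (y : ℝ) < p := Nat.cast_lt.2 h1
          have hp0 : (0 : ℝ) < p := hy0.trans h2
          rw [div_le_iff₀ hp0]
          have h3 : 1 ≤ ε * p := by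
            have : 1 / ε < p := hy.trans h2
            rw [div_lt_iff₀ hε] at this
            rw [mul_comm]; exact this.le
          calc Real.log p = 1 * Real.log p := (one_mul _).symm
            _ ≤ (ε * p) * Real.log p :=
              mul_le_mul_of_nonneg_right h3 (Real.log_natCast_nonneg p)
            _ = ε * Real.log p * p := by ring
      _ ≤ ∑ p ∈ n.primeFactors, ε * Real.log p := by
          refine Finset.sum_le_sum_of_subset_of_nonneg (Finset.filter_subset _ _) fun p _ _ => ?_
          exact mul_nonneg hε.le (Real.log_natCast_nonneg p)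
      _ = ε * ∑ p ∈ n.primeFactors, Real.log p := by rw [Finset.mul_sum]
      _ ≤ ε * Real.log n := mul_le_mul_of_nonneg_left hlog hε.le
  linarith

end Pool.Agent.Lib.MP_4b09b1_nt
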