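import Pool.Agent.Lib.MP_4b09b1_nt.Defs

set_option autoImplicit false

open Finset

namespace Pool.Agent.Lib.MP_4b09b1_nt

/-! ## SF: signed squarefree parts and pigeonhole -/

private theorem SF_exists (z : ℤ) (hz : z ≠ 0) :
    ∃ s m : ℤ, Squarefree s ∧ 0 < m ∧ z = s * m ^ 2 := by
  obtain ⟨a, b, hab, ha⟩ := Nat.sq_mul_squarefree z.natAbs
  have hb : b ≠ 0 := by
    rintro rfl
    simp at hab
    exact hz (Int.natAbs_eq_zero.1 hab.symm)
  have haz : Squarefree (a : ℤ) := Int.squarefree_natCast.2 ha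
  have habz : (z.natAbs : ℤ) = (a : ℤ) * (b : ℤ) ^ 2 := by
    rw [← hab]; push_cast; ring
  rcases Int.natAbs_eq z with h | h
  · exact ⟨a, b, haz, by positivity, by rw [← habz]; exact h⟩
  · refine ⟨-a, b, fun x hx => haz x (dvd_neg.1 hx), by positivity, ?_⟩
    rw [h, habz]; ring

private theorem SF_eq {s s' : ℤ} (hs : Squarefree s) (hs' : Squarefree s')
    (h : IsSquare (s * s')) : s = s' := by
  obtain ⟨k, hk⟩ := h
  have hs0 : s ≠ 0 := hs.ne_zero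
  have h1 : s ∣ k ^ 2 := by rw [sq, ← hk]; exact dvd_mul_right _ _
  rw [hs.dvd_pow_iff_dvd two_ne_zero] at h1
  obtain ⟨t, rfl⟩ := h1
  have h2 : s' = s * (t * t) := by
    apply mul_left_cancel₀ hs0
    rw [hk]; ring
  have h3 : IsUnit t := hs' t ⟨s, by rw [h2]; ring⟩
  have h4 : t * t = 1 := by
    rcases Int.isUnit_iff.1 h3 with h | h
    · rw [h]; norm_num
    · rw [h]; norm_num
  rw [h2, h4, mul_one]

theorem sf_pigeon (n : ℤ → ℤ) (B : Finset ℤ) (hn : ∀ b ∈ B, n b ≠ 0) (H : ℝ) (hH : 0 < H)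
    (hcard : ∀ S : Finset ℤ, S ⊆ B.image n →
      (∀ u ∈ S, ∀ u' ∈ S, u ≠ u' → ¬ IsSquare (u * u')) → (S.card : ℝ) ≤ H) :
    ∃ (s : ℤ) (B' : Finset ℤ), B' ⊆ B ∧ s ≠ 0 ∧ (B.card : ℝ) ≤ H * B'.card ∧
      ∀ b ∈ B', ∃ m : ℤ, 0 < m ∧ n b = s * m ^ 2 := by
  classical
  rcases B.eq_empty_or_nonempty with rfl | hB
  · exact ⟨1, ∅, Finset.Subset.refl _, one_ne_zero, by simp, fun b hb => absurd hb (by simp)⟩
  have hex : ∀ z : ℤ, ∃ s : ℤ, z ≠ 0 → Squarefree s ∧ ∃ m : ℤ, 0 < m ∧ z = s * m ^ 2 := by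
    intro z
    by_cases hz : z = 0
    · exact ⟨1, fun h => absurd hz h⟩
    · obtain ⟨s, m, h1, h2, h3⟩ := SF_exists z hz
      exact ⟨s, fun _ => ⟨h1, m, h2, h3⟩⟩
  choose σ hσ using hex
  -- the classes
  let I : Finset ℤ := B.image (fun b => σ (n b))
  have hI : I.Nonempty := hB.image _
  have hrep : ∀ s : ℤ, ∃ u : ℤ, s ∈ I → u ∈ B.image n ∧ σ u = s := by
    intro s
    by_cases hs : s ∈ I
    · obtain ⟨b, hb, hbs⟩ := Finset.mem_image.1 hs
      exact ⟨n b, fun _ => ⟨Finset.mem_image_of_mem _ hb, hbs⟩⟩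
    · exact ⟨0, fun h => absurd h hs⟩
  choose ρ hρ using hrep
  have hinj : Set.InjOn ρ (I : Set ℤ) := by
    intro s hs s' hs' h
    rw [← (hρ s hs).2, ← (hρ s' hs').2, h]
  have hne : ∀ s ∈ I, ρ s ≠ 0 := by
    intro s hs
    obtain ⟨b, hb, hbs⟩ := Finset.mem_image.1 (hρ s hs).1
    rw [← hbs]; exact hn b hb
  have hS : ((I.image ρ).card : ℝ) ≤ H := by
    refine hcard _ ?_ ?_
    · intro u hu
      obtain ⟨s, hs, rfl⟩ := Finset.mem_image.1 hu
      exact (hρ s hs).1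
    · intro u hu u' hu' huu' hsq
      obtain ⟨s, hs, rfl⟩ := Finset.mem_image.1 hu
      obtain ⟨s', hs', rfl⟩ := Finset.mem_image.1 hu'
      apply huu'
      congr 1
      obtain ⟨h1, m, hm, h2⟩ := hσ _ (hne s hs)
      obtain ⟨h1', m', hm', h2'⟩ := hσ _ (hne s' hs')
      rw [(hρ s hs).2] at h1 h2
      rw [(hρ s' hs').2] at h1' h2'
      refine SF_eq h1 h1' ?_
      obtain ⟨k, hk⟩ := hsq
      have h5 : (s * s') * (m * m') ^ 2 = k ^ 2 := by
        rw [sq k, ← hk, h2, h2']; ring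
      have h6 : (m * m') ^ 2 ∣ k ^ 2 := ⟨s * s', by rw [← h5]; ring⟩
      rw [Int.pow_dvd_pow_iff two_ne_zero] at h6
      obtain ⟨t, rfl⟩ := h6
      have hmm : (m * m') ^ 2 ≠ 0 := by positivity
      refine ⟨t, ?_⟩
      apply mul_right_cancel₀ hmm
      rw [h5]; ring
  rw [Finset.card_image_of_injOn hinj] at hS
  -- pigeonhole
  obtain ⟨s, hs, hmax⟩ := Finset.exists_max_image I
    (fun s => (B.filter (fun b => σ (n b) = s)).card) hI
  refine ⟨s, B.filter (fun b => σ (n b) = s), Finset.filter_subset _ _, ?_, ?_, ?_⟩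
  · obtain ⟨b, hb, hbs⟩ := Finset.mem_image.1 hs
    rw [← hbs]
    exact (hσ _ (hn b hb)).1.ne_zero
  · have h1 : B.card = ∑ s ∈ I, (B.filter (fun b => σ (n b) = s)).card :=
      Finset.card_eq_sum_card_fiberwise fun b hb => Finset.mem_image_of_mem _ hb
    have h2 : B.card ≤ I.card * (B.filter (fun b => σ (n b) = s)).card := by
      rw [h1]
      refine (Finset.sum_le_card_nsmul _ _ _ hmax).trans ?_
      rw [smul_eq_mul]
    calc (B.card : ℝ) ≤ ((I.card * (B.filter (fun b => σ (n b) = s)).card : ℕ) : ℝ) := by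
          exact_mod_cast h2
      _ = (I.card : ℝ) * (B.filter (fun b => σ (n b) = s)).card := by push_cast; ring
      _ ≤ _ := mul_le_mul_of_nonneg_right hS (Nat.cast_nonneg _)
  · intro b hb
    obtain ⟨hb1, hb2⟩ := Finset.mem_filter.1 hb
    obtain ⟨_, m, hm, h2⟩ := hσ _ (hn b hb1)
    exact ⟨m, hm, by rw [← hb2]; exact h2⟩

end Pool.Agent.Lib.MP_4b09b1_nt
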