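import Pool.Agent.Lib.MP_4b09b1_nt.ELS

/-!
# MP_4b09b1_nt, module Split
-/

set_option autoImplicit false

open Finset

namespace Pool.Agent.Lib.MP_4b09b1_nt

namespace SplitAux

theorem mem_res (X : Finset ℤ) (p : ℕ) (t : ZMod p) :
    t ∈ res X p ↔ ∃ x : ℤ, x ∈ X ∧ (x : ZMod p) = t := by
  simp [res]

/-- the residues occupied by `X` and `Y` -/
theorem res_add_res_le (α β s : ℤ) (X Y : Finset ℤ) {p : ℕ} (hp : p.Prime)
    (hs : IsSplit α s p)
    (h : ∀ x ∈ X, ∀ m ∈ Y, ¬ (p : ℤ) ∣ (2 * α * x + β) ^ 2 - s * m ^ 2) :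
    (res X p).card + (res Y p).card ≤ p := by
  classical
  have : Fact p.Prime := ⟨hp⟩
  obtain ⟨hdvd, hjac⟩ := hs
  have hs0 : (s : ZMod p) ≠ 0 := by
    intro h0
    apply hdvd
    rw [ZMod.intCast_zmod_eq_zero_iff_dvd] at h0
    exact dvd_mul_of_dvd_right h0 _
  have ha0 : (2 * (α : ZMod p)) ≠ 0 := by
    intro h0
    apply hdvd
    have : (((2 * α : ℤ)) : ZMod p) = 0 := by push_cast; exact h0
    rw [ZMod.intCast_zmod_eq_zero_iff_dvd] at this
    exact dvd_mul_of_dvd_left this _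
  have hsq : IsSquare (s : ZMod p) := by
    rw [← jacobiSym.legendreSym.to_jacobiSym] at hjac
    exact (legendreSym.eq_one_iff p hs0).mp hjac
  obtain ⟨ρ, hρ⟩ := hsq
  have hρ0 : ρ ≠ 0 := by
    rintro rfl
    apply hs0
    rw [hρ, mul_zero]
  have hinj1 : Function.Injective (fun t : ZMod p => 2 * (α : ZMod p) * t + (β : ZMod p)) := by
    intro t t' htt
    have h1 : 2 * (α : ZMod p) * t = 2 * (α : ZMod p) * t' := by
      simpa using htt
    exact mul_left_cancel₀ ha0 h1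
  have hinj2 : Function.Injective (fun t : ZMod p => ρ * t) := fun t t' htt =>
    mul_left_cancel₀ hρ0 htt
  have hdisj : Disjoint ((res X p).image (fun t => 2 * (α : ZMod p) * t + (β : ZMod p)))
      ((res Y p).image (fun t => ρ * t)) := by
    rw [Finset.disjoint_left]
    intro z hz1 hz2
    obtain ⟨t, ht, rfl⟩ := mem_image.mp hz1
    obtain ⟨u, hu, huz⟩ := mem_image.mp hz2
    obtain ⟨x, hx, rfl⟩ := (mem_res X p t).mp ht
    obtain ⟨m, hm, rfl⟩ := (mem_res Y p u).mp hu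
    apply h x hx m hm
    rw [← ZMod.intCast_zmod_eq_zero_iff_dvd]
    push_cast
    have h2 : ρ * (m : ZMod p) = 2 * (α : ZMod p) * (x : ZMod p) + (β : ZMod p) := huz
    rw [← h2, hρ]
    ring
  have h3 := card_le_univ (((res X p).image (fun t => 2 * (α : ZMod p) * t + (β : ZMod p))) ∪
      ((res Y p).image (fun t => ρ * t)))
  rw [card_union_of_disjoint hdisj, card_image_of_injective _ hinj1,
    card_image_of_injective _ hinj2, ZMod.card] at h3
  exact h3

theorem res_pos {X : Finset ℤ} (hX : X.Nonempty) (p : ℕ) : 0 < (res X p).card := by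
  rw [Finset.card_pos]
  obtain ⟨x, hx⟩ := hX
  exact ⟨(x : ZMod p), (mem_res X p _).mpr ⟨x, hx, rfl⟩⟩

end SplitAux

theorem split_card (α β s : ℤ) (X Y : Finset ℤ) (hX : X.Nonempty) (hY : Y.Nonempty)
    (A A' : ℤ) (M M' : ℕ) (hXA : ∀ x ∈ X, A ≤ x ∧ x < A + M) (hYA : ∀ y ∈ Y, A' ≤ y ∧ y < A' + M')
    (Q : ℕ) (U : Finset ℕ) (hU : ∀ q ∈ U, Adm (IsSplit α s) Q q)
    (h : ∀ q ∈ U, ∀ p ∈ q.primeFactors, ∀ x ∈ X, ∀ m ∈ Y,
      ¬ (p : ℤ) ∣ (2 * α * x + β) ^ 2 - s * m ^ 2) :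
    (U.card : ℝ) ^ 2 * (X.card * Y.card) ≤
      (M + Q + U.card * (Q : ℝ) ^ 2) * (M' + Q + U.card * (Q : ℝ) ^ 2) := by
  have hres : ∀ q ∈ U, ∀ p ∈ q.primeFactors, (res X p).card + (res Y p).card ≤ p := by
    intro q hq p hp
    have hpp := Nat.prime_of_mem_primeFactors hp
    exact SplitAux.res_add_res_le α β s X Y hpp
      ((hU q hq).2.2 p hpp (Nat.dvd_of_mem_primeFactors hp)) (h q hq p hp)
  have hU' : ∀ q ∈ U, Squarefree q ∧ q ≤ Q := fun q hq => ⟨(hU q hq).1, (hU q hq).2.1⟩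
  have e1 := els X A M hXA hX Q U hU' (fun q hq p hp => by
    have := hres q hq p hp
    have := SplitAux.res_pos hY p
    omega)
  have e2 := els Y A' M' hYA hY Q U hU' (fun q hq p hp => by
    have := hres q hq p hp
    have := SplitAux.res_pos hX p
    omega)
  set a : ℕ → ℝ := fun q => ∏ p ∈ q.primeFactors, (((p : ℝ) - (res X p).card) / (res X p).card)
    with ha
  set b : ℕ → ℝ := fun q => ∏ p ∈ q.primeFactors, (((p : ℝ) - (res Y p).card) / (res Y p).card)
    with hb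
  have hbasic : ∀ q ∈ U, ∀ p ∈ q.primeFactors,
      (0 : ℝ) < (res X p).card ∧ (0 : ℝ) < (res Y p).card ∧
      ((res X p).card : ℝ) + (res Y p).card ≤ p := by
    intro q hq p hp
    refine ⟨?_, ?_, ?_⟩
    · exact_mod_cast SplitAux.res_pos hX p
    · exact_mod_cast SplitAux.res_pos hY p
    · exact_mod_cast hres q hq p hp
  have ha0 : ∀ q ∈ U, 0 ≤ a q := by
    intro q hq
    refine prod_nonneg fun p hp => ?_
    obtain ⟨h1, h2, h3⟩ := hbasic q hq p hp
    exact div_nonneg (by linarith) h1.le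
  have hb0 : ∀ q ∈ U, 0 ≤ b q := by
    intro q hq
    refine prod_nonneg fun p hp => ?_
    obtain ⟨h1, h2, h3⟩ := hbasic q hq p hp
    exact div_nonneg (by linarith) h2.le
  have hab : ∀ q ∈ U, 1 ≤ a q * b q := by
    intro q hq
    rw [ha, hb]
    simp only
    rw [← prod_mul_distrib]
    have h1 : ∏ p ∈ q.primeFactors, (1 : ℝ) ≤ ∏ p ∈ q.primeFactors,
        (((p : ℝ) - (res X p).card) / (res X p).card *
          (((p : ℝ) - (res Y p).card) / (res Y p).card)) := by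
      refine prod_le_prod (fun _ _ => zero_le_one) fun p hp => ?_
      obtain ⟨h1, h2, h3⟩ := hbasic q hq p hp
      rw [div_mul_div_comm, le_div_iff₀ (mul_pos h1 h2), one_mul]
      have h4 : ((res Y p).card : ℝ) ≤ (p : ℝ) - (res X p).card := by linarith
      have h5 : ((res X p).card : ℝ) ≤ (p : ℝ) - (res Y p).card := by linarith
      calc ((res X p).card : ℝ) * (res Y p).card = (res Y p).card * (res X p).card := by ring
        _ ≤ ((p : ℝ) - (res X p).card) * ((p : ℝ) - (res Y p).card) :=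
          mul_le_mul h4 h5 h1.le (by linarith)
    rwa [prod_const_one] at h1
  have hcs : (U.card : ℝ) ≤ √(∑ q ∈ U, a q) * √(∑ q ∈ U, b q) := by
    have h1 : (U.card : ℝ) = ∑ q ∈ U, (1 : ℝ) := by simp
    rw [h1]
    refine le_trans (sum_le_sum fun q hq => ?_)
      (Real.sum_sqrt_mul_sqrt_le (f := fun q => if q ∈ U then a q else 0)
        (g := fun q => if q ∈ U then b q else 0) U (fun q => ?_) (fun q => ?_)) |>.trans ?_
    · simp only [hq, if_true]
      rw [← Real.sqrt_mul (ha0 q hq)]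
      rw [Real.one_le_sqrt]
      exact hab q hq
    · split_ifs with hq
      · exact ha0 q hq
      · exact le_rfl
    · split_ifs with hq
      · exact hb0 q hq
      · exact le_rfl
    · rw [sum_congr rfl (fun q hq => if_pos hq), sum_congr rfl (fun q hq => if_pos hq)]
  have hSa : 0 ≤ ∑ q ∈ U, a q := sum_nonneg ha0
  have hSb : 0 ≤ ∑ q ∈ U, b q := sum_nonneg hb0
  have hsq : (U.card : ℝ) ^ 2 ≤ (∑ q ∈ U, a q) * ∑ q ∈ U, b q := by
    have h1 : (U.card : ℝ) ^ 2 ≤ (√(∑ q ∈ U, a q) * √(∑ q ∈ U, b q)) ^ 2 :=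
      pow_le_pow_left₀ (Nat.cast_nonneg _) hcs 2
    rwa [mul_pow, Real.sq_sqrt hSa, Real.sq_sqrt hSb] at h1
  have hx : (0 : ℝ) ≤ X.card := Nat.cast_nonneg _
  have hy : (0 : ℝ) ≤ Y.card := Nat.cast_nonneg _
  calc (U.card : ℝ) ^ 2 * (X.card * Y.card)
      ≤ ((∑ q ∈ U, a q) * ∑ q ∈ U, b q) * (X.card * Y.card) :=
        mul_le_mul_of_nonneg_right hsq (mul_nonneg hx hy)
    _ = (X.card * ∑ q ∈ U, a q) * (Y.card * ∑ q ∈ U, b q) := by ring
    _ ≤ _ := mul_le_mul e1 e2 (mul_nonneg hy hSb) (by positivity)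

end Pool.Agent.Lib.MP_4b09b1_nt
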