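import Pool.Agent.Lib.MP_4b09b1_nt.Defs

/-!
# MP_4b09b1_nt: module Str (helper1)
-/

set_option autoImplicit false

open Finset

namespace Pool.Agent.Lib.MP_4b09b1_nt

theorem str (α β γ : ℤ) (A : Finset ℕ)
    (hA : ∀ t ∈ A, ∃ x : ℤ, (t : ℤ) = α * x ^ 2 + β * x + γ) :
    ∃ (X : Finset ℤ) (β' : ℤ), A.card ≤ 2 * X.card ∧
      ∀ x ∈ X, 0 ≤ 2 * α * x + β' ∧ ∃ t ∈ A, (t : ℤ) = α * x ^ 2 + β' * x + γ := by
  classical
  have h1 : ∀ t : ℕ, ∃ x : ℤ, t ∈ A → (t : ℤ) = α * x ^ 2 + β * x + γ := by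
    intro t
    by_cases ht : t ∈ A
    · obtain ⟨x, hx⟩ := hA t ht
      exact ⟨x, fun _ => hx⟩
    · exact ⟨0, fun h => absurd h ht⟩
  choose g hg using h1
  have hinj : ∀ t ∈ A, ∀ t' ∈ A, g t = g t' → t = t' := by
    intro t ht t' ht' h
    have h2 := hg t ht
    rw [h, ← hg t' ht'] at h2
    exact_mod_cast h2
  have hsum : (A.filter fun t => 0 ≤ 2 * α * g t + β).card +
      (A.filter fun t => ¬ 0 ≤ 2 * α * g t + β).card = A.card :=
    Finset.card_filter_add_card_filter_not _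
  rcases le_total (A.filter fun t => ¬ 0 ≤ 2 * α * g t + β).card
    (A.filter fun t => 0 ≤ 2 * α * g t + β).card with h | h
  · refine ⟨(A.filter fun t => 0 ≤ 2 * α * g t + β).image g, β, ?_, ?_⟩
    · rw [Finset.card_image_of_injOn]
      · omega
      · intro t ht t' ht' hh
        exact hinj t (Finset.mem_filter.1 ht).1 t' (Finset.mem_filter.1 ht').1 hh
    · intro x hx
      obtain ⟨t, ht, rfl⟩ := Finset.mem_image.1 hx
      obtain ⟨ht1, ht2⟩ := Finset.mem_filter.1 ht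
      exact ⟨ht2, t, ht1, hg t ht1⟩
  · refine ⟨(A.filter fun t => ¬ 0 ≤ 2 * α * g t + β).image (fun t => - g t), -β, ?_, ?_⟩
    · rw [Finset.card_image_of_injOn]
      · omega
      · intro t ht t' ht' hh
        exact hinj t (Finset.mem_filter.1 ht).1 t' (Finset.mem_filter.1 ht').1 (neg_injective hh)
    · intro x hx
      obtain ⟨t, ht, rfl⟩ := Finset.mem_image.1 hx
      obtain ⟨ht1, ht2⟩ := Finset.mem_filter.1 ht
      refine ⟨by nlinarith, t, ht1, ?_⟩
      rw [hg t ht1]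
      ring

end Pool.Agent.Lib.MP_4b09b1_nt
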