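import Pool.Agent.Lib.MP_4b09b1_nt.Plus
import Pool.Agent.Lib.MP_4b09b1_nt.MT
import Pool.Agent.Lib.MP_4b09b1_nt.PD
import Pool.Agent.Lib.MP_4b09b1_nt.MV
import Pool.Agent.Lib.MP_4b09b1_nt.Split
import Pool.Agent.Lib.MP_4b09b1_nt.EV
import Pool.Agent.Lib.MP_4b09b1_nt.Geo
import Pool.Agent.Lib.MP_4b09b1_nt.Str
import Pool.Agent.Lib.MP_4b09b1_nt.Half
import Pool.Agent.Lib.MP_4b09b1_nt.SF

set_option autoImplicit false

open Finset Filter Topology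

namespace Pool.Agent.Lib.MP_4b09b1_nt

namespace FinalAux

lemma ev_pow (C : ℝ) {e1 e2 : ℝ} (h : e1 < e2) :
    ∀ᶠ N : ℕ in atTop, C * (N : ℝ) ^ e1 ≤ (N : ℝ) ^ e2 := by
  have h1 : Tendsto (fun x : ℝ => x ^ (e2 - e1)) atTop atTop :=
    tendsto_rpow_atTop (by linarith)
  have h2 := (h1.comp tendsto_natCast_atTop_atTop).eventually_ge_atTop C
  filter_upwards [h2, eventually_gt_atTop 0] with N hN hN0
  have hN0' : (0 : ℝ) < N := by exact_mod_cast hN0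
  have h3 : (N : ℝ) ^ e2 = (N : ℝ) ^ (e2 - e1) * (N : ℝ) ^ e1 := by
    rw [← Real.rpow_add hN0']; congr 1; ring
  rw [h3]
  exact mul_le_mul_of_nonneg_right hN (by positivity)

lemma ev_log (C : ℝ) : ∀ᶠ N : ℕ in atTop, C ≤ Real.log N := by
  exact (Real.tendsto_log_atTop.comp tendsto_natCast_atTop_atTop).eventually_ge_atTop C

lemma ev_log_pow (C C' : ℝ) {e : ℝ} (he : 0 < e) :
    ∀ᶠ N : ℕ in atTop, C + C' * Real.log N ≤ (N : ℝ) ^ e := by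
  have h1 : (fun x : ℝ => C + C' * Real.log x) =o[atTop] (fun x : ℝ => x ^ e) := by
    refine Asymptotics.IsLittleO.add ?_ ((isLittleO_log_rpow_atTop he).const_mul_left C')
    exact (Asymptotics.isLittleO_const_left.2 (Or.inr (by
      refine (tendsto_norm_atTop_atTop.comp (tendsto_rpow_atTop he)))))
  have h2 := (h1.bound (show (0 : ℝ) < 1 by norm_num))
  have h3 := tendsto_natCast_atTop_atTop (R := ℝ) |>.eventually h2
  filter_upwards [h3] with N hN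
  rw [one_mul, Real.norm_of_nonneg (Real.rpow_nonneg (Nat.cast_nonneg N) e)] at hN
  exact (le_abs_self _).trans hN

lemma floor_ge_half {x : ℝ} (hx : 2 ≤ x) : x / 2 ≤ (⌊x⌋₊ : ℝ) := by
  have := (Nat.sub_one_lt_floor x).le
  linarith


lemma pr_pos {y p : ℕ} (hp : p ∈ pr y) : p.Prime ∧ p ≤ y := by
  unfold pr at hp
  rw [mem_filter, mem_range] at hp
  exact ⟨hp.2, by omega⟩

lemma lp_nonneg (p : ℕ) : 0 ≤ Real.log p / p :=
  div_nonneg (Real.log_natCast_nonneg p) (Nat.cast_nonneg p)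

/-- the sum over the primes not dividing `2 α` -/
lemma prA_sum (α : ℤ) (hα : α ≠ 0) (y : ℕ) :
    ∑ p ∈ pr y, Real.log p / p - ∑ p ∈ (2 * α).natAbs.primeFactors, Real.log p / p ≤
      ∑ p ∈ prA α y, Real.log p / p := by
  have h1 : ∑ p ∈ pr y, Real.log p / p = ∑ p ∈ prA α y, Real.log p / p +
      ∑ p ∈ (pr y).filter (fun p : ℕ => ¬ ¬ ((p : ℕ) : ℤ) ∣ 2 * α), Real.log p / p :=
    (sum_filter_add_sum_filter_not (pr y) (fun p : ℕ => ¬ ((p : ℕ) : ℤ) ∣ 2 * α)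
      (fun p : ℕ => Real.log p / p)).symm
  have h2 : ∑ p ∈ (pr y).filter (fun p : ℕ => ¬ ¬ ((p : ℕ) : ℤ) ∣ 2 * α), Real.log p / p ≤
      ∑ p ∈ (2 * α).natAbs.primeFactors, Real.log p / p := by
    refine sum_le_sum_of_subset_of_nonneg ?_ (fun p _ _ => lp_nonneg p)
    intro p hp
    rw [mem_filter, not_not] at hp
    rw [Nat.mem_primeFactors]
    refine ⟨(pr_pos hp.1).1, Int.natCast_dvd.1 hp.2, ?_⟩
    intro h
    rw [Int.natAbs_eq_zero] at h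
    exact hα (by omega)
  linarith

/-- the set of primes in `(P1, y]` -/
def WW (P1 y : ℕ) : Finset ℕ := (pr y).filter (fun p => P1 < p)

lemma WW_sum (P1 y : ℕ) (h : P1 ≤ y) : ∑ p ∈ pr y, Real.log p / p =
    ∑ p ∈ pr P1, Real.log p / p + ∑ p ∈ WW P1 y, Real.log p / p := by
  have h1 := (sum_filter_add_sum_filter_not (pr y) (fun p => P1 < p)
      (fun p : ℕ => Real.log p / p)).symm
  rw [h1, add_comm]
  congr 1
  refine sum_congr ?_ (fun _ _ => rfl)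
  ext p
  unfold pr
  rw [mem_filter, mem_filter, mem_filter, mem_range, mem_range]
  constructor
  · rintro ⟨⟨h1, h2⟩, h3⟩
    exact ⟨by omega, h2⟩
  · rintro ⟨h1, h2⟩
    exact ⟨⟨by omega, h2⟩, by omega⟩

lemma step1 (α β γ : ℤ) (hα : α ≠ 0) (X B : Finset ℤ) (hX : X.Nonempty) (hB : B.Nonempty)
    (N y P1 : ℕ) (hN : 1 ≤ N) (C C2 C3 A0 T : ℝ) (hC : 0 ≤ C)
    (hM : ∀ y : ℕ, 1 ≤ y → |∑ p ∈ pr y, Real.log p / p - Real.log y| ≤ C ∧
      ∑ p ∈ pr y, Real.log p ≤ C * y ∧ ∑ p ∈ pr y, Real.log p / p ^ 2 ≤ C)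
    (hPD : ∀ n : ℕ, 1 ≤ n → ∑ p ∈ n.primeFactors, Real.log p / p ≤ 0.01 * Real.log n + C2)
    (hy : 0.4894 * Real.log N - 1 ≤ Real.log y) (hy1 : 1 ≤ y)
    (hP1 : 2 ≤ P1) (hP1y : P1 ≤ y) (hP1' : Real.log P1 ≤ 0.27 * Real.log N)
    (hXc : (y : ℝ) ≤ C3 * X.card) (hBc : (y : ℝ) ≤ C3 * B.card)
    (h2α : Real.log ((2 * α).natAbs : ℕ) ≤ 0.021 * Real.log N + A0)
    (h2αP : (2 * α).natAbs ≤ P1)
    (hT : ∀ b ∈ B, |(nb α β γ b : ℝ)| ≤ T) (hTP : Real.log T / P1 ≤ 1)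
    (hbig1 : C * C3 * 13.5 + 0.02 * A0 + 2 * C2 + 2 * C + 14.5 * (1 + C) ≤
      0.0003 * Real.log N)
    (hbig2 : 2 + 2 * C ≤ 0.015 * Real.log N)
    (hXD : ∀ x ∈ X, ∀ x' ∈ X, |(x : ℝ) - x'| ≤ Real.sqrt N)
    (hBD : ∀ b ∈ B, 1 ≤ b ∧ b ≤ (N : ℤ))
    (h : ∀ p ∈ prA α y, ∀ x ∈ X, ∀ b ∈ B, ¬ (p : ℤ) ∣ (2 * α * x + β) ^ 2 + nb α β γ b) :
    ∃ B' ⊆ B, B.card ≤ 2 * B'.card + 2 ∧ ∀ b ∈ B', nb α β γ b ≠ 0 ∧
      ∑ p ∈ WW P1 y, Real.log p / p * (jacobiSym (-(nb α β γ b)) p : ℝ) ≤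
        -(0.1 * Real.log N) := by
  have hN' : (1 : ℝ) ≤ N := by exact_mod_cast hN
  have hXp : (0 : ℝ) < X.card := by exact_mod_cast hX.card_pos
  have hBp : (0 : ℝ) < B.card := by exact_mod_cast hB.card_pos
  have hBD' : ∀ x ∈ B, ∀ x' ∈ B, |(x : ℝ) - x'| ≤ N := by
    intro x hx x' hx'
    have h1 := hBD x hx
    have h2 := hBD x' hx'
    have e1 : (1 : ℝ) ≤ x := by exact_mod_cast h1.1
    have e2 : (x : ℝ) ≤ N := by exact_mod_cast h1.2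
    have e3 : (1 : ℝ) ≤ x' := by exact_mod_cast h2.1
    have e4 : (x' : ℝ) ≤ N := by exact_mod_cast h2.2
    rw [abs_le]
    constructor <;> linarith
  have key := plus_sum α β γ X B hX hB y (Real.sqrt N) N (Real.one_le_sqrt.2 hN') hXD hN' hBD' h
  obtain ⟨hM1, hM2, hM3⟩ := hM y hy1
  have hM1' := (abs_le.1 hM1).1
  have hMP := (abs_le.1 (hM P1 (by omega)).1).2
  have hnat : 1 ≤ (2 * α).natAbs := by
    rcases Nat.eq_zero_or_pos (2 * α).natAbs with h0 | h0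
    · rw [Int.natAbs_eq_zero] at h0
      exact absurd (by omega) hα
    · exact h0
  have hPA := prA_sum α hα y
  have hPD' := hPD _ hnat
  have hsq : Real.log (Real.sqrt N) = Real.log N / 2 := Real.log_sqrt (by linarith)
  rw [hsq] at key
  have hth1 : (∑ p ∈ pr y, Real.log p) / B.card ≤ C * C3 := by
    rw [div_le_iff₀ hBp]
    calc _ ≤ C * y := hM2
      _ ≤ C * (C3 * B.card) := mul_le_mul_of_nonneg_left hBc hC
      _ = _ := by ring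
  have hth2 : (∑ p ∈ pr y, Real.log p) / X.card ≤ C * C3 := by
    rw [div_le_iff₀ hXp]
    calc _ ≤ C * y := hM2
      _ ≤ C * (C3 * X.card) := mul_le_mul_of_nonneg_left hXc hC
      _ = _ := by ring
  have hτ0 : ∑ p ∈ prA α y, Real.log p / p * (plusB α β γ B p / B.card) ≤ 0.0258 * Real.log N := by
    linarith
  have hsub : WW P1 y ⊆ prA α y := by
    intro p hp
    unfold WW at hp
    rw [mem_filter] at hp
    unfold prA
    rw [mem_filter]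
    refine ⟨hp.1, fun hd => ?_⟩
    have := Nat.le_of_dvd (by omega) (Int.natCast_dvd.1 hd)
    omega
  have hτ : ∑ p ∈ WW P1 y, Real.log p / p * (plusB α β γ B p / B.card) ≤ 0.0258 * Real.log N := by
    refine le_trans (sum_le_sum_of_subset_of_nonneg hsub fun p _ _ => ?_) hτ0
    exact mul_nonneg (lp_nonneg p) (div_nonneg (Nat.cast_nonneg _) (Nat.cast_nonneg _))
  obtain ⟨B', hB', hcard, hB2⟩ := half α β γ hα B hB (WW P1 y) P1 hP1 (by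
    intro p hp
    unfold WW at hp
    rw [mem_filter] at hp
    exact ⟨(pr_pos hp.1).1, hp.2⟩) T hT _ hτ
  refine ⟨B', hB', hcard, fun b hb => ⟨(hB2 b hb).1, (hB2 b hb).2.trans ?_⟩⟩
  have hW := WW_sum P1 y hP1y
  linarith

lemma step2 (α β γ : ℤ) (B' : Finset ℤ) (P1 y : ℕ) (L T H : ℝ) (hL : 0 < L) (hP1 : 2 ≤ P1)
    (hb : ∀ b ∈ B', nb α β γ b ≠ 0 ∧
      ∑ p ∈ WW P1 y, Real.log p / p * (jacobiSym (-(nb α β γ b)) p : ℝ) ≤ -(0.1 * L))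
    (hT : ∀ b ∈ B', |(nb α β γ b : ℝ)| ≤ T)
    (hW : ∑ p ∈ WW P1 y, Real.log p / p ≤ L) (hyL : Real.log y ≤ L)
    (hTP : (Nat.factorial 8 : ℝ) * (8 * T ^ 2 / (P1 : ℝ) ^ 8) ≤ 0.1 ^ 16 / 2)
    (hH : 2 * 10 ^ 16 * (Nat.factorial 8 : ℝ) * (1 + 8 * L) ≤ H) :
    ∃ (s : ℤ) (B'' : Finset ℤ), B'' ⊆ B' ∧ s ≠ 0 ∧ (B'.card : ℝ) ≤ H * B''.card ∧
      ∀ b ∈ B'', ∃ m : ℤ, 0 < m ∧ -(nb α β γ b) = s * m ^ 2 := by
  have hfac : (0 : ℝ) < (Nat.factorial 8 : ℝ) := by exact_mod_cast Nat.factorial_pos 8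
  have hHpos : 0 < H := lt_of_lt_of_le (by positivity) hH
  refine sf_pigeon (fun b => -(nb α β γ b)) B' (fun b hb' => neg_ne_zero.2 (hb b hb').1) H hHpos ?_
  intro S hS hns
  have himg : ∀ n ∈ S, ∃ b ∈ B', -(nb α β γ b) = n := by
    intro n hn
    have := hS hn
    rw [mem_image] at this
    exact this
  have key := char_count S (by
      intro n hn
      obtain ⟨b, hb', rfl⟩ := himg n hn
      exact neg_ne_zero.2 (hb b hb').1) hns T (by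
      intro n hn
      obtain ⟨b, hb', rfl⟩ := himg n hn
      push_cast
      rw [abs_neg]
      exact hT b hb') (WW P1 y) P1 y hP1 (by
      intro p hp
      unfold WW at hp
      rw [mem_filter] at hp
      exact ⟨(pr_pos hp.1).1, hp.2, (pr_pos hp.1).2⟩) 8 (by norm_num) L hL hyL 0.1 (by norm_num) (by
      intro n hn
      obtain ⟨b, hb', rfl⟩ := himg n hn
      exact (hb b hb').2)
  have hWn : 0 ≤ ∑ p ∈ WW P1 y, Real.log p / p := sum_nonneg fun p _ => lp_nonneg p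
  have h1 : ((∑ p ∈ WW P1 y, Real.log p / p) / L) ^ 8 ≤ 1 := by
    apply pow_le_one₀ (div_nonneg hWn hL.le)
    rw [div_le_one hL]
    exact hW
  have hyn : 0 ≤ Real.log y := Real.log_natCast_nonneg y
  have hcast : ((8 : ℕ) : ℝ) = 8 := by norm_num
  have h2 : (Nat.factorial 8 : ℝ) * ((∑ p ∈ WW P1 y, Real.log p / p) / L) ^ 8 *
      (S.card * (1 + (8 : ℕ) * Real.log y) + (S.card : ℝ) ^ 2 * (8 * T ^ 2 / (P1 : ℝ) ^ 8)) ≤
      (Nat.factorial 8 : ℝ) *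
      (S.card * (1 + 8 * L) + (S.card : ℝ) ^ 2 * (8 * T ^ 2 / (P1 : ℝ) ^ 8)) := by
    have e1 : (Nat.factorial 8 : ℝ) * ((∑ p ∈ WW P1 y, Real.log p / p) / L) ^ 8 ≤
        (Nat.factorial 8 : ℝ) := by
      calc _ ≤ (Nat.factorial 8 : ℝ) * 1 := mul_le_mul_of_nonneg_left h1 hfac.le
        _ = _ := mul_one _
    have e2 : (S.card : ℝ) * (1 + (8 : ℕ) * Real.log y) ≤ S.card * (1 + 8 * L) := by
      apply mul_le_mul_of_nonneg_left _ (Nat.cast_nonneg _)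
      rw [hcast]
      linarith
    have e3 : 0 ≤ (S.card : ℝ) * (1 + (8 : ℕ) * Real.log y) +
        (S.card : ℝ) ^ 2 * (8 * T ^ 2 / (P1 : ℝ) ^ 8) := by positivity
    calc _ ≤ (Nat.factorial 8 : ℝ) * (S.card * (1 + (8 : ℕ) * Real.log y) +
        (S.card : ℝ) ^ 2 * (8 * T ^ 2 / (P1 : ℝ) ^ 8)) := mul_le_mul_of_nonneg_right e1 e3
      _ ≤ _ := mul_le_mul_of_nonneg_left (add_le_add e2 le_rfl) hfac.le
  have h3 : (0.1 : ℝ) ^ (2 * 8) * (S.card : ℝ) ^ 2 ≤ (Nat.factorial 8 : ℝ) *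
      (S.card * (1 + 8 * L) + (S.card : ℝ) ^ 2 * (8 * T ^ 2 / (P1 : ℝ) ^ 8)) := key.trans h2
  have h4 : (S.card : ℝ) ^ 2 * ((Nat.factorial 8 : ℝ) * (8 * T ^ 2 / (P1 : ℝ) ^ 8)) ≤
      (S.card : ℝ) ^ 2 * (0.1 ^ 16 / 2) := mul_le_mul_of_nonneg_left hTP (by positivity)
  have h5 : (0.1 : ℝ) ^ 16 / 2 * (S.card : ℝ) ^ 2 ≤ (Nat.factorial 8 : ℝ) *
      (S.card * (1 + 8 * L)) := by
    have e : (2 * 8 : ℕ) = 16 := by norm_num
    rw [e] at h3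
    have e2 : (Nat.factorial 8 : ℝ) *
      (S.card * (1 + 8 * L) + (S.card : ℝ) ^ 2 * (8 * T ^ 2 / (P1 : ℝ) ^ 8)) =
      (Nat.factorial 8 : ℝ) * (S.card * (1 + 8 * L)) +
      (S.card : ℝ) ^ 2 * ((Nat.factorial 8 : ℝ) * (8 * T ^ 2 / (P1 : ℝ) ^ 8)) := by ring
    rw [e2] at h3
    linarith
  rcases Nat.eq_zero_or_pos S.card with h0 | h0
  · rw [h0]
    simpa using hHpos.le
  · have hSp : (0 : ℝ) < S.card := by exact_mod_cast h0
    refine le_trans ?_ hH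
    have h6 : (S.card : ℝ) * ((0.1 : ℝ) ^ 16 / 2 * S.card) ≤ S.card *
        ((Nat.factorial 8 : ℝ) * (1 + 8 * L)) := by
      calc _ = (0.1 : ℝ) ^ 16 / 2 * (S.card : ℝ) ^ 2 := by ring
        _ ≤ _ := h5
        _ = _ := by ring
    have h7 := le_of_mul_le_mul_left h6 hSp
    have e8 : (S.card : ℝ) = 2 * 10 ^ 16 * ((0.1 : ℝ) ^ 16 / 2 * S.card) := by
      norm_num
      ring
    rw [e8]
    calc 2 * 10 ^ 16 * ((0.1 : ℝ) ^ 16 / 2 * S.card)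
        ≤ 2 * 10 ^ 16 * ((Nat.factorial 8 : ℝ) * (1 + 8 * L)) :=
          mul_le_mul_of_nonneg_left h7 (by norm_num)
      _ = _ := by ring

lemma step3 (α β γ s : ℤ) (hα : α ≠ 0) (hs : s ≠ 0) (B : Finset ℤ) (T : ℝ) (hT0 : 0 ≤ T)
    (hT : ∀ b ∈ B, |(nb α β γ b : ℝ)| ≤ T)
    (hb : ∀ b ∈ B, ∃ m : ℤ, 0 < m ∧ -(nb α β γ b) = s * m ^ 2) :
    ∃ Y : Finset ℤ, Y.card = B.card ∧
      (∀ m ∈ Y, 0 < m ∧ (m : ℝ) ≤ Real.sqrt T ∧ ∃ b ∈ B, -(nb α β γ b) = s * m ^ 2) ∧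
      |(s : ℝ)| * (Y.card : ℝ) ^ 2 ≤ T := by
  classical
  choose! m hm0 hm using hb
  have hinj : Set.InjOn m (B : Set ℤ) := by
    intro b hb b' hb' hbb
    have h1 := hm b hb
    have h2 := hm b' hb'
    rw [hbb, ← h2] at h1
    unfold nb at h1
    have h3 : 4 * α * b = 4 * α * b' := by linarith
    exact mul_left_cancel₀ (mul_ne_zero (by norm_num) hα) h3
  have hs1 : (1 : ℝ) ≤ |(s : ℝ)| := by
    rw [← Int.cast_abs]
    exact_mod_cast Int.one_le_abs hs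
  have hsm : ∀ b ∈ B, |(s : ℝ)| * (m b : ℝ) ^ 2 ≤ T := by
    intro b hb
    refine le_trans (le_of_eq ?_) (hT b hb)
    have : (nb α β γ b : ℝ) = -((s : ℝ) * (m b : ℝ) ^ 2) := by
      have := hm b hb
      have h4 : nb α β γ b = -(s * m b ^ 2) := by linarith
      rw [h4]
      push_cast
      ring
    rw [this, abs_neg, abs_mul, abs_of_nonneg (sq_nonneg (m b : ℝ))]
  refine ⟨B.image m, card_image_of_injOn hinj, ?_, ?_⟩
  · intro t ht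
    rw [mem_image] at ht
    obtain ⟨b, hb, rfl⟩ := ht
    refine ⟨hm0 b hb, ?_, b, hb, hm b hb⟩
    apply Real.le_sqrt_of_sq_le
    calc (m b : ℝ) ^ 2 = 1 * (m b : ℝ) ^ 2 := (one_mul _).symm
      _ ≤ |(s : ℝ)| * (m b : ℝ) ^ 2 := mul_le_mul_of_nonneg_right hs1 (sq_nonneg _)
      _ ≤ T := hsm b hb
  · rcases (B.image m).eq_empty_or_nonempty with h0 | h0
    · rw [h0]
      simpa using hT0
    · set M := (B.image m).max' h0 with hM
      have hMm : M ∈ B.image m := max'_mem _ _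
      have hsub : B.image m ⊆ Finset.Icc 1 M := by
        intro t ht
        rw [mem_Icc]
        refine ⟨?_, le_max' _ _ ht⟩
        rw [mem_image] at ht
        obtain ⟨b, hb, rfl⟩ := ht
        exact hm0 b hb
      have hMpos : 0 < M := by
        have h5 := hMm
        rw [mem_image] at h5
        obtain ⟨b, hb, hbM⟩ := h5
        rw [← hbM]
        exact hm0 b hb
      have hc := card_le_card hsub
      rw [Int.card_Icc] at hc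
      have hc2 : ((B.image m).card : ℝ) ≤ M := by
        have : ((B.image m).card : ℤ) ≤ M := by omega
        exact_mod_cast this
      have h6 := hMm
      rw [mem_image] at h6
      obtain ⟨b, hb, hbM⟩ := h6
      have h7 := hsm b hb
      rw [hbM] at h7
      refine le_trans ?_ h7
      apply mul_le_mul_of_nonneg_left _ (abs_nonneg _)
      exact pow_le_pow_left₀ (Nat.cast_nonneg _) hc2 2

lemma step4 (α β s : ℤ) (X Y : Finset ℤ) (hX : X.Nonempty) (hY : Y.Nonempty) (D D' : ℝ)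
    (hD : ∀ x ∈ X, ∀ x' ∈ X, |(x : ℝ) - x'| ≤ D) (hYD : ∀ m ∈ Y, 0 < m ∧ (m : ℝ) ≤ D')
    (Q K : ℕ)
    (h : ∀ p : ℕ, p.Prime → p ≤ Q → ¬ (p : ℤ) ∣ 2 * α → ∀ x ∈ X, ∀ m ∈ Y,
      ¬ (p : ℤ) ∣ (2 * α * x + β) ^ 2 - s * m ^ 2)
    (hnum : (D + 1 + Q + (K + 1) * (Q : ℝ) ^ 2) * (D' + 1 + Q + (K + 1) * (Q : ℝ) ^ 2) <
      ((K : ℝ) + 1) ^ 2 * (X.card * Y.card)) :
    ∀ U : Finset ℕ, (∀ q ∈ U, Adm (IsSplit α s) Q q) → U.card ≤ K := by
  intro U hU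
  by_contra hcon
  push Not at hcon
  obtain ⟨U', hU', hcard⟩ := exists_subset_card_eq hcon
  have hDn : 0 ≤ D := by
    obtain ⟨x, hx⟩ := hX
    exact le_trans (abs_nonneg _) (hD x hx x hx)
  have hDn' : 0 ≤ D' := by
    obtain ⟨m, hm⟩ := hY
    have h1 := hYD m hm
    have h2 : (0 : ℝ) < m := by exact_mod_cast h1.1
    linarith [h1.2]
  have hXA : ∀ x ∈ X, X.min' hX ≤ x ∧ x < X.min' hX + ((⌊D⌋₊ + 1 : ℕ) : ℤ) := by
    intro x hx
    refine ⟨min'_le _ _ hx, ?_⟩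
    have h1 := (le_abs_self _).trans (hD x hx _ (min'_mem X hX))
    have h2 := Nat.lt_floor_add_one D
    have h3 : (x : ℝ) < ((X.min' hX + ((⌊D⌋₊ + 1 : ℕ) : ℤ) : ℤ) : ℝ) := by
      push_cast
      linarith
    exact_mod_cast h3
  have hYA : ∀ m ∈ Y, (0 : ℤ) ≤ m ∧ m < 0 + ((⌊D'⌋₊ + 1 : ℕ) : ℤ) := by
    intro m hm
    refine ⟨(hYD m hm).1.le, ?_⟩
    have h1 := (hYD m hm).2
    have h2 := Nat.lt_floor_add_one D'
    have h3 : (m : ℝ) < (((0 : ℤ) + ((⌊D'⌋₊ + 1 : ℕ) : ℤ) : ℤ) : ℝ) := by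
      push_cast
      linarith
    exact_mod_cast h3
  have key := split_card α β s X Y hX hY _ _ _ _ hXA hYA Q U' (fun q hq => hU q (hU' hq)) (by
    intro q hq p hp x hx m hm
    have hadm := hU q (hU' hq)
    have hpp := Nat.prime_of_mem_primeFactors hp
    have hpd := Nat.dvd_of_mem_primeFactors hp
    have hq0 : 0 < q := Nat.pos_of_ne_zero hadm.1.ne_zero
    refine h p hpp ((Nat.le_of_dvd hq0 hpd).trans hadm.2.1) ?_ x hx m hm
    intro hd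
    exact (hadm.2.2 p hpp hpd).1 (Dvd.dvd.mul_right hd s))
  rw [hcard] at key
  have hf1 : ((⌊D⌋₊ + 1 : ℕ) : ℝ) ≤ D + 1 := by
    push_cast
    linarith [Nat.floor_le hDn]
  have hf2 : ((⌊D'⌋₊ + 1 : ℕ) : ℝ) ≤ D' + 1 := by
    push_cast
    linarith [Nat.floor_le hDn']
  have hk : ((K + 1 : ℕ) : ℝ) = (K : ℝ) + 1 := by push_cast; ring
  rw [hk] at key
  have hmono : (((⌊D⌋₊ + 1 : ℕ) : ℝ) + Q + (K + 1) * (Q : ℝ) ^ 2) *
      (((⌊D'⌋₊ + 1 : ℕ) : ℝ) + Q + (K + 1) * (Q : ℝ) ^ 2) ≤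
      (D + 1 + Q + (K + 1) * (Q : ℝ) ^ 2) * (D' + 1 + Q + (K + 1) * (Q : ℝ) ^ 2) := by
    apply mul_le_mul
    · linarith
    · linarith
    · positivity
    · positivity
  linarith

lemma geo_use (α β γ : ℤ) (hα : α ≠ 0) (N : ℕ) (hN : 1 ≤ N) (X : Finset ℤ)
    (h16 : 16 ≤ (N : ℝ) ^ (0.4895 : ℝ)) (hXc : (N : ℝ) ^ (0.4895 : ℝ) / 4 ≤ X.card)
    (h0 : ∀ x ∈ X, 0 ≤ 2 * α * x + β)
    (h1 : ∀ x ∈ X, 1 ≤ α * x ^ 2 + β * x + γ ∧ α * x ^ 2 + β * x + γ ≤ N) :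
    (∀ x ∈ X, ∀ x' ∈ X, |(x : ℝ) - x'| ≤ Real.sqrt N) ∧
    |(α : ℝ)| ≤ 256 * (N : ℝ) ^ (0.021 : ℝ) ∧
    ∀ b : ℤ, 1 ≤ b → b ≤ N → |(nb α β γ b : ℝ)| ≤ 6144 * (N : ℝ) ^ (1.021 : ℝ) := by
  have hN' : (0 : ℝ) < N := by exact_mod_cast hN
  set k := ⌊(N : ℝ) ^ (0.4895 : ℝ) / 8⌋₊ with hk
  have hk1 : (N : ℝ) ^ (0.4895 : ℝ) / 16 ≤ k := by
    have : (N : ℝ) ^ (0.4895 : ℝ) / 8 / 2 ≤ (k : ℝ) := floor_ge_half (by linarith)
    linarith
  have hk2 : (k : ℝ) ≤ (N : ℝ) ^ (0.4895 : ℝ) / 8 := Nat.floor_le (by positivity)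
  have hk3 : 1 ≤ k := by
    have : (1 : ℝ) ≤ k := by linarith
    exact_mod_cast this
  have hk4 : k + 1 ≤ X.card := by
    have : (k : ℝ) + 1 ≤ X.card := by linarith
    exact_mod_cast this
  have hsq : (N : ℝ) ^ (0.979 : ℝ) / 256 ≤ (k : ℝ) ^ 2 := by
    have e1 : (N : ℝ) ^ (0.979 : ℝ) = (N : ℝ) ^ (0.4895 : ℝ) * (N : ℝ) ^ (0.4895 : ℝ) := by
      rw [← Real.rpow_add hN']; norm_num
    have e2 : (N : ℝ) ^ (0.979 : ℝ) / 256 = ((N : ℝ) ^ (0.4895 : ℝ) / 16) ^ 2 := by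
      rw [e1]; ring
    rw [e2]
    exact pow_le_pow_left₀ (by positivity) hk1 2
  have hkpos : (0 : ℝ) < (k : ℝ) ^ 2 := by positivity
  have hP : (0 : ℝ) < (N : ℝ) ^ (0.979 : ℝ) := Real.rpow_pos_of_pos hN' _
  obtain ⟨g1, g2, g3⟩ := geo α β γ hα N X k hk3 hk4 h0 h1
  refine ⟨?_, ?_, ?_⟩
  · intro x hx x' hx'
    have h2 := g1 x hx x' hx'
    have hα1 : (1 : ℝ) ≤ |(α : ℝ)| := by
      rw [← Int.cast_abs]
      exact_mod_cast Int.one_le_abs hα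
    have h3 : |(α : ℝ)| * ((x : ℝ) - x') ^ 2 ≤ N := by
      rw [← Int.cast_abs]
      exact_mod_cast h2
    apply Real.le_sqrt_of_sq_le
    rw [sq_abs]
    nlinarith [sq_nonneg ((x : ℝ) - x')]
  · have h2 : |(α : ℝ)| * (k : ℝ) ^ 2 ≤ N := by
      rw [← Int.cast_abs]
      exact_mod_cast g2
    have h3 : |(α : ℝ)| * ((N : ℝ) ^ (0.979 : ℝ) / 256) ≤ N :=
      (mul_le_mul_of_nonneg_left hsq (abs_nonneg _)).trans h2
    have h4 : (N : ℝ) = (N : ℝ) ^ (0.021 : ℝ) * (N : ℝ) ^ (0.979 : ℝ) := by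
      rw [← Real.rpow_add hN']; norm_num
    have h5 : |(α : ℝ)| * (N : ℝ) ^ (0.979 : ℝ) ≤
        (256 * (N : ℝ) ^ (0.021 : ℝ)) * (N : ℝ) ^ (0.979 : ℝ) := by
      linarith
    exact le_of_mul_le_mul_right h5 hP
  · intro b hb1 hb2
    have h2 : |(nb α β γ b : ℝ)| * (k : ℝ) ^ 2 ≤ 24 * (N : ℝ) ^ 2 := by
      have := g3 b hb1 hb2
      rw [← Int.cast_abs]
      exact_mod_cast this
    have h3 : |(nb α β γ b : ℝ)| * ((N : ℝ) ^ (0.979 : ℝ) / 256) ≤ 24 * (N : ℝ) ^ 2 :=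
      (mul_le_mul_of_nonneg_left hsq (abs_nonneg _)).trans h2
    have h4 : (N : ℝ) ^ 2 = (N : ℝ) ^ (1.021 : ℝ) * (N : ℝ) ^ (0.979 : ℝ) := by
      rw [← Real.rpow_add hN', ← Real.rpow_natCast]; norm_num
    have h5 : |(nb α β γ b : ℝ)| * (N : ℝ) ^ (0.979 : ℝ) ≤
        (6144 * (N : ℝ) ^ (1.021 : ℝ)) * (N : ℝ) ^ (0.979 : ℝ) := by
      linarith
    exact le_of_mul_le_mul_right h5 hP

lemma poly_eq (α β γ x b : ℤ) :
    (2 * α * x + β) ^ 2 + nb α β γ b = 4 * α * ((α * x ^ 2 + β * x + γ) + b) := by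
  unfold nb
  ring

lemma not_dvd {α β γ x b : ℤ} {p : ℕ} (hp : p.Prime) (hα : ¬ (p : ℤ) ∣ 2 * α)
    (h : ¬ (p : ℤ) ∣ (α * x ^ 2 + β * x + γ) + b) :
    ¬ (p : ℤ) ∣ (2 * α * x + β) ^ 2 + nb α β γ b := by
  rw [poly_eq]
  intro hd
  have hpp : Prime (p : ℤ) := Nat.prime_iff_prime_int.1 hp
  rcases hpp.dvd_or_dvd hd with h1 | h1
  · apply hα
    have e : 4 * α = 2 * (2 * α) := by ring
    rw [e] at h1
    rcases hpp.dvd_or_dvd h1 with h2 | h2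
    · exact Dvd.dvd.mul_right h2 α
    · exact h2
  · exact h h1

/-- the second half of the proof, for a fixed `N` -/
lemma fin (α β γ : ℤ) (hα : α ≠ 0) (N : ℕ) (X B : Finset ℤ) (s : ℤ) (hs : s ≠ 0)
    (hN0 : 1 ≤ N)
    (hXc : (N : ℝ) ^ (0.4895 : ℝ) / 4 ≤ X.card) (hBc : (N : ℝ) ^ (0.48945 : ℝ) ≤ B.card)
    (hXD : ∀ x ∈ X, ∀ x' ∈ X, |(x : ℝ) - x'| ≤ Real.sqrt N)
    (hαs : |(α : ℝ)| ≤ 256 * (N : ℝ) ^ (0.021 : ℝ))
    (hT : ∀ b ∈ B, |(nb α β γ b : ℝ)| ≤ 6144 * (N : ℝ) ^ (1.021 : ℝ))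
    (hb : ∀ b ∈ B, ∃ m : ℤ, 0 < m ∧ -(nb α β γ b) = s * m ^ 2)
    (h : ∀ p : ℕ, p.Prime → (p : ℝ) ≤ (N : ℝ) ^ (0.4894 : ℝ) → ∀ x ∈ X, ∀ b ∈ B,
      ¬ (p : ℤ) ∣ (α * x ^ 2 + β * x + γ) + b)
    (n1 : 2 * (N : ℝ) ^ (0.4998 : ℝ) ≤ (N : ℝ) ^ (0.5 : ℝ))
    (n2 : 1 * (N : ℝ) ^ (0.2419 : ℝ) ≤ (N : ℝ) ^ (0.4894 : ℝ))
    (n4 : 1 * (N : ℝ) ^ (0.2419 : ℝ) ≤ (N : ℝ) ^ (0.5 : ℝ))
    (n5 : 1 * (N : ℝ) ^ (0.5 : ℝ) ≤ (N : ℝ) ^ (0.5105 : ℝ))
    (n6 : (328 * 4 + 1) * (N : ℝ) ^ (1.0105 : ℝ) ≤ (N : ℝ) ^ (1.01095 : ℝ))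
    (n7 : (4 * 256 ^ 2 * 6144 + 2) * (N : ℝ) ^ (0.2417 : ℝ) ≤ (N : ℝ) ^ (0.2419 : ℝ))
    (n8 : 2 * (N : ℝ) ^ (0.07824 : ℝ) ≤ (N : ℝ) ^ (0.0788 : ℝ)) : False := by
  set n : ℝ := (N : ℝ) with hn
  have hn0 : 0 < n := by rw [hn]; exact_mod_cast hN0
  have hn1 : 1 ≤ n := by rw [hn]; exact_mod_cast hN0
  have pw : ∀ a b : ℝ, n ^ a * n ^ b = n ^ (a + b) := fun a b => (Real.rpow_add hn0 a b).symm
  have pos : ∀ a : ℝ, 0 < n ^ a := fun a => Real.rpow_pos_of_pos hn0 a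
  have one_le : ∀ a : ℝ, 0 ≤ a → 1 ≤ n ^ a := fun a ha => Real.one_le_rpow hn1 ha
  set Q := ⌊n ^ (0.2419 : ℝ)⌋₊ with hQ
  set K := ⌊n ^ (0.016 : ℝ)⌋₊ with hK
  set R := ⌊n ^ (0.03024 : ℝ)⌋₊ with hR
  set V := ⌊n ^ (0.0788 : ℝ)⌋₊ with hV
  have hQle : (Q : ℝ) ≤ n ^ (0.2419 : ℝ) := Nat.floor_le (pos _).le
  have hKle : (K : ℝ) ≤ n ^ (0.016 : ℝ) := Nat.floor_le (pos _).le
  have hRle : (R : ℝ) ≤ n ^ (0.03024 : ℝ) := Nat.floor_le (pos _).le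
  have hVle : (V : ℝ) ≤ n ^ (0.0788 : ℝ) := Nat.floor_le (pos _).le
  have hKge : n ^ (0.016 : ℝ) ≤ (K : ℝ) + 1 := (Nat.lt_floor_add_one _).le
  have hVge : n ^ (0.0788 : ℝ) - 1 < (V : ℝ) := by
    have : n ^ (0.0788 : ℝ) < (V : ℝ) + 1 := Nat.lt_floor_add_one _
    linarith
  have hRge : n ^ (0.03024 : ℝ) < (R : ℝ) + 1 := Nat.lt_floor_add_one _
  have hQge : n ^ (0.2419 : ℝ) - 1 < (Q : ℝ) := by
    have : n ^ (0.2419 : ℝ) < (Q : ℝ) + 1 := Nat.lt_floor_add_one _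
    linarith
  obtain ⟨Y, hYc, hY, hsY⟩ := step3 α β γ s hα hs B (6144 * n ^ (1.021 : ℝ)) (by
    have := pos 1.021; positivity) hT hb
  have hXp : (0 : ℝ) < X.card := lt_of_lt_of_le (by have := pos 0.4895; positivity) hXc
  have hXne : X.Nonempty := by
    rw [← card_pos]; exact_mod_cast hXp
  have hYge : n ^ (0.48945 : ℝ) ≤ Y.card := by rw [hYc]; exact hBc
  have hYp : (0 : ℝ) < Y.card := lt_of_lt_of_le (pos _) hYge
  have hYne : Y.Nonempty := by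
    rw [← card_pos]; exact_mod_cast hYp
  -- the bound for `s`
  have hs1 : |(s : ℝ)| ≤ 6144 * n ^ (0.0421 : ℝ) := by
    have h1 : |(s : ℝ)| * n ^ (0.9789 : ℝ) ≤ (6144 * n ^ (0.0421 : ℝ)) * n ^ (0.9789 : ℝ) := by
      have e1 : n ^ (0.9789 : ℝ) = (n ^ (0.48945 : ℝ)) ^ 2 := by
        rw [sq, pw]; norm_num
      have e2 : (n ^ (0.48945 : ℝ)) ^ 2 ≤ (Y.card : ℝ) ^ 2 := pow_le_pow_left₀ (pos _).le hYge 2
      calc |(s : ℝ)| * n ^ (0.9789 : ℝ) ≤ |(s : ℝ)| * (Y.card : ℝ) ^ 2 := by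
            rw [e1]; exact mul_le_mul_of_nonneg_left e2 (abs_nonneg _)
        _ ≤ 6144 * n ^ (1.021 : ℝ) := hsY
        _ = _ := by
            rw [mul_assoc, pw]; norm_num
    exact le_of_mul_le_mul_right h1 (pos _)
  -- the bound for the number of admissible numbers
  have hKK : ∀ U : Finset ℕ, (∀ q ∈ U, Adm (IsSplit α s) Q q) → U.card ≤ K := by
    refine step4 α β s X Y hXne hYne (Real.sqrt n) (Real.sqrt (6144 * n ^ (1.021 : ℝ))) hXD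
      (fun m hm => ⟨(hY m hm).1, (hY m hm).2.1⟩) Q K ?_ ?_
    · intro p hp hpQ hpα x hx m hm
      obtain ⟨-, -, b, hbB, hbm⟩ := hY m hm
      have h1 : (p : ℝ) ≤ n ^ (0.4894 : ℝ) := by
        have : (p : ℝ) ≤ Q := by exact_mod_cast hpQ
        linarith
      have h2 := not_dvd (β := β) hp hpα (h p hp h1 x hx b hbB)
      rw [← hbm, sub_neg_eq_add]
      exact h2
    · have hsq1 : Real.sqrt n = n ^ (0.5 : ℝ) := by
        rw [Real.sqrt_eq_rpow]; norm_num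
      have hsq2 : Real.sqrt (6144 * n ^ (1.021 : ℝ)) ≤ 79 * n ^ (0.5105 : ℝ) := by
        apply Real.sqrt_le_iff.2
        refine ⟨by have := pos 0.5105; positivity, ?_⟩
        have e : (79 * n ^ (0.5105 : ℝ)) ^ 2 = 6241 * n ^ (1.021 : ℝ) := by
          rw [mul_pow, sq (n ^ (0.5105 : ℝ)), pw]; norm_num
        rw [e]
        have := pos 1.021
        linarith
      have hKQ : ((K : ℝ) + 1) * (Q : ℝ) ^ 2 ≤ n ^ (0.5 : ℝ) := by
        have e1 : (K : ℝ) + 1 ≤ 2 * n ^ (0.016 : ℝ) := by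
          have := one_le 0.016 (by norm_num)
          linarith
        have e2 : (Q : ℝ) ^ 2 ≤ n ^ (0.4838 : ℝ) := by
          have : n ^ (0.4838 : ℝ) = (n ^ (0.2419 : ℝ)) ^ 2 := by rw [sq, pw]; norm_num
          rw [this]
          exact pow_le_pow_left₀ (Nat.cast_nonneg _) hQle 2
        calc ((K : ℝ) + 1) * (Q : ℝ) ^ 2 ≤ (2 * n ^ (0.016 : ℝ)) * n ^ (0.4838 : ℝ) :=
              mul_le_mul e1 e2 (by positivity) (by have := pos 0.016; positivity)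
          _ = 2 * n ^ (0.4998 : ℝ) := by rw [mul_assoc, pw]; norm_num
          _ ≤ _ := n1
      have hF1 : Real.sqrt n + 1 + Q + (K + 1) * (Q : ℝ) ^ 2 ≤ 4 * n ^ (0.5 : ℝ) := by
        have := one_le 0.5 (by norm_num)
        rw [hsq1]
        linarith
      have hF2 : Real.sqrt (6144 * n ^ (1.021 : ℝ)) + 1 + Q + (K + 1) * (Q : ℝ) ^ 2 ≤
          82 * n ^ (0.5105 : ℝ) := by
        have := one_le 0.5 (by norm_num)
        linarith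
      have hR1 : n ^ (1.01095 : ℝ) / 4 ≤ ((K : ℝ) + 1) ^ 2 * (X.card * Y.card) := by
        have e : n ^ (1.01095 : ℝ) / 4 = (n ^ (0.016 : ℝ)) ^ 2 *
            ((n ^ (0.4895 : ℝ) / 4) * n ^ (0.48945 : ℝ)) := by
          have : n ^ (1.01095 : ℝ) = n ^ (0.016 : ℝ) * n ^ (0.016 : ℝ) *
            (n ^ (0.4895 : ℝ) * n ^ (0.48945 : ℝ)) := by
            rw [pw, pw, pw]; norm_num
          rw [this]; ring
        rw [e]
        apply mul_le_mul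
        · exact pow_le_pow_left₀ (pos _).le hKge 2
        · exact mul_le_mul hXc hYge (pos _).le hXp.le
        · have := pos 0.4895
          have := pos 0.48945
          positivity
        · positivity
      calc (Real.sqrt n + 1 + Q + (K + 1) * (Q : ℝ) ^ 2) *
            (Real.sqrt (6144 * n ^ (1.021 : ℝ)) + 1 + Q + (K + 1) * (Q : ℝ) ^ 2)
          ≤ (4 * n ^ (0.5 : ℝ)) * (82 * n ^ (0.5105 : ℝ)) := by
            apply mul_le_mul hF1 hF2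
            · positivity
            · have := pos 0.5
              positivity
        _ = 328 * n ^ (1.0105 : ℝ) := by
            have : n ^ (1.0105 : ℝ) = n ^ (0.5 : ℝ) * n ^ (0.5105 : ℝ) := by
              rw [pw]; norm_num
            rw [this]; ring
        _ < n ^ (1.01095 : ℝ) / 4 := by
            have := pos 1.0105
            linarith
        _ ≤ _ := hR1
  -- conclusion
  have hQR : Q < (R + 1) ^ 8 := by
    have h1 : (Q : ℝ) < ((R : ℝ) + 1) ^ 8 := by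
      have e1 : (n ^ (0.03024 : ℝ)) ^ 8 < ((R : ℝ) + 1) ^ 8 :=
        pow_lt_pow_left₀ hRge (pos _).le (by norm_num)
      have e2 : (n ^ (0.03024 : ℝ)) ^ 8 = n ^ (0.24192 : ℝ) := by
        rw [← Real.rpow_natCast, ← Real.rpow_mul hn0.le]; norm_num
      have e3 : n ^ (0.2419 : ℝ) ≤ n ^ (0.24192 : ℝ) :=
        Real.rpow_le_rpow_of_exponent_le hn1 (by norm_num)
      linarith
    exact_mod_cast h1
  have hVQ : 4 * α ^ 2 * |s| * (V : ℤ) ^ 2 + 1 ≤ Q := by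
    have h1 : 4 * (α : ℝ) ^ 2 * |(s : ℝ)| * (V : ℝ) ^ 2 + 1 ≤ Q := by
      have e1 : (α : ℝ) ^ 2 ≤ 256 ^ 2 * n ^ (0.042 : ℝ) := by
        have : 256 ^ 2 * n ^ (0.042 : ℝ) = (256 * n ^ (0.021 : ℝ)) ^ 2 := by
          rw [mul_pow, sq (n ^ (0.021 : ℝ)), pw]; norm_num
        rw [this, ← sq_abs (α : ℝ)]
        exact pow_le_pow_left₀ (abs_nonneg _) hαs 2
      have e2 : (V : ℝ) ^ 2 ≤ n ^ (0.1576 : ℝ) := by
        have : n ^ (0.1576 : ℝ) = (n ^ (0.0788 : ℝ)) ^ 2 := by rw [sq, pw]; norm_num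
        rw [this]
        exact pow_le_pow_left₀ (Nat.cast_nonneg _) hVle 2
      have p1 := pos 0.042
      have p2 := pos 0.0421
      have e3 : 4 * (α : ℝ) ^ 2 * |(s : ℝ)| * (V : ℝ) ^ 2 ≤
          4 * (256 ^ 2 * n ^ (0.042 : ℝ)) * (6144 * n ^ (0.0421 : ℝ)) * n ^ (0.1576 : ℝ) := by
        gcongr
      have e4 : 4 * (256 ^ 2 * n ^ (0.042 : ℝ)) * (6144 * n ^ (0.0421 : ℝ)) * n ^ (0.1576 : ℝ) =
          (4 * 256 ^ 2 * 6144) * n ^ (0.2417 : ℝ) := by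
        have : n ^ (0.2417 : ℝ) = n ^ (0.042 : ℝ) * n ^ (0.0421 : ℝ) * n ^ (0.1576 : ℝ) := by
          rw [pw, pw]; norm_num
        rw [this]; ring
      have e5 := one_le 0.2417 (by norm_num)
      linarith
    have h2 : ((4 * α ^ 2 * |s| * (V : ℤ) ^ 2 + 1 : ℤ) : ℝ) ≤ ((Q : ℤ) : ℝ) := by
      push_cast
      exact h1
    exact_mod_cast h2
  have hfin := ev_count α s hα hs Q K R V hKK hQR hVQ
  have hfin2 : (V : ℝ) ≤ (K : ℝ) ^ 3 * R := by exact_mod_cast hfin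
  have hfin3 : (K : ℝ) ^ 3 * R ≤ n ^ (0.07824 : ℝ) := by
    have e : n ^ (0.07824 : ℝ) = (n ^ (0.016 : ℝ)) ^ 3 * n ^ (0.03024 : ℝ) := by
      rw [← Real.rpow_natCast, ← Real.rpow_mul hn0.le, pw]; norm_num
    rw [e]
    exact mul_le_mul (pow_le_pow_left₀ (Nat.cast_nonneg _) hKle 3) hRle (Nat.cast_nonneg _)
      (by have := pos 0.016; positivity)
  have e9 := one_le 0.07824 (by norm_num)
  linarith

lemma core : ∀ᶠ N : ℕ in atTop, ∀ (α β γ : ℤ) (X B : Finset ℤ), α ≠ 0 →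
    (N : ℝ) ^ (0.4895 : ℝ) / 4 ≤ X.card → (N : ℝ) ^ (0.4895 : ℝ) ≤ B.card →
    (∀ x ∈ X, 0 ≤ 2 * α * x + β) →
    (∀ x ∈ X, 1 ≤ α * x ^ 2 + β * x + γ ∧ α * x ^ 2 + β * x + γ ≤ N) →
    (∀ b ∈ B, 1 ≤ b ∧ b ≤ (N : ℤ)) →
    (∀ p : ℕ, p.Prime → (p : ℝ) ≤ (N : ℝ) ^ (0.4894 : ℝ) → ∀ x ∈ X, ∀ b ∈ B,
      ¬ (p : ℤ) ∣ (α * x ^ 2 + β * x + γ) + b) → False := by
  obtain ⟨C, hC, hM⟩ := mertens_all
  obtain ⟨C2, hC2, hPD⟩ := prime_div_sum 0.01 (by norm_num)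
  have hfac : (0 : ℝ) < (Nat.factorial 8 : ℝ) := by exact_mod_cast Nat.factorial_pos 8
  filter_upwards [eventually_ge_atTop 1,
    ev_pow 2 (show (0.4998 : ℝ) < 0.5 by norm_num),
    ev_pow 1 (show (0.2419 : ℝ) < 0.4894 by norm_num),
    ev_pow 1 (show (0.2419 : ℝ) < 0.5 by norm_num),
    ev_pow 1 (show (0.5 : ℝ) < 0.5105 by norm_num),
    ev_pow (328 * 4 + 1) (show (1.0105 : ℝ) < 1.01095 by norm_num),
    ev_pow (4 * 256 ^ 2 * 6144 + 2) (show (0.2417 : ℝ) < 0.2419 by norm_num),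
    ev_pow 2 (show (0.07824 : ℝ) < 0.0788 by norm_num),
    ev_log_pow 16 0 (show (0 : ℝ) < 0.4895 by norm_num),
    ev_log_pow 4 0 (show (0 : ℝ) < 0.27 by norm_num),
    ev_pow 4 (show (0.4894 : ℝ) < 0.4895 by norm_num),
    ev_pow 1 (show (0.27 : ℝ) < 0.4894 by norm_num),
    ev_pow (4 * 256) (show (0.021 : ℝ) < 0.27 by norm_num),
    ev_log_pow (2 * Real.log 6144) 2.042 (show (0 : ℝ) < 0.27 by norm_num),
    ev_log ((C * 1 * 13.5 + 0.02 * Real.log 512 + 2 * C2 + 2 * C + 14.5 * (1 + C)) / 0.0003),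
    ev_log ((2 + 2 * C) / 0.015),
    ev_log (2 * C + 1),
    ev_pow ((Nat.factorial 8 : ℝ) * 8 * 6144 ^ 2 * 256 * 2 * 10 ^ 16)
      (show (2.042 : ℝ) < 2.16 by norm_num),
    ev_log_pow (2 * 10 ^ 16 * (Nat.factorial 8 : ℝ)) (2 * 10 ^ 16 * (Nat.factorial 8 : ℝ) * 8)
      (show (0 : ℝ) < 0.00002 by norm_num),
    ev_pow 4 (show (0.48947 : ℝ) < 0.4895 by norm_num)] with N hN1 n1 n2 n4 n5 n6 n7 n8 n9 n10
      n11 n12 n13 n14 n15 n16 n17 n18 n19 n20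
  intro α β γ X B hα hXc hBc hX0 hX1 hB h
  have hn0 : (0 : ℝ) < N := by exact_mod_cast hN1
  have hn1 : (1 : ℝ) ≤ N := by exact_mod_cast hN1
  have pw : ∀ a b : ℝ, (N : ℝ) ^ a * (N : ℝ) ^ b = (N : ℝ) ^ (a + b) :=
    fun a b => (Real.rpow_add hn0 a b).symm
  have pos : ∀ a : ℝ, 0 < (N : ℝ) ^ a := fun a => Real.rpow_pos_of_pos hn0 a
  rw [div_le_iff₀ (by norm_num)] at n15 n16
  rw [zero_mul, add_zero] at n9 n10
  set L := Real.log N with hL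
  obtain ⟨hXD, hαs, hT'⟩ := geo_use α β γ hα N hN1 X n9 hXc hX0 hX1
  have hT : ∀ b ∈ B, |(nb α β γ b : ℝ)| ≤ 6144 * (N : ℝ) ^ (1.021 : ℝ) :=
    fun b hb => hT' b (hB b hb).1 (hB b hb).2
  set y := ⌊(N : ℝ) ^ (0.4894 : ℝ)⌋₊ with hy
  set P1 := ⌊(N : ℝ) ^ (0.27 : ℝ)⌋₊ with hP1
  have hyle : (y : ℝ) ≤ (N : ℝ) ^ (0.4894 : ℝ) := Nat.floor_le (pos _).le
  have hP1le : (P1 : ℝ) ≤ (N : ℝ) ^ (0.27 : ℝ) := Nat.floor_le (pos _).le
  have hP1ge : (N : ℝ) ^ (0.27 : ℝ) / 2 ≤ (P1 : ℝ) := floor_ge_half (by linarith)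
  have hyge : (N : ℝ) ^ (0.4894 : ℝ) / 2 ≤ (y : ℝ) := floor_ge_half (by linarith)
  have hP12 : 2 ≤ P1 := by
    have : (2 : ℝ) ≤ P1 := by linarith
    exact_mod_cast this
  have hP1y : P1 ≤ y := Nat.floor_le_floor (by linarith)
  have hy1 : 1 ≤ y := by omega
  have hypos : (0 : ℝ) < y := by exact_mod_cast hy1
  have hP1pos : (0 : ℝ) < P1 := by
    have : 0 < P1 := by omega
    exact_mod_cast this
  have hlogy : Real.log y ≤ 0.4894 * L := by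
    rw [hL, ← Real.log_rpow hn0]
    exact Real.log_le_log hypos hyle
  have hlogy2 : 0.4894 * L - 1 ≤ Real.log y := by
    have h1 := Real.log_le_log (by have := pos 0.4894; positivity) hyge
    rw [Real.log_div (pos _).ne' (by norm_num), Real.log_rpow hn0] at h1
    have h2 : Real.log 2 ≤ 1 := by
      have := Real.log_two_lt_d9
      linarith
    linarith
  have hlogP : Real.log P1 ≤ 0.27 * L := by
    rw [hL, ← Real.log_rpow hn0]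
    exact Real.log_le_log hP1pos hP1le
  have hαpos : (0 : ℝ) < ((2 * α).natAbs : ℕ) := by
    have : 0 < (2 * α).natAbs := Int.natAbs_pos.2 (mul_ne_zero (by norm_num) hα)
    exact_mod_cast this
  have hαle : (((2 * α).natAbs : ℕ) : ℝ) ≤ 512 * (N : ℝ) ^ (0.021 : ℝ) := by
    have : (((2 * α).natAbs : ℕ) : ℝ) = 2 * |(α : ℝ)| := by
      rw [Nat.cast_natAbs, Int.cast_abs]
      push_cast
      rw [abs_mul, abs_of_pos (show (0 : ℝ) < 2 by norm_num)]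
    rw [this]
    linarith
  have h2α : Real.log ((2 * α).natAbs : ℕ) ≤ 0.021 * L + Real.log 512 := by
    have h1 := Real.log_le_log hαpos hαle
    rw [Real.log_mul (by norm_num) (pos _).ne', Real.log_rpow hn0] at h1
    linarith
  have h2αP : (2 * α).natAbs ≤ P1 := by
    have : (((2 * α).natAbs : ℕ) : ℝ) ≤ P1 := by linarith
    exact_mod_cast this
  have hlogT : Real.log (6144 * (N : ℝ) ^ (1.021 : ℝ)) / P1 ≤ 1 := by
    rw [div_le_one hP1pos, Real.log_mul (by norm_num) (pos _).ne', Real.log_rpow hn0]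
    linarith
  have hXne : X.Nonempty := by
    rw [← card_pos]
    have : (0 : ℝ) < X.card := by linarith
    exact_mod_cast this
  have hBne : B.Nonempty := by
    rw [← card_pos]
    have : (0 : ℝ) < B.card := by linarith
    exact_mod_cast this
  obtain ⟨B', hB', hcard', hJ⟩ := step1 α β γ hα X B hXne hBne N y P1 hN1 C C2 1 (Real.log 512)
    (6144 * (N : ℝ) ^ (1.021 : ℝ)) hC hM hPD hlogy2 hy1 hP12 hP1y hlogP (by linarith) (by linarith)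
    h2α h2αP hT hlogT (by linarith) (by linarith) hXD hB (by
      intro p hp x hx b hb
      unfold prA at hp
      rw [mem_filter] at hp
      have hp1 := pr_pos hp.1
      refine not_dvd hp1.1 hp.2 (h p hp1.1 ?_ x hx b hb)
      have : (p : ℝ) ≤ y := by exact_mod_cast hp1.2
      linarith)
  have hMy := abs_le.1 (hM y hy1).1
  have hWy := WW_sum P1 y hP1y
  have hprn : 0 ≤ ∑ p ∈ pr P1, Real.log p / p := sum_nonneg fun p _ => lp_nonneg p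
  have hLpos : 0 < L := by linarith
  obtain ⟨s, B'', hB'', hs, hcard'', hm⟩ := step2 α β γ B' P1 y L
    (6144 * (N : ℝ) ^ (1.021 : ℝ)) (2 * 10 ^ 16 * (Nat.factorial 8 : ℝ) * (1 + 8 * L)) hLpos hP12 hJ
    (fun b hb => hT b (hB' hb)) (by linarith) (by linarith) (by
      have e1 : (P1 : ℝ) ^ 8 ≥ (N : ℝ) ^ (2.16 : ℝ) / 256 := by
        have e2 : (N : ℝ) ^ (2.16 : ℝ) / 256 = ((N : ℝ) ^ (0.27 : ℝ) / 2) ^ 8 := by
          rw [div_pow, ← Real.rpow_natCast, ← Real.rpow_mul hn0.le]; norm_num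
        rw [e2]
        exact pow_le_pow_left₀ (by have := pos 0.27; positivity) hP1ge 8
      have e3 : (6144 * (N : ℝ) ^ (1.021 : ℝ)) ^ 2 = 6144 ^ 2 * (N : ℝ) ^ (2.042 : ℝ) := by
        rw [mul_pow, sq ((N : ℝ) ^ (1.021 : ℝ)), pw]; norm_num
      rw [e3]
      have hP8 : (0 : ℝ) < (P1 : ℝ) ^ 8 := by positivity
      rw [← mul_div_assoc, div_le_iff₀ hP8]
      have e4 : (0.1 : ℝ) ^ 16 / 2 * ((N : ℝ) ^ (2.16 : ℝ) / 256) ≤ 0.1 ^ 16 / 2 * (P1 : ℝ) ^ 8 :=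
        mul_le_mul_of_nonneg_left e1 (by norm_num)
      refine le_trans ?_ e4
      have e5 : (Nat.factorial 8 : ℝ) * (8 * (6144 ^ 2 * (N : ℝ) ^ (2.042 : ℝ))) =
          (0.1 : ℝ) ^ 16 / 2 * (((Nat.factorial 8 : ℝ) * 8 * 6144 ^ 2 * 256 * 2 * 10 ^ 16 *
            (N : ℝ) ^ (2.042 : ℝ)) / 256) := by
        ring
      rw [e5]
      apply mul_le_mul_of_nonneg_left _ (by norm_num)
      exact div_le_div_of_nonneg_right n18 (by norm_num)) le_rfl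
  -- the size of `B''`
  have hB''c : (N : ℝ) ^ (0.48945 : ℝ) ≤ B''.card := by
    have e1 : (N : ℝ) ^ (0.4895 : ℝ) / 4 ≤ B'.card := by
      have : (B.card : ℝ) ≤ 2 * B'.card + 2 := by exact_mod_cast hcard'
      linarith
    have e2 : (B'.card : ℝ) ≤ (N : ℝ) ^ (0.00002 : ℝ) * B''.card := by
      refine hcard''.trans (mul_le_mul_of_nonneg_right ?_ (Nat.cast_nonneg _))
      linarith
    have e3 : (N : ℝ) ^ (0.00002 : ℝ) * (N : ℝ) ^ (0.48945 : ℝ) ≤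
        (N : ℝ) ^ (0.00002 : ℝ) * B''.card := by
      rw [pw, show (0.00002 : ℝ) + 0.48945 = 0.48947 by norm_num]
      linarith
    exact le_of_mul_le_mul_left e3 (pos _)
  exact fin α β γ hα N X B'' s hs hN1 hXc hB''c hXD hαs (fun b hb => hT b (hB' (hB'' hb))) hm
    (fun p hp hpN x hx b hb => h p hp hpN x hx b (hB' (hB'' hb))) n1 n2 n4 n5 n6 n7 n8

end FinalAux

/-- **Theorem.** If `N` is large, `A`, `B` are sets of positive integers up to `N`, `B` has at least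
`N^0.4895` elements and `A` contains at least `N^0.4895` values of a quadratic polynomial with
integer coefficients, then `A + B` contains a composite number. -/
theorem composite_of_quadratic : ∃ N0 : ℕ, ∀ N : ℕ, N0 ≤ N → ∀ A B : Finset ℕ,
    (∀ a ∈ A, 1 ≤ a ∧ a ≤ N) → (∀ b ∈ B, 1 ≤ b ∧ b ≤ N) → ∀ α β γ : ℤ, α ≠ 0 →
    (∀ a ∈ A, ∃ x : ℤ, (a : ℤ) = α * x ^ 2 + β * x + γ) →
    (N : ℝ) ^ (0.4895 : ℝ) ≤ A.card → (N : ℝ) ^ (0.4895 : ℝ) ≤ B.card →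
    ∃ a ∈ A, ∃ b ∈ B, ¬ (a + b).Prime := by
  have hev := (FinalAux.core.and (eventually_ge_atTop 1)).and
    ((FinalAux.ev_pow 4 (show (0.4894 : ℝ) < 0.4895 by norm_num)))
  rw [eventually_atTop] at hev
  obtain ⟨N0, hN0⟩ := hev
  refine ⟨N0, ?_⟩
  intro N hN A B hA hB α β γ hα hAf hAc hBc
  obtain ⟨⟨hcore, hN1⟩, hpow⟩ := hN0 N hN
  by_contra hcon
  push Not at hcon
  have hn0 : (0 : ℝ) < N := by exact_mod_cast hN1
  have hpos : 0 < (N : ℝ) ^ (0.4894 : ℝ) := Real.rpow_pos_of_pos hn0 _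
  -- remove the small elements of `A`
  set A1 := A.filter (fun a : ℕ => (N : ℝ) ^ (0.4894 : ℝ) < a) with hA1
  have hA1c : (N : ℝ) ^ (0.4895 : ℝ) / 2 ≤ A1.card := by
    have h1 := card_filter_add_card_filter_not (s := A) (fun a : ℕ => (N : ℝ) ^ (0.4894 : ℝ) < a)
    have h2 : (A.filter (fun a : ℕ => ¬ (N : ℝ) ^ (0.4894 : ℝ) < a)).card ≤
        ⌊(N : ℝ) ^ (0.4894 : ℝ)⌋₊ := by
      have hsub : A.filter (fun a : ℕ => ¬ (N : ℝ) ^ (0.4894 : ℝ) < a) ⊆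
          Finset.Icc 1 ⌊(N : ℝ) ^ (0.4894 : ℝ)⌋₊ := by
        intro a ha
        rw [mem_filter, not_lt] at ha
        rw [mem_Icc]
        exact ⟨(hA a ha.1).1, Nat.le_floor ha.2⟩
      have := card_le_card hsub
      rwa [Nat.card_Icc, Nat.add_sub_cancel] at this
    have h3 : ((A.filter (fun a : ℕ => ¬ (N : ℝ) ^ (0.4894 : ℝ) < a)).card : ℝ) ≤
        (N : ℝ) ^ (0.4894 : ℝ) :=
      le_trans (by exact_mod_cast h2) (Nat.floor_le hpos.le)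
    have h4 : (A1.card : ℝ) + ((A.filter (fun a : ℕ => ¬ (N : ℝ) ^ (0.4894 : ℝ) < a)).card : ℝ) =
        A.card := by exact_mod_cast h1
    linarith
  obtain ⟨X, β', hXc, hX⟩ := str α β γ A1 (by
    intro t ht
    rw [hA1, mem_filter] at ht
    exact hAf t ht.1)
  refine hcore α β' γ X (B.map ⟨fun b : ℕ => (b : ℤ), Nat.cast_injective⟩) hα ?_ ?_
    (fun x hx => (hX x hx).1) ?_ ?_ ?_
  · have : (A1.card : ℝ) ≤ 2 * X.card := by exact_mod_cast hXc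
    linarith
  · rw [card_map]; exact hBc
  · intro x hx
    obtain ⟨-, t, ht, hte⟩ := hX x hx
    rw [hA1, mem_filter] at ht
    rw [← hte]
    have := hA t ht.1
    exact ⟨by exact_mod_cast this.1, by exact_mod_cast this.2⟩
  · intro b hb
    rw [Finset.mem_map] at hb
    obtain ⟨b', hb', rfl⟩ := hb
    have := hB b' hb'
    exact ⟨by simpa using this.1, by simpa using this.2⟩
  · intro p hp hpN x hx b hb hd
    rw [Finset.mem_map] at hb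
    obtain ⟨b', hb', rfl⟩ := hb
    obtain ⟨-, t, ht, hte⟩ := hX x hx
    rw [hA1, mem_filter] at ht
    rw [← hte] at hd
    have hd2 : (p : ℤ) ∣ ((t + b' : ℕ) : ℤ) := by
      push_cast
      exact hd
    have hd3 : p ∣ t + b' := by exact_mod_cast hd2
    have hpr := hcon t ht.1 b' hb'
    have heq := (Nat.prime_dvd_prime_iff_eq hp hpr).1 hd3
    have h1 : (t : ℝ) + b' = p := by rw [heq]; push_cast; ring
    have h2 : (0 : ℝ) ≤ b' := Nat.cast_nonneg _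
    linarith [ht.2]

end Pool.Agent.Lib.MP_4b09b1_nt
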