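import Pool.Agent.Lib.MP_4b09b1_nt.Defs

set_option autoImplicit false

open Finset

namespace Pool.Agent.Lib.MP_4b09b1_nt

namespace Jacaux

/-- existence of an integer with prescribed behaviour -/
lemma exists_neg {p m : ℕ} (hp : p.Prime) (hp2 : p ≠ 2) (hcop : Nat.Coprime p m) :
    ∃ u : ℕ, u ≡ 1 [MOD m] ∧ jacobiSym (u : ℤ) p = -1 := by
  have : Fact p.Prime := ⟨hp⟩
  obtain ⟨a, ha⟩ := quadraticChar_exists_neg_one (F := ZMod p) (by
    rw [ZMod.ringChar_zmod_n]; exact hp2)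
  obtain ⟨u, hu1, hu2⟩ := Nat.chineseRemainder hcop a.val 1
  refine ⟨u, hu2, ?_⟩
  rw [← jacobiSym.legendreSym.to_jacobiSym]
  unfold legendreSym
  have e : ((u : ℤ) : ZMod p) = a := by
    have h1 : (u : ZMod p) = (a.val : ZMod p) := (ZMod.natCast_eq_natCast_iff _ _ _).2 hu1
    rw [Int.cast_natCast, h1, ZMod.natCast_zmod_val]
  rw [e]
  exact ha

/-- a non-square natural number has a prime of odd exponent -/
lemma exists_odd_exp {n : ℕ} (hn : n ≠ 0) (hs : ¬ IsSquare n) :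
    ∃ p : ℕ, p.Prime ∧ Odd (n.factorization p) := by
  obtain ⟨a, b, hab, ha⟩ := Nat.sq_mul_squarefree n
  have ha1 : a ≠ 1 := by
    rintro rfl
    apply hs
    exact ⟨b, by rw [← hab]; ring⟩
  obtain ⟨p, hp, hpa⟩ := Nat.exists_prime_and_dvd ha1
  refine ⟨p, hp, ?_⟩
  have hb0 : b ≠ 0 := by
    rintro rfl
    apply hn
    rw [← hab]
    simp
  have ha0 : a ≠ 0 := by
    rintro rfl
    apply hn
    rw [← hab]
    simp
  rw [← hab, Nat.factorization_mul (pow_ne_zero 2 hb0) ha0, Nat.factorization_pow]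
  have h1 : a.factorization p = 1 := by
    have h2 := ha.natFactorization_le_one p
    have h3 := hp.factorization_pos_of_dvd ha0 hpa
    omega
  simp only [Finsupp.coe_add, Finsupp.coe_smul, Pi.add_apply, Pi.smul_apply, smul_eq_mul]
  rw [h1]
  exact ⟨b.factorization p, rfl⟩

/-- a positive non-square is not a square modulo some odd number -/
lemma exists_pos {n : ℕ} (hn : n ≠ 0) (hs : ¬ IsSquare n) :
    ∃ q : ℕ, Odd q ∧ jacobiSym (n : ℤ) q = -1 := by
  obtain ⟨p, hp, hodd⟩ := exists_odd_exp hn hs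
  obtain ⟨v, hv⟩ : ∃ v, v = n.factorization p := ⟨_, rfl⟩
  obtain ⟨m, hm⟩ : ∃ m, m = n / p ^ n.factorization p := ⟨_, rfl⟩
  have hnm : n = p ^ v * m := by
    rw [hv, hm]
    exact (Nat.ordProj_mul_ordCompl_eq_self n p).symm
  have hcop : Nat.Coprime p m := by
    rw [hm]
    exact Nat.coprime_ordCompl hp hn
  have hm0 : m ≠ 0 := by
    rintro rfl
    apply hn
    rw [hnm]
    simp
  rw [← hv] at hodd
  by_cases hp2 : p = 2
  · subst hp2
    have hmo : Odd m := by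
      rw [Nat.coprime_two_left] at hcop
      exact hcop
    have h8 : Nat.Coprime 8 m := by
      have : (8 : ℕ) = 2 ^ 3 := by norm_num
      rw [this]
      exact Nat.Coprime.pow_left 3 hcop
    obtain ⟨q, hq1, hq2⟩ := Nat.chineseRemainder h8 5 1
    have hq8 : q % 8 = 5 := hq1
    have hq4 : q % 4 = 1 := by omega
    have hqo : Odd q := by
      rw [Nat.odd_iff]
      omega
    refine ⟨q, hqo, ?_⟩
    rw [hnm]
    push_cast
    rw [jacobiSym.mul_left, jacobiSym.pow_left, jacobiSym.at_two hqo,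
      jacobiSym.quadratic_reciprocity_one_mod_four' hmo hq4]
    have h1 : jacobiSym (q : ℤ) m = 1 := by
      rw [jacobiSym.mod_left' (a₂ := 1), jacobiSym.one_left]
      have := hq2
      unfold Nat.ModEq at this
      exact_mod_cast this
    have h2 : ZMod.χ₈ (q : ZMod 8) = -1 := by
      have h3 : (q : ZMod 8) = 5 := by
        have := (ZMod.natCast_eq_natCast_iff q 5 8).2 hq1
        exact_mod_cast this
      rw [h3]
      rfl
    rw [h1, h2, hodd.neg_one_pow]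
    norm_num
  · have hcop4 : Nat.Coprime p (4 * m) := by
      apply Nat.Coprime.mul_right _ hcop
      have h2 : Nat.Coprime p 2 := (Nat.coprime_primes hp Nat.prime_two).2 hp2
      have : (4 : ℕ) = 2 ^ 2 := by norm_num
      rw [this]
      exact Nat.Coprime.pow_right 2 h2
    obtain ⟨u, hu1, hu2⟩ := exists_neg hp hp2 hcop4
    have hu4 : u % 4 = 1 := by
      have h1 : u ≡ 1 [MOD 4] := hu1.of_mul_right m
      exact h1
    have huo : Odd u := by
      rw [Nat.odd_iff]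
      omega
    have hpo : Odd p := hp.odd_of_ne_two hp2
    refine ⟨u, huo, ?_⟩
    rw [hnm]
    push_cast
    rw [jacobiSym.mul_left, jacobiSym.pow_left,
      jacobiSym.quadratic_reciprocity_one_mod_four' hpo hu4, hu2, hodd.neg_one_pow]
    have h1 : jacobiSym (m : ℤ) u = 1 := by
      rw [jacobiSym.mod_right' m huo]
      have h2 : u % (4 * m) = 1 := by
        have h3 : u % (4 * m) = 1 % (4 * m) := hu1
        rw [h3]
        apply Nat.mod_eq_of_lt
        omega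
      rw [h2, jacobiSym.one_right]
    rw [h1]
    norm_num

/-- a non-square integer is not a square modulo some odd number -/
lemma exists_neg_one {D : ℤ} (hD : D ≠ 0) (hns : ¬ IsSquare D) :
    ∃ q : ℕ, Odd q ∧ jacobiSym D q = -1 := by
  rcases lt_or_gt_of_ne hD with h | h
  · obtain ⟨a, ha⟩ : ∃ a : ℕ, a = D.natAbs := ⟨_, rfl⟩
    have ha0 : 0 < a := by rw [ha]; exact Int.natAbs_pos.mpr hD
    have hDa : D = -(a : ℤ) := by
      rw [ha]
      omega
    have hqo : Odd (4 * a - 1) := by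
      rw [Nat.odd_iff]
      omega
    refine ⟨4 * a - 1, hqo, ?_⟩
    rw [hDa, jacobiSym.neg _ hqo]
    have h1 : jacobiSym (a : ℤ) (4 * a - 1) = 1 := by
      have h2 : jacobiSym (4 * a : ℤ) (4 * a - 1) = 1 := by
        rw [jacobiSym.mod_left' (a₂ := 1), jacobiSym.one_left]
        have h3 : ((4 * a - 1 : ℕ) : ℤ) = 4 * a - 1 := by omega
        rw [h3]
        have h4 : (4 * (a : ℤ)) = 1 + (4 * a - 1) * 1 := by ring
        calc (4 * (a : ℤ)) % (4 * a - 1) = (1 + (4 * a - 1) * 1) % (4 * a - 1) := by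
              rw [← h4]
          _ = 1 % (4 * a - 1) := Int.add_mul_emod_self_left _ _ _
      rw [jacobiSym.mul_left, jacobiSym.at_four hqo, one_mul] at h2
      exact h2
    rw [h1, mul_one]
    have h3 : ((4 * a - 1 : ℕ) : ZMod 4) = 3 := by
      have := (ZMod.natCast_eq_natCast_iff (4 * a - 1) 3 4).2 (by
        unfold Nat.ModEq
        omega)
      exact_mod_cast this
    rw [h3]
    rfl
  · obtain ⟨a, ha⟩ : ∃ a : ℕ, (a : ℤ) = D := ⟨D.natAbs, by omega⟩
    rw [← ha] at hns hD ⊢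
    apply exists_pos
    · exact_mod_cast hD
    · rintro ⟨r, hr⟩
      exact hns ⟨(r : ℤ), by exact_mod_cast hr⟩

/-- the character on the natural numbers -/
noncomputable def f (D : ℤ) (q : ℕ) : ℝ := if Odd q then (jacobiSym D q : ℝ) else 0

lemma f_abs (D : ℤ) (q : ℕ) : |f D q| ≤ 1 := by
  unfold f
  split_ifs
  · rcases jacobiSym.trichotomy D q with h | h | h <;> rw [h] <;> norm_num
  · norm_num

lemma f_mod (D : ℤ) (hD : D ≠ 0) (q : ℕ) : f D q = f D (q % (4 * D.natAbs)) := by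
  unfold f
  have h1 : Odd (q % (4 * D.natAbs)) ↔ Odd q := by
    have h2 := Nat.mod_add_div q (4 * D.natAbs)
    have h3 : 4 * D.natAbs * (q / (4 * D.natAbs)) = 2 * (2 * D.natAbs * (q / (4 * D.natAbs))) := by
      ring
    rw [h3] at h2
    rw [Nat.odd_iff, Nat.odd_iff]
    omega
  by_cases h : Odd q
  · rw [if_pos h, if_pos (h1.2 h), jacobiSym.mod_right D h]
  · rw [if_neg h, if_neg (fun h' => h (h1.1 h'))]

lemma f_mul (D : ℤ) {a : ℕ} (ha : Odd a) (b : ℕ) : f D (a * b) = f D a * f D b := by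
  unfold f
  by_cases hb : Odd b
  · rw [if_pos (ha.mul hb), if_pos ha, if_pos hb]
    have : NeZero a := ⟨by rintro rfl; simp at ha⟩
    have : NeZero b := ⟨by rintro rfl; simp at hb⟩
    rw [jacobiSym.mul_right]
    push_cast
    rfl
  · rw [if_neg hb, if_neg (fun h => hb (Nat.odd_mul.mp h).2), mul_zero]

/-- the sum over a complete residue system -/
lemma sum_zmod (D : ℤ) (hD : D ≠ 0) (hns : ¬ IsSquare D) :
    haveI : NeZero (4 * D.natAbs) := ⟨by have := Int.natAbs_pos.mpr hD; omega⟩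
    ∑ x : ZMod (4 * D.natAbs), f D x.val = 0 := by
  have : NeZero (4 * D.natAbs) := ⟨by have := Int.natAbs_pos.mpr hD; omega⟩
  obtain ⟨q, hq, hJ⟩ := exists_neg_one hD hns
  have hfq : f D q = -1 := by
    unfold f
    rw [if_pos hq, hJ]
    norm_num
  have hcop : Nat.Coprime q (4 * D.natAbs) := by
    have : NeZero q := ⟨by rintro rfl; simp at hq⟩
    have h1 : D.gcd q = 1 := by
      by_contra h
      rw [jacobiSym.eq_zero_iff_not_coprime.2 h] at hJ
      norm_num at hJ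
    apply Nat.Coprime.mul_right
    · have h2 : Nat.Coprime q 2 := Nat.coprime_two_right.mpr hq
      have : (4 : ℕ) = 2 ^ 2 := by norm_num
      rw [this]
      exact Nat.Coprime.pow_right 2 h2
    · have h2 : Int.gcd D q = Nat.gcd D.natAbs q := by
        rw [Int.gcd_eq_natAbs, Int.natAbs_natCast]
      rw [h2] at h1
      exact Nat.Coprime.symm h1
  obtain ⟨u, hu⟩ : IsUnit (q : ZMod (4 * D.natAbs)) := (ZMod.isUnit_iff_coprime _ _).2 hcop
  have h1 : ∀ x : ZMod (4 * D.natAbs), f D ((u : ZMod (4 * D.natAbs)) * x).val = -f D x.val := by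
    intro x
    have h2 : ((u : ZMod (4 * D.natAbs)) * x).val = (q * x.val) % (4 * D.natAbs) := by
      rw [hu, ← ZMod.natCast_zmod_val x]
      rw [← Nat.cast_mul, ZMod.val_natCast, ZMod.natCast_zmod_val]
    rw [h2, ← f_mod D hD, f_mul D hq, hfq]
    ring
  have h2 : ∑ x : ZMod (4 * D.natAbs), f D x.val
      = ∑ x : ZMod (4 * D.natAbs), f D ((u : ZMod (4 * D.natAbs)) * x).val :=
    (Fintype.sum_equiv (Units.mulLeft u) (fun x => f D ((u : ZMod (4 * D.natAbs)) * x).val)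
      (fun x => f D x.val) (fun x => rfl)).symm
  rw [Finset.sum_congr rfl (fun x _ => h1 x), Finset.sum_neg_distrib] at h2
  linarith

lemma sum_range (D : ℤ) (hD : D ≠ 0) (hns : ¬ IsSquare D) :
    ∑ q ∈ Finset.range (4 * D.natAbs), f D q = 0 := by
  have : NeZero (4 * D.natAbs) := ⟨by have := Int.natAbs_pos.mpr hD; omega⟩
  rw [← sum_zmod D hD hns]
  symm
  apply Finset.sum_bij (fun x _ => x.val)
  · intro x _
    exact Finset.mem_range.2 (ZMod.val_lt x)
  · intro x _ y _ h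
    exact ZMod.val_injective _ h
  · intro q hq
    exact ⟨(q : ZMod (4 * D.natAbs)), Finset.mem_univ _,
      ZMod.val_cast_of_lt (Finset.mem_range.1 hq)⟩
  · intro x _
    rfl

/-- the sum over a full period -/
lemma sum_period (D : ℤ) (hD : D ≠ 0) (hns : ¬ IsSquare D) (k : ℕ) :
    ∑ q ∈ Finset.Ico k (k + 4 * D.natAbs), f D q = 0 := by
  induction k with
  | zero =>
    rw [zero_add, ← Finset.range_eq_Ico]
    exact sum_range D hD hns
  | succ k ih =>
    have hm : 0 < 4 * D.natAbs := by have := Int.natAbs_pos.mpr hD; omega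
    have h1 := Finset.sum_Ico_succ_top (show k + 1 ≤ k + 4 * D.natAbs by omega) (f D)
    have h2 := Finset.sum_eq_sum_Ico_succ_bot (show k < k + 4 * D.natAbs by omega) (f D)
    have h3 : f D (k + 4 * D.natAbs) = f D k := by
      rw [f_mod D hD (k + 4 * D.natAbs), f_mod D hD k, Nat.add_mod_right]
    have h4 : k + 1 + 4 * D.natAbs = k + 4 * D.natAbs + 1 := by ring
    rw [h4, h1, h3]
    linarith

lemma sum_partial (D : ℤ) (hD : D ≠ 0) (hns : ¬ IsSquare D) (k n : ℕ) :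
    |∑ q ∈ Finset.Ico k (k + n), f D q| ≤ 4 * |(D : ℝ)| := by
  have hDa : ((D.natAbs : ℕ) : ℝ) = |(D : ℝ)| := by
    rw [Nat.cast_natAbs]
    push_cast
    rfl
  induction n using Nat.strong_induction_on with
  | _ n ih =>
    by_cases hn : n < 4 * D.natAbs
    · have h1 := Finset.abs_sum_le_sum_abs (f D) (Finset.Ico k (k + n))
      have h2 : ∑ q ∈ Finset.Ico k (k + n), |f D q| ≤ ∑ q ∈ Finset.Ico k (k + n), (1 : ℝ) :=
        Finset.sum_le_sum fun q _ => f_abs D q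
      rw [Finset.sum_const, Nat.card_Ico, nsmul_eq_mul, mul_one] at h2
      have h3 : ((k + n - k : ℕ) : ℝ) ≤ 4 * |(D : ℝ)| := by
        rw [← hDa]
        have : k + n - k ≤ 4 * D.natAbs := by omega
        exact_mod_cast this
      linarith
    · push Not at hn
      have hm : 0 < 4 * D.natAbs := by have := Int.natAbs_pos.mpr hD; omega
      have h1 := ih (n - 4 * D.natAbs) (by omega)
      have h2 := sum_period D hD hns (k + (n - 4 * D.natAbs))
      have h3 : k + (n - 4 * D.natAbs) + 4 * D.natAbs = k + n := by omega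
      rw [h3] at h2
      have h4 := Finset.sum_Ico_consecutive (f D) (show k ≤ k + (n - 4 * D.natAbs) by omega)
        (show k + (n - 4 * D.natAbs) ≤ k + n by omega)
      rw [← h4, h2, add_zero]
      exact h1

lemma abel (D : ℤ) (hD : D ≠ 0) (hns : ¬ IsSquare D) (Q1 n : ℕ) (hQ : 1 ≤ Q1) :
    |∑ q ∈ Finset.Ico (Q1 + 1) (Q1 + 1 + n), f D q / q
        - (∑ q ∈ Finset.Ico (Q1 + 1) (Q1 + 1 + n), f D q) / ((Q1 : ℝ) + n)|
      ≤ 4 * |(D : ℝ)| * (1 / Q1 - 1 / ((Q1 : ℝ) + n)) := by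
  have hQ1 : (1 : ℝ) ≤ Q1 := by exact_mod_cast hQ
  induction n with
  | zero => simp
  | succ n ih =>
    have h1 := sum_partial D hD hns (Q1 + 1) n
    have hn : (0 : ℝ) ≤ n := by positivity
    have e1 : Q1 + 1 + (n + 1) = Q1 + 1 + n + 1 := by ring
    rw [e1, Finset.sum_Ico_succ_top (by omega), Finset.sum_Ico_succ_top (by omega)]
    obtain ⟨S, hS⟩ : ∃ S, S = ∑ q ∈ Finset.Ico (Q1 + 1) (Q1 + 1 + n), f D q := ⟨_, rfl⟩
    obtain ⟨T, hT⟩ : ∃ T, T = ∑ q ∈ Finset.Ico (Q1 + 1) (Q1 + 1 + n), f D q / q := ⟨_, rfl⟩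
    rw [← hS, ← hT] at ih
    rw [← hS] at h1
    rw [← hS, ← hT]
    push_cast
    have e2 : T + f D (Q1 + 1 + n) / ((Q1 : ℝ) + 1 + n)
        - (S + f D (Q1 + 1 + n)) / ((Q1 : ℝ) + (n + 1))
        = (T - S / ((Q1 : ℝ) + n)) + S * (1 / ((Q1 : ℝ) + n) - 1 / ((Q1 : ℝ) + (n + 1))) := by
      have h2 : (Q1 : ℝ) + n ≠ 0 := by positivity
      have h3 : (Q1 : ℝ) + (n + 1) ≠ 0 := by positivity
      have h4 : (Q1 : ℝ) + 1 + n = (Q1 : ℝ) + (n + 1) := by ring
      rw [h4]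
      field_simp
      ring
    rw [e2]
    have h5 : 0 ≤ 1 / ((Q1 : ℝ) + n) - 1 / ((Q1 : ℝ) + (n + 1)) := by
      rw [sub_nonneg]
      apply one_div_le_one_div_of_le <;> linarith
    have h6 := abs_add_le (T - S / ((Q1 : ℝ) + n))
      (S * (1 / ((Q1 : ℝ) + n) - 1 / ((Q1 : ℝ) + (n + 1))))
    rw [abs_mul, abs_of_nonneg h5] at h6
    have h7 := mul_le_mul_of_nonneg_right h1 h5
    linarith

end Jacaux

theorem jacobi_sum (D : ℤ) (hD : D ≠ 0) (hns : ¬ IsSquare D) (Q1 Q2 : ℕ) (hQ : 1 ≤ Q1) :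
    |∑ q ∈ (Finset.Ioc Q1 Q2).filter Odd, (jacobiSym D q : ℝ) / q| ≤ 8 * |(D : ℝ)| / Q1 := by
  have hQ1 : (1 : ℝ) ≤ Q1 := by exact_mod_cast hQ
  have hpos : 0 ≤ 4 * |(D : ℝ)| / Q1 := by positivity
  have e8 : 8 * |(D : ℝ)| / Q1 = 4 * |(D : ℝ)| / Q1 + 4 * |(D : ℝ)| / Q1 := by ring
  rcases le_or_gt Q2 Q1 with h | h
  · rw [Finset.Ioc_eq_empty (by omega), Finset.filter_empty, Finset.sum_empty, abs_zero, e8]
    linarith
  have e1 : ∑ q ∈ (Finset.Ioc Q1 Q2).filter Odd, (jacobiSym D q : ℝ) / q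
      = ∑ q ∈ Finset.Ico (Q1 + 1) (Q1 + 1 + (Q2 - Q1)), Jacaux.f D q / q := by
    rw [Finset.sum_filter]
    apply Finset.sum_congr
    · ext q
      simp only [Finset.mem_Ioc, Finset.mem_Ico]
      omega
    · intro q _
      unfold Jacaux.f
      split_ifs
      · rfl
      · rw [zero_div]
  rw [e1]
  have h1 := Jacaux.abel D hD hns Q1 (Q2 - Q1) hQ
  have h2 := Jacaux.sum_partial D hD hns (Q1 + 1) (Q2 - Q1)
  have hn : (0 : ℝ) ≤ ((Q2 - Q1 : ℕ) : ℝ) := by positivity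
  obtain ⟨x, hx⟩ : ∃ x : ℝ, x = (Q1 : ℝ) + ((Q2 - Q1 : ℕ) : ℝ) := ⟨_, rfl⟩
  rw [← hx] at h1
  have hx0 : 0 < x := by rw [hx]; linarith
  have h3 : |(∑ q ∈ Finset.Ico (Q1 + 1) (Q1 + 1 + (Q2 - Q1)), Jacaux.f D q) / x|
      ≤ 4 * |(D : ℝ)| / x := by
    rw [abs_div, abs_of_pos hx0]
    exact div_le_div_of_nonneg_right h2 hx0.le
  have h4 := abs_sub_abs_le_abs_sub
    (∑ q ∈ Finset.Ico (Q1 + 1) (Q1 + 1 + (Q2 - Q1)), Jacaux.f D q / q)
    ((∑ q ∈ Finset.Ico (Q1 + 1) (Q1 + 1 + (Q2 - Q1)), Jacaux.f D q) / x)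
  have e2 : 4 * |(D : ℝ)| * (1 / Q1 - 1 / x) = 4 * |(D : ℝ)| / Q1 - 4 * |(D : ℝ)| / x := by
    ring
  rw [e2] at h1
  rw [e8]
  linarith

end Pool.Agent.Lib.MP_4b09b1_nt
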