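import Pool.Agent.Lib.MP_4b09b1_nt.Defs

set_option autoImplicit false

open Finset

namespace Pool.Agent.Lib.MP_4b09b1_nt

namespace Pairsaux

lemma mem_res (X : Finset ℤ) (p : ℕ) (h : ZMod p) :
    h ∈ res X p ↔ ∃ x ∈ X, (x : ZMod p) = h := by
  classical
  unfold res
  simp [Finset.bind_def, eq_comm]

/-- the number of elements in a class -/
noncomputable def cnt (X : Finset ℤ) (p : ℕ) (h : ZMod p) : ℕ :=
  open Classical in (X.filter (fun x : ℤ => (x : ZMod p) = h)).card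

lemma cnt_zero {X : Finset ℤ} {p : ℕ} {h : ZMod p} (hh : h ∉ res X p) : cnt X p h = 0 := by
  classical
  unfold cnt
  rw [Finset.card_eq_zero, Finset.filter_eq_empty_iff]
  intro x hx hxh
  apply hh
  rw [mem_res]
  exact ⟨x, hx, hxh⟩

lemma card_eq (X : Finset ℤ) (p : ℕ) [NeZero p] : X.card = ∑ h : ZMod p, cnt X p h := by
  classical
  rw [Finset.card_eq_sum_card_fiberwise (f := fun x : ℤ => (x : ZMod p)) (t := Finset.univ)
    (fun x _ => Finset.mem_coe.mpr (Finset.mem_univ _))]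
  apply Finset.sum_congr rfl
  intro h _
  unfold cnt
  rfl

lemma pairs_eq (X : Finset ℤ) (p : ℕ) [NeZero p] : pairs X p = ∑ h : ZMod p, cnt X p h ^ 2 := by
  classical
  unfold pairs
  rw [Finset.card_eq_sum_card_fiberwise (f := fun t : ℤ × ℤ => (t.1 : ZMod p)) (t := Finset.univ)
    (fun x _ => Finset.mem_coe.mpr (Finset.mem_univ _))]
  apply Finset.sum_congr rfl
  intro h _
  rw [sq]
  unfold cnt
  rw [← Finset.card_product]
  congr 1
  ext ⟨x, y⟩
  simp only [Finset.mem_filter, Finset.mem_product]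
  rw [← ZMod.intCast_eq_intCast_iff_dvd_sub]
  constructor
  · rintro ⟨⟨⟨h1, h2⟩, h3⟩, h4⟩
    exact ⟨⟨h1, h4⟩, h2, h3.trans h4⟩
  · rintro ⟨⟨h1, h2⟩, h3, h4⟩
    exact ⟨⟨⟨h1, h3⟩, h4.trans h2.symm⟩, h2⟩

/-- Cauchy-Schwarz over the occupied classes -/
lemma cs (X : Finset ℤ) (p : ℕ) [NeZero p] :
    (X.card : ℝ) ^ 2 ≤ (res X p).card * pairs X p := by
  classical
  have h1 : (X.card : ℝ) = ∑ h ∈ res X p, (cnt X p h : ℝ) := by
    rw [card_eq X p]
    push_cast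
    symm
    apply Finset.sum_subset (Finset.subset_univ _)
    intro h _ hh
    rw [cnt_zero hh]
    norm_num
  have h2 : (pairs X p : ℝ) = ∑ h ∈ res X p, (cnt X p h : ℝ) ^ 2 := by
    rw [pairs_eq X p]
    push_cast
    symm
    apply Finset.sum_subset (Finset.subset_univ _)
    intro h _ hh
    rw [cnt_zero hh]
    norm_num
  rw [h1, h2]
  exact sq_sum_le_card_mul_sum_sq

lemma res_le (X : Finset ℤ) (p : ℕ) [NeZero p] : (res X p).card ≤ p := by
  have := Finset.card_le_univ (res X p)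
  rwa [ZMod.card] at this

end Pairsaux

open Pairsaux

theorem pairs_ge (X : Finset ℤ) {p : ℕ} (hp : p.Prime) :
    (X.card : ℝ) ^ 2 / p ≤ pairs X p := by
  have : NeZero p := ⟨hp.ne_zero⟩
  have h1 := cs X p
  have h2 : ((res X p).card : ℝ) ≤ p := by exact_mod_cast res_le X p
  have hp0 : (0 : ℝ) < p := by exact_mod_cast hp.pos
  rw [div_le_iff₀ hp0]
  have h3 := mul_le_mul_of_nonneg_right h2 (Nat.cast_nonneg (α := ℝ) (pairs X p))
  linarith

theorem pairs_ge_miss (X : Finset ℤ) {p : ℕ} (hp : p.Prime) {c : ℕ}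
    (hc : (res X p).card + 2 * c ≤ p) :
    (X.card : ℝ) ^ 2 / p * (1 + 2 * c / p) ≤ pairs X p := by
  have : NeZero p := ⟨hp.ne_zero⟩
  have h1 := cs X p
  have hc' : ((res X p).card : ℝ) + 2 * c ≤ p := by exact_mod_cast hc
  have hp0 : (0 : ℝ) < p := by exact_mod_cast hp.pos
  have hc0 : (0 : ℝ) ≤ c := Nat.cast_nonneg _
  have hn0 : (0 : ℝ) ≤ pairs X p := Nat.cast_nonneg _
  have e1 : (X.card : ℝ) ^ 2 / p * (1 + 2 * c / p) = (X.card : ℝ) ^ 2 * (p + 2 * c) / (p * p) := by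
    field_simp
  rw [e1, div_le_iff₀ (by positivity)]
  have h2 : (X.card : ℝ) ^ 2 ≤ (p - 2 * c) * pairs X p := by
    have h3 := mul_le_mul_of_nonneg_right (show ((res X p).card : ℝ) ≤ p - 2 * c by linarith) hn0
    linarith
  have h3 := mul_le_mul_of_nonneg_right h2 (show (0 : ℝ) ≤ p + 2 * c by linarith)
  have h4 : 0 ≤ (pairs X p : ℝ) * c * c := by positivity
  nlinarith

theorem pairs_ge_two (B : Finset ℤ) {p : ℕ} (hp : p.Prime) (G : Set (ZMod p))
    (hG : ({h | h ∉ G} : Set (ZMod p)).ncard ≤ (p + 1) / 2) :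
    (B.card : ℝ) ^ 2 / p * (2 - 2 / p - 25 * ({h | h ∈ res B p ∧ h ∈ G} : Set (ZMod p)).ncard / p) +
      6 * (B.card : ℝ) / p * ({b | b ∈ B ∧ (b : ZMod p) ∈ G} : Set ℤ).ncard ≤ pairs B p := by
  classical
  have : NeZero p := ⟨hp.ne_zero⟩
  have hp0 : (0 : ℝ) < p := by exact_mod_cast hp.pos
  obtain ⟨s, hs⟩ : ∃ s : ℝ, s = (B.card : ℝ) / p := ⟨_, rfl⟩
  -- the sets
  have e1 : ({h | h ∉ G} : Set (ZMod p)).ncard = (Finset.univ.filter (fun h => h ∉ G)).card := by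
    rw [← Set.ncard_coe_finset]
    congr 1
    ext h
    simp
  have e2 : ({h | h ∈ res B p ∧ h ∈ G} : Set (ZMod p)).ncard
      = (Finset.univ.filter (fun h => h ∈ res B p ∧ h ∈ G)).card := by
    rw [← Set.ncard_coe_finset]
    congr 1
    ext h
    simp
  have e3 : ({b | b ∈ B ∧ (b : ZMod p) ∈ G} : Set ℤ).ncard
      = ∑ h ∈ Finset.univ.filter (fun h => h ∈ G), cnt B p h := by
    have h1 : ({b | b ∈ B ∧ (b : ZMod p) ∈ G} : Set ℤ).ncard
        = (B.filter (fun b : ℤ => (b : ZMod p) ∈ G)).card := by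
      rw [← Set.ncard_coe_finset]
      congr 1
      ext h
      simp
    rw [h1, Finset.card_eq_sum_card_fiberwise (f := fun x : ℤ => (x : ZMod p))
      (t := Finset.univ.filter (fun h => h ∈ G)) (by
        intro x hx
        have := (Finset.mem_filter.mp (Finset.mem_coe.mp hx)).2
        exact Finset.mem_coe.mpr (Finset.mem_filter.mpr ⟨Finset.mem_univ _, this⟩))]
    apply Finset.sum_congr rfl
    intro h hh
    unfold cnt
    congr 1
    ext x
    simp only [Finset.mem_filter]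
    constructor
    · rintro ⟨⟨h2, _⟩, h4⟩
      exact ⟨h2, h4⟩
    · rintro ⟨h2, h4⟩
      refine ⟨⟨h2, ?_⟩, h4⟩
      rw [h4]
      exact (Finset.mem_filter.mp hh).2
  rw [e1] at hG
  rw [e2, e3]
  have hpairs : (pairs B p : ℝ) = ∑ h ∈ Finset.univ.filter (fun h => h ∈ G), (cnt B p h : ℝ) ^ 2
      + ∑ h ∈ Finset.univ.filter (fun h => h ∉ G), (cnt B p h : ℝ) ^ 2 := by
    rw [Finset.sum_filter_add_sum_filter_not, pairs_eq B p]
    push_cast
    rfl
  have hcard : (B.card : ℝ) = ∑ h ∈ Finset.univ.filter (fun h => h ∈ G), (cnt B p h : ℝ)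
      + ∑ h ∈ Finset.univ.filter (fun h => h ∉ G), (cnt B p h : ℝ) := by
    rw [Finset.sum_filter_add_sum_filter_not, card_eq B p]
    push_cast
    rfl
  have h1 : ∑ h ∈ Finset.univ.filter (fun h => h ∈ G), (10 * s * (cnt B p h : ℝ)
      - if h ∈ res B p then 25 * s ^ 2 else 0)
      ≤ ∑ h ∈ Finset.univ.filter (fun h => h ∈ G), (cnt B p h : ℝ) ^ 2 := by
    apply Finset.sum_le_sum
    intro h _
    split_ifs with hh
    · nlinarith [sq_nonneg ((cnt B p h : ℝ) - 5 * s)]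
    · rw [cnt_zero hh]
      norm_num
  have h2 : ∑ h ∈ Finset.univ.filter (fun h => h ∉ G), (4 * s * (cnt B p h : ℝ) - 4 * s ^ 2)
      ≤ ∑ h ∈ Finset.univ.filter (fun h => h ∉ G), (cnt B p h : ℝ) ^ 2 := by
    apply Finset.sum_le_sum
    intro h _
    nlinarith [sq_nonneg ((cnt B p h : ℝ) - 2 * s)]
  rw [Finset.sum_sub_distrib, ← Finset.mul_sum, ← Finset.sum_filter, Finset.sum_const,
    nsmul_eq_mul, Finset.filter_filter] at h1
  rw [Finset.sum_sub_distrib, ← Finset.mul_sum, Finset.sum_const, nsmul_eq_mul] at h2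
  have e4 : (Finset.univ.filter (fun h => h ∈ G ∧ h ∈ res B p))
      = (Finset.univ.filter (fun h => h ∈ res B p ∧ h ∈ G)) := by
    ext h
    simp only [Finset.mem_filter]
    tauto
  rw [e4] at h1
  obtain ⟨g, hg⟩ : ∃ g : ℝ, g = ((Finset.univ.filter (fun h => h ∈ res B p ∧ h ∈ G)).card : ℝ) :=
    ⟨_, rfl⟩
  rw [← hg] at h1 ⊢
  have hG' : ((Finset.univ.filter (fun h : ZMod p => h ∉ G)).card : ℝ) ≤ (p + 1) / 2 := by
    have h3 : ((((p + 1) / 2 : ℕ)) : ℝ) ≤ (p + 1) / 2 := by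
      have := Nat.cast_div_le (α := ℝ) (m := p + 1) (n := 2)
      push_cast at this
      exact this
    have h4 : ((Finset.univ.filter (fun h : ZMod p => h ∉ G)).card : ℝ) ≤ ((p + 1) / 2 : ℕ) := by
      exact_mod_cast hG
    exact h4.trans h3
  push_cast
  obtain ⟨a, ha⟩ : ∃ a : ℝ, a = ∑ h ∈ Finset.univ.filter (fun h => h ∈ G), (cnt B p h : ℝ) :=
    ⟨_, rfl⟩
  rw [← ha] at h1 hcard ⊢
  have h6 : (B.card : ℝ) = p * s := by
    rw [hs, mul_div_cancel₀ _ hp0.ne']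
  have h5 : ∑ h ∈ Finset.univ.filter (fun h => h ∉ G), (cnt B p h : ℝ) = p * s - a := by
    linarith
  rw [h5] at h2
  rw [hpairs, h6]
  have e5 : ((p : ℝ) * s) ^ 2 / p * (2 - 2 / p - 25 * g / p) + 6 * (p * s) / p * a
      = 2 * p * s ^ 2 - 2 * s ^ 2 - 25 * g * s ^ 2 + 6 * s * a := by
    have e6 : ((p : ℝ) * s) ^ 2 / p = p * s ^ 2 := by
      rw [mul_pow, sq (p : ℝ), mul_assoc, mul_div_cancel_left₀ _ hp0.ne']
    have e7 : 6 * ((p : ℝ) * s) / p = 6 * s := by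
      rw [mul_left_comm, mul_div_cancel_left₀ _ hp0.ne']
    have e8 : (p : ℝ) * s ^ 2 * (2 / p) = 2 * s ^ 2 := by
      rw [mul_div_assoc', mul_comm ((p : ℝ) * s ^ 2) 2, ← mul_assoc, mul_comm 2 (p : ℝ), mul_assoc,
        mul_div_cancel_left₀ _ hp0.ne']
    have e9 : (p : ℝ) * s ^ 2 * (25 * g / p) = 25 * g * s ^ 2 := by
      rw [mul_div_assoc', mul_assoc, mul_div_cancel_left₀ _ hp0.ne']
      ring
    rw [e6, e7, mul_sub, mul_sub, e8, e9]
    ring
  rw [e5]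
  have h7 := mul_le_mul_of_nonneg_right hG' (show (0 : ℝ) ≤ 4 * s ^ 2 by positivity)
  nlinarith

end Pool.Agent.Lib.MP_4b09b1_nt
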