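import Pool.Agent.Lib.MP_4b09b1_nt.Defs

set_option autoImplicit false

open Finset

namespace Pool.Agent.Lib.MP_4b09b1_nt

namespace RSaux

lemma mem_res (X : Finset ℤ) (p : ℕ) (h : ZMod p) :
    h ∈ res X p ↔ ∃ x ∈ X, (x : ZMod p) = h := by
  classical
  unfold res
  simp [Finset.bind_def, eq_comm]

/-- `- n_h` for a residue class `h` -/
def mn (α β γ : ℤ) (p : ℕ) (h : ZMod p) : ZMod p :=
  -(4 * (α : ZMod p) * h - ((β : ZMod p) ^ 2 - 4 * (α : ZMod p) * (γ : ZMod p)))

lemma two_alpha {α : ℤ} {p : ℕ} (hα : ¬ (p : ℤ) ∣ 2 * α) : (2 * (α : ZMod p)) ≠ 0 := by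
  intro h
  apply hα
  rw [← ZMod.intCast_zmod_eq_zero_iff_dvd]
  push_cast
  exact h

lemma mn_inj {α β γ : ℤ} {p : ℕ} [Fact p.Prime] (hα : ¬ (p : ℤ) ∣ 2 * α) :
    Function.Injective (mn α β γ p) := by
  intro h h' e
  unfold mn at e
  have h1 := two_alpha hα
  have h2 : (2 : ZMod p) ≠ 0 := left_ne_zero_of_mul h1
  have h3 : (2 * (2 * (α : ZMod p))) * (h - h') = 0 := by linear_combination -e
  rcases mul_eq_zero.mp h3 with h4 | h4
  · exact absurd h4 (mul_ne_zero h2 h1)
  · exact sub_eq_zero.mp h4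

lemma neg_ne {p : ℕ} [Fact p.Prime] (h2 : (2 : ZMod p) ≠ 0) {r : ZMod p} (hr : r ≠ 0) :
    r ≠ -r := by
  intro h
  have h3 : (2 : ZMod p) * r = 0 := by linear_combination h
  rcases mul_eq_zero.mp h3 with h4 | h4
  · exact h2 h4
  · exact hr h4

end RSaux

open RSaux

theorem res_add_le (α β γ : ℤ) (X B : Finset ℤ) {p : ℕ} (hp : p.Prime)
    (hα : ¬ (p : ℤ) ∣ 2 * α)
    (h : ∀ x ∈ X, ∀ b ∈ B, ¬ (p : ℤ) ∣ (2 * α * x + β) ^ 2 + nb α β γ b) :
    (res X p).card + 2 * ({h | h ∈ res B p ∧ h ∈ plusCl α β γ p} : Set (ZMod p)).ncard ≤ p := by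
  classical
  have : Fact p.Prime := ⟨hp⟩
  have h2α := two_alpha hα
  have h2 : (2 : ZMod p) ≠ 0 := left_ne_zero_of_mul h2α
  obtain ⟨H, hH⟩ : ∃ H, H = Finset.univ.filter fun h : ZMod p => h ∈ res B p ∧ h ∈ plusCl α β γ p :=
    ⟨_, rfl⟩
  have e1 : ({h | h ∈ res B p ∧ h ∈ plusCl α β γ p} : Set (ZMod p)).ncard = H.card := by
    rw [hH, ← Set.ncard_coe_finset]
    congr 1
    ext h
    simp
  rw [e1]
  -- the roots
  obtain ⟨R, hR⟩ : ∃ R, R = Finset.univ.filter fun r : ZMod p =>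
      r ≠ 0 ∧ ∃ h ∈ H, r ^ 2 = mn α β γ p h := ⟨_, rfl⟩
  obtain ⟨I, hI⟩ : ∃ I, I = (res X p).image fun x => 2 * (α : ZMod p) * x + (β : ZMod p) := ⟨_, rfl⟩
  have hIc : I.card = (res X p).card := by
    rw [hI]
    apply Finset.card_image_of_injective
    intro x y hxy
    have h3 : 2 * (α : ZMod p) * (x - y) = 0 := by
      dsimp only at hxy
      linear_combination hxy
    rcases mul_eq_zero.mp h3 with h4 | h4
    · exact absurd h4 h2α
    · exact sub_eq_zero.mp h4
  have hdisj : Disjoint I R := by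
    rw [Finset.disjoint_left]
    intro r hr1 hr2
    rw [hI, Finset.mem_image] at hr1
    obtain ⟨x, hx, rfl⟩ := hr1
    rw [mem_res] at hx
    obtain ⟨x, hx, rfl⟩ := hx
    rw [hR, Finset.mem_filter] at hr2
    obtain ⟨_, _, b, hb, hr⟩ := hr2
    rw [hH, Finset.mem_filter] at hb
    obtain ⟨b', hb', rfl⟩ := (mem_res _ _ _).1 hb.2.1
    apply h x hx b' hb'
    rw [← ZMod.intCast_zmod_eq_zero_iff_dvd]
    unfold nb
    unfold mn at hr
    push_cast
    linear_combination hr
  have hRc : 2 * H.card ≤ R.card := by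
    -- every class of `H` has two roots
    have h3 : ∀ h ∈ H, ∃ r : ZMod p, r ≠ 0 ∧ r ^ 2 = mn α β γ p h := by
      intro h hh
      rw [hH, Finset.mem_filter] at hh
      exact hh.2.2
    choose! ρ hρ0 hρ using h3
    have h4 : Disjoint (H.image ρ) (H.image fun h => -ρ h) := by
      rw [Finset.disjoint_left]
      intro r hr1 hr2
      obtain ⟨h, hh, rfl⟩ := Finset.mem_image.mp hr1
      obtain ⟨h', hh', e⟩ := Finset.mem_image.mp hr2
      have h5 : mn α β γ p h = mn α β γ p h' := by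
        rw [← hρ h hh, ← hρ h' hh', ← e]
        ring
      have h6 := mn_inj hα h5
      subst h6
      exact neg_ne h2 (hρ0 h hh) e.symm
    have h5 : (H.image ρ).card = H.card := by
      apply Finset.card_image_of_injOn
      intro h hh h' hh' e
      apply mn_inj (β := β) (γ := γ) hα
      rw [← hρ h hh, ← hρ h' hh', e]
    have h6 : (H.image fun h => -ρ h).card = H.card := by
      apply Finset.card_image_of_injOn
      intro h hh h' hh' e
      apply mn_inj (β := β) (γ := γ) hα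
      rw [← hρ h hh, ← hρ h' hh']
      dsimp only at e
      rw [neg_inj.mp e]
    have h7 : H.image ρ ∪ (H.image fun h => -ρ h) ⊆ R := by
      intro r hr
      rw [hR, Finset.mem_filter]
      rcases Finset.mem_union.mp hr with hr | hr
      · obtain ⟨h, hh, rfl⟩ := Finset.mem_image.mp hr
        exact ⟨Finset.mem_univ _, hρ0 h hh, h, hh, hρ h hh⟩
      · obtain ⟨h, hh, rfl⟩ := Finset.mem_image.mp hr
        exact ⟨Finset.mem_univ _, neg_ne_zero.mpr (hρ0 h hh), h, hh, by rw [neg_sq]; exact hρ h hh⟩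
    have h8 := Finset.card_le_card h7
    rw [Finset.card_union_of_disjoint h4, h5, h6] at h8
    omega
  have h3 := Finset.card_le_univ (I ∪ R)
  rw [Finset.card_union_of_disjoint hdisj, ZMod.card, hIc] at h3
  omega

theorem plusCl_compl (α β γ : ℤ) {p : ℕ} (hp : p.Prime) (hα : ¬ (p : ℤ) ∣ 2 * α) :
    ({h | h ∉ plusCl α β γ p} : Set (ZMod p)).ncard ≤ (p + 1) / 2 := by
  classical
  have : Fact p.Prime := ⟨hp⟩
  have h2α := two_alpha hα
  have h2 : (2 : ZMod p) ≠ 0 := left_ne_zero_of_mul h2α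
  have hp2 : p ≠ 2 := by
    rintro rfl
    apply h2
    rfl
  have hodd := hp.eq_two_or_odd
  -- the nonzero residues are mapped to the classes
  have hsurj : ∀ r : ZMod p, ∃ h, mn α β γ p h = r ^ 2 := fun r => by
    have := (Finite.injective_iff_surjective.mp (mn_inj (β := β) (γ := γ) hα)) (r ^ 2)
    exact this
  choose η hη using hsurj
  obtain ⟨N, hN⟩ : ∃ N, N = Finset.univ.filter fun r : ZMod p => r ≠ 0 := ⟨_, rfl⟩
  have hNc : N.card = p - 1 := by
    rw [hN, Finset.filter_ne', Finset.card_erase_of_mem (Finset.mem_univ _), Finset.card_univ,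
      ZMod.card]
  obtain ⟨C, hC⟩ : ∃ C, C = Finset.univ.filter fun h : ZMod p => h ∈ plusCl α β γ p := ⟨_, rfl⟩
  have himg : N.image η ⊆ C := by
    intro h hh
    obtain ⟨r, hr, rfl⟩ := Finset.mem_image.mp hh
    rw [hN, Finset.mem_filter] at hr
    rw [hC, Finset.mem_filter]
    exact ⟨Finset.mem_univ _, r, hr.2, (hη r).symm⟩
  have hfib : N.card ≤ 2 * (N.image η).card := by
    apply Finset.card_le_mul_card_image
    intro h hh
    obtain ⟨r, hr, rfl⟩ := Finset.mem_image.mp hh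
    have h3 : (N.filter fun a => η a = η r) ⊆ {r, -r} := by
      intro a ha
      have h4 := (Finset.mem_filter.mp ha).2
      have h5 : a ^ 2 = r ^ 2 := by rw [← hη a, ← hη r, h4]
      rw [Finset.mem_insert, Finset.mem_singleton]
      exact sq_eq_sq_iff_eq_or_eq_neg.mp h5
    exact (Finset.card_le_card h3).trans Finset.card_le_two
  have h3 := Finset.card_le_card himg
  have e1 : ({h | h ∉ plusCl α β γ p} : Set (ZMod p)).ncard
      = (Finset.univ.filter fun h : ZMod p => h ∉ plusCl α β γ p).card := by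
    rw [← Set.ncard_coe_finset]
    congr 1
    ext h
    simp
  have h4 := Finset.card_filter_add_card_filter_not (s := (Finset.univ : Finset (ZMod p)))
    (fun h : ZMod p => h ∈ plusCl α β γ p)
  rw [Finset.card_univ, ZMod.card, ← hC] at h4
  rw [e1]
  omega

theorem plusB_eq (α β γ : ℤ) (B : Finset ℤ) {p : ℕ} (hp : p.Prime) (hα : ¬ (p : ℤ) ∣ 2 * α) :
    plusB α β γ B p = ({b | b ∈ B ∧ (b : ZMod p) ∈ plusCl α β γ p} : Set ℤ).ncard := by
  classical
  have : Fact p.Prime := ⟨hp⟩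
  have e1 : ({b | b ∈ B ∧ (b : ZMod p) ∈ plusCl α β γ p} : Set ℤ).ncard
      = (B.filter fun b : ℤ => (b : ZMod p) ∈ plusCl α β γ p).card := by
    rw [← Set.ncard_coe_finset]
    congr 1
    ext h
    simp
  rw [e1]
  unfold plusB
  congr 1
  ext b
  simp only [Finset.mem_filter]
  apply and_congr_right
  intro _
  rw [← jacobiSym.legendreSym.to_jacobiSym]
  have e2 : ((-(nb α β γ b) : ℤ) : ZMod p) = mn α β γ p (b : ZMod p) := by
    unfold nb mn
    push_cast
    ring
  by_cases h0 : ((-(nb α β γ b) : ℤ) : ZMod p) = 0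
  · rw [(legendreSym.eq_zero_iff p _).2 h0]
    constructor
    · intro h
      norm_num at h
    · rintro ⟨r, hr, hr2⟩
      exfalso
      have h3 : r ^ 2 = 0 := by
        rw [hr2, ← h0, e2]
        rfl
      exact hr (pow_eq_zero_iff (two_ne_zero)|>.mp h3)
  · rw [legendreSym.eq_one_iff p h0]
    constructor
    · rintro ⟨r, hr⟩
      refine ⟨r, ?_, ?_⟩
      · rintro rfl
        apply h0
        rw [hr]
        ring
      · change r ^ 2 = mn α β γ p (b : ZMod p)
        rw [← e2, hr]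
        ring
    · rintro ⟨r, _, hr⟩
      refine ⟨r, ?_⟩
      rw [e2]
      have h3 : r ^ 2 = mn α β γ p (b : ZMod p) := hr
      rw [← h3]
      ring

end Pool.Agent.Lib.MP_4b09b1_nt
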