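import Pool.Agent.Lib.MP_4b09b1_nt.LS
import Pool.Agent.Lib.MP_4b09b1_nt.Pairs
import Pool.Agent.Lib.MP_4b09b1_nt.RS

set_option autoImplicit false

open Finset

namespace Pool.Agent.Lib.MP_4b09b1_nt

namespace Plusaux

lemma pr_prime {y p : ℕ} (hp : p ∈ pr y) : p.Prime := (Finset.mem_filter.mp hp).2

lemma prA_sub (α : ℤ) (y : ℕ) : prA α y ⊆ pr y := Finset.filter_subset _ _

lemma log_nonneg {y p : ℕ} (hp : p ∈ pr y) : 0 ≤ Real.log p :=
  Real.log_nonneg (by exact_mod_cast (pr_prime hp).one_lt.le)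

end Plusaux

open Plusaux in
theorem plus_sum (α β γ : ℤ) (X B : Finset ℤ) (hX : X.Nonempty) (hB : B.Nonempty) (y : ℕ)
    (D D' : ℝ) (hD : 1 ≤ D) (hXD : ∀ x ∈ X, ∀ x' ∈ X, |(x : ℝ) - x'| ≤ D)
    (hD' : 1 ≤ D') (hBD : ∀ x ∈ B, ∀ x' ∈ B, |(x : ℝ) - x'| ≤ D')
    (h : ∀ p ∈ prA α y, ∀ x ∈ X, ∀ b ∈ B, ¬ (p : ℤ) ∣ (2 * α * x + β) ^ 2 + nb α β γ b) :
    6 * ∑ p ∈ prA α y, Real.log p / p * (plusB α β γ B p / B.card) ≤
      Real.log D' + (∑ p ∈ pr y, Real.log p) / B.card - 2 * ∑ p ∈ prA α y, Real.log p / p +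
      2 * ∑ p ∈ pr y, Real.log p / p ^ 2 +
      25 / 2 * (Real.log D + (∑ p ∈ pr y, Real.log p) / X.card - ∑ p ∈ pr y, Real.log p / p) := by
  classical
  obtain ⟨g, hg⟩ : ∃ g : ℕ → ℕ, g = fun p =>
      ({h | h ∈ res B p ∧ h ∈ plusCl α β γ p} : Set (ZMod p)).ncard := ⟨_, rfl⟩
  have hXc : (0 : ℝ) < X.card := by exact_mod_cast hX.card_pos
  have hBc : (0 : ℝ) < B.card := by exact_mod_cast hB.card_pos
  have hprA : ∀ p ∈ prA α y, p.Prime ∧ ¬ (p : ℤ) ∣ 2 * α := fun p hp =>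
    ⟨pr_prime (prA_sub α y hp), (Finset.mem_filter.mp hp).2⟩
  -- the set `X`
  have hX1 : ∑ p ∈ pr y, Real.log p / p + 2 * ∑ p ∈ prA α y, Real.log p / p * (g p / p)
      ≤ (∑ p ∈ pr y, Real.log p) / X.card + Real.log D := by
    have h1 := larger_sieve X (pr y) (fun p hp => pr_prime hp) D hD hXD
    have h2 : ∀ p ∈ pr y, (X.card : ℝ) ^ 2 * (Real.log p / p
        + (if ¬ (p : ℤ) ∣ 2 * α then 2 * (Real.log p / p * (g p / p)) else 0))
        ≤ Real.log p * pairs X p := by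
      intro p hp
      have hpp := pr_prime hp
      have hl := log_nonneg hp
      have hp0 : (0 : ℝ) < p := by exact_mod_cast hpp.pos
      split_ifs with hα
      · have h3 := mul_le_mul_of_nonneg_left (pairs_ge X hpp) hl
        refine le_trans (le_of_eq ?_) h3
        ring
      · have hpA : p ∈ prA α y := Finset.mem_filter.mpr ⟨hp, hα⟩
        have h3 := res_add_le α β γ X B hpp hα (h p hpA)
        have h4 := mul_le_mul_of_nonneg_left (pairs_ge_miss X hpp h3) hl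
        refine le_trans (le_of_eq ?_) h4
        rw [hg]
        ring
    have h3 := (Finset.sum_le_sum h2).trans h1
    rw [← Finset.mul_sum, Finset.sum_add_distrib, ← Finset.sum_filter, ← Finset.mul_sum] at h3
    change (X.card : ℝ) ^ 2 * (∑ p ∈ pr y, Real.log p / p
      + 2 * ∑ p ∈ prA α y, Real.log p / p * (g p / p)) ≤ _ at h3
    have h4 : (X.card : ℝ) * ∑ p ∈ pr y, Real.log p + (X.card : ℝ) ^ 2 * Real.log D
        = (X.card : ℝ) ^ 2 * ((∑ p ∈ pr y, Real.log p) / X.card + Real.log D) := by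
      field_simp
    rw [h4] at h3
    exact le_of_mul_le_mul_left h3 (by positivity)
  -- the set `B`
  have hB1 : 2 * ∑ p ∈ prA α y, Real.log p / p - 2 * ∑ p ∈ prA α y, Real.log p / p ^ 2
      - 25 * ∑ p ∈ prA α y, Real.log p / p * (g p / p)
      + 6 * ∑ p ∈ prA α y, Real.log p / p * (plusB α β γ B p / B.card)
      ≤ (∑ p ∈ prA α y, Real.log p) / B.card + Real.log D' := by
    have h1 := larger_sieve B (prA α y) (fun p hp => (hprA p hp).1) D' hD' hBD
    have h2 : ∀ p ∈ prA α y, (B.card : ℝ) ^ 2 * (2 * (Real.log p / p) - 2 * (Real.log p / p ^ 2)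
        - 25 * (Real.log p / p * (g p / p)) + 6 * (Real.log p / p * (plusB α β γ B p / B.card)))
        ≤ Real.log p * pairs B p := by
      intro p hp
      obtain ⟨hpp, hα⟩ := hprA p hp
      have hl := log_nonneg (prA_sub α y hp)
      have hp0 : (0 : ℝ) < p := by exact_mod_cast hpp.pos
      have h3 := mul_le_mul_of_nonneg_left
        (pairs_ge_two B hpp (plusCl α β γ p) (plusCl_compl α β γ hpp hα)) hl
      refine le_trans (le_of_eq ?_) h3
      rw [← plusB_eq α β γ B hpp hα, hg]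
      dsimp only
      field_simp
    have h3 := (Finset.sum_le_sum h2).trans h1
    rw [← Finset.mul_sum, Finset.sum_add_distrib, Finset.sum_sub_distrib, Finset.sum_sub_distrib,
      ← Finset.mul_sum, ← Finset.mul_sum, ← Finset.mul_sum, ← Finset.mul_sum] at h3
    have h4 : (B.card : ℝ) * ∑ p ∈ prA α y, Real.log p + (B.card : ℝ) ^ 2 * Real.log D'
        = (B.card : ℝ) ^ 2 * ((∑ p ∈ prA α y, Real.log p) / B.card + Real.log D') := by
      field_simp
    rw [h4] at h3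
    exact le_of_mul_le_mul_left h3 (by positivity)
  -- conclusion
  have h5 : (∑ p ∈ prA α y, Real.log p) / B.card ≤ (∑ p ∈ pr y, Real.log p) / B.card := by
    apply div_le_div_of_nonneg_right _ hBc.le
    exact Finset.sum_le_sum_of_subset_of_nonneg (prA_sub α y) (fun p hp _ => log_nonneg hp)
  have h6 : ∑ p ∈ prA α y, Real.log p / (p : ℝ) ^ 2 ≤ ∑ p ∈ pr y, Real.log p / (p : ℝ) ^ 2 := by
    apply Finset.sum_le_sum_of_subset_of_nonneg (prA_sub α y)
    intro p hp _
    have := log_nonneg hp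
    positivity
  linarith

end Pool.Agent.Lib.MP_4b09b1_nt
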